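import Pool.Agent.Q44.Appr

set_option autoImplicit false

/-! A property of positive integers whose exceptions up to `N` are at most `C N / (log N) ^ U`, for every
`U`, holds at the linear forms in the denominators and numerators of the rational approximations of the
quality of Dirichlet's theorem, up to a power of the logarithm, of almost all real points. -/

namespace Pool.Agent.Q44.CF

open MeasureTheory Filter Set ENNReal Topology Metric

/-- for every `U` at most `C N / (log N) ^ U` of the positive integers up to `N ≥ 2` satisfy `B` -/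
def LogFew (B : ℕ → Prop) : Prop :=
  ∀ U : ℝ, ∃ C : ℝ, ∀ N : ℕ, 2 ≤ N → ∀ F : Finset ℕ, (∀ n ∈ F, 1 ≤ n ∧ n ≤ N ∧ B n) →
    (F.card : ℝ) ≤ C * (N : ℝ) / (Real.log N) ^ U

lemma cnt_lin {d : ℕ} {B : ℕ → Prop} (c : Fin (d + 1) → ℤ) (hc : c ≠ 0) : ∃ A : ℕ, 1 ≤ A ∧
    ∀ N : ℕ, 1 ≤ N → ∀ T : ℝ, (∀ F : Finset ℕ, (∀ n ∈ F, 1 ≤ n ∧ n ≤ A * N ∧ B n) → (F.card : ℝ) ≤ T) →
      (cnt d (fun x => ∑ j, c j * x j ≠ 0 ∧ B (∑ j, c j * x j).natAbs) N : ℝ) ≤
        T * (2 * (3 ^ d * (N : ℝ) ^ d)) := by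
  classical
  obtain ⟨F, hFd⟩ : ∃ F : MvPolynomial (Fin (d + 1)) ℤ,
    F = ∑ j, MvPolynomial.C (c j) * MvPolynomial.X j := ⟨_, rfl⟩
  have hev : ∀ x : Fin (d + 1) → ℤ, MvPolynomial.eval x F = ∑ j, c j * x j := by
    intro x
    rw [hFd, map_sum]
    exact Finset.sum_congr rfl fun j _ => by rw [map_mul, MvPolynomial.eval_C, MvPolynomial.eval_X]
  have hdeg : F.totalDegree ≤ 1 := by
    rw [hFd]
    refine (MvPolynomial.totalDegree_finsetSum _ _).trans (Finset.sup_le fun j _ => ?_)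
    refine (MvPolynomial.totalDegree_mul _ _).trans ?_
    rw [MvPolynomial.totalDegree_C, MvPolynomial.totalDegree_X]
  have hnc : ∀ e, F ≠ MvPolynomial.C e := by
    intro e he
    apply hc
    have h0 : ∀ x : Fin (d + 1) → ℤ, ∑ j, c j * x j = e := by
      intro x
      rw [← hev x, he, MvPolynomial.eval_C]
    have h1 := h0 0
    simp only [Pi.zero_apply, mul_zero, Finset.sum_const_zero] at h1
    funext j
    have h2 := h0 (Pi.single j 1)
    rw [← h1] at h2
    simpa [Pi.single_apply] using h2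
  obtain ⟨A, hA1, hA⟩ := exists_bound F
  refine ⟨A, hA1, fun N hN T hT => ?_⟩
  have hAN : ∀ x : Fin (d + 1) → ℤ, (∀ j, |x j| ≤ N) → |∑ j, c j * x j| ≤ A * (N : ℤ) := by
    intro x hx
    rw [← hev x]
    refine (hA N hN x hx).trans ?_
    refine mul_le_mul_of_nonneg_left ?_ (by positivity)
    calc (N : ℤ) ^ F.totalDegree ≤ (N : ℤ) ^ 1 := pow_le_pow_right₀ (by exact_mod_cast hN) hdeg
      _ = N := pow_one _
  set S : Finset ℕ := (Finset.Icc 1 (A * N)).filter B with hS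
  have hSc : (S.card : ℝ) ≤ T := hT S fun n hn => by
    rw [hS, Finset.mem_filter, Finset.mem_Icc] at hn
    exact ⟨hn.1.1, hn.1.2, hn.2⟩
  have hsub : ((box d N).filter fun x => 1 ≤ x 0 ∧ (∑ j, c j * x j ≠ 0 ∧
      B (∑ j, c j * x j).natAbs)) ⊆ S.biUnion fun n =>
        ((box d N).filter fun x => MvPolynomial.eval x (F - MvPolynomial.C (n : ℤ)) = 0) ∪
        ((box d N).filter fun x => MvPolynomial.eval x (F - MvPolynomial.C (-(n : ℤ))) = 0) := by
    intro x hx
    rw [Finset.mem_filter] at hx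
    obtain ⟨hxb, _, hne, hB⟩ := hx
    rw [Finset.mem_biUnion]
    refine ⟨(∑ j, c j * x j).natAbs, ?_, ?_⟩
    · rw [hS, Finset.mem_filter, Finset.mem_Icc]
      refine ⟨⟨by omega, ?_⟩, hB⟩
      have h1 := hAN x (mem_box.1 hxb)
      have h3 : ((∑ j, c j * x j).natAbs : ℤ) ≤ ((A * N : ℕ) : ℤ) := by
        rw [Int.natCast_natAbs]
        push_cast
        exact h1
      exact_mod_cast h3
    · rw [Finset.mem_union, Finset.mem_filter, Finset.mem_filter, map_sub, map_sub,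
        MvPolynomial.eval_C, MvPolynomial.eval_C, hev]
      rcases Int.natAbs_eq (∑ j, c j * x j) with h1 | h1
      · exact Or.inl ⟨hxb, by omega⟩
      · exact Or.inr ⟨hxb, by omega⟩
  have hz : ∀ e : ℤ, (((box d N).filter fun x => MvPolynomial.eval x (F - MvPolynomial.C e) = 0).card : ℝ) ≤
      3 ^ d * (N : ℝ) ^ d := by
    intro e
    have h1 := zeros_le (d := d) (F := F - MvPolynomial.C e) (sub_ne_zero.2 (hnc e)) hN
    have h2 : (F - MvPolynomial.C e).totalDegree ≤ 1 := by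
      refine (MvPolynomial.totalDegree_sub _ _).trans ?_
      rw [MvPolynomial.totalDegree_C]
      exact max_le hdeg (Nat.zero_le _)
    refine h1.trans ?_
    calc ((F - MvPolynomial.C e).totalDegree : ℝ) * (3 ^ d * (N : ℝ) ^ d)
        ≤ 1 * (3 ^ d * (N : ℝ) ^ d) := mul_le_mul_of_nonneg_right (by exact_mod_cast h2) (by positivity)
      _ = _ := one_mul _
  have h1 : (cnt d (fun x => ∑ j, c j * x j ≠ 0 ∧ B (∑ j, c j * x j).natAbs) N : ℝ) ≤
      S.card * (2 * (3 ^ d * (N : ℝ) ^ d)) := by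
    have h2 : cnt d (fun x => ∑ j, c j * x j ≠ 0 ∧ B (∑ j, c j * x j).natAbs) N ≤
        ∑ n ∈ S, (((box d N).filter fun x => MvPolynomial.eval x (F - MvPolynomial.C (n : ℤ)) = 0).card +
          ((box d N).filter fun x => MvPolynomial.eval x (F - MvPolynomial.C (-(n : ℤ))) = 0).card) := by
      refine le_trans ?_ ((Finset.card_le_card hsub).trans (Finset.card_biUnion_le.trans
        (Finset.sum_le_sum fun n _ => Finset.card_union_le _ _)))
      refine le_of_eq ?_
      unfold cnt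
      congr!
    have h3 : ((∑ n ∈ S, (((box d N).filter fun x => MvPolynomial.eval x (F - MvPolynomial.C (n : ℤ)) = 0).card +
          ((box d N).filter fun x => MvPolynomial.eval x (F - MvPolynomial.C (-(n : ℤ))) = 0).card) : ℕ) : ℝ) ≤
        ∑ n ∈ S, (2 * (3 ^ d * (N : ℝ) ^ d)) := by
      push_cast
      refine Finset.sum_le_sum fun n _ => ?_
      linarith [hz (n : ℤ), hz (-(n : ℤ))]
    rw [Finset.sum_const, nsmul_eq_mul] at h3
    exact (Nat.cast_le.2 h2).trans h3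
  exact h1.trans (mul_le_mul_of_nonneg_right hSc (by positivity))

/-- the quality of the approximation -/
noncomputable def rad (d A : ℕ) (q : ℕ) : ℝ :=
  (1 + Real.log q) ^ A * (q : ℝ) ^ (-(1 + 1 / (d : ℝ)))

theorem null_log {d A : ℕ} (hd : 1 ≤ d) {B : ℕ → Prop} (h : LogFew B) (c : Fin (d + 1) → ℤ) (hc : c ≠ 0) :
    volume {α : Fin d → ℝ | {x : Fin (d + 1) → ℤ | NearR α (rad d A) x ∧
      (∑ j, c j * x j ≠ 0 ∧ B (∑ j, c j * x j).natAbs)}.Infinite} = 0 := by
  have hd0 : (0 : ℝ) < d := by exact_mod_cast hd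
  have hvol : (μH[(d : ℝ)] : Measure (Fin d → ℝ)) = volume := by
    have := hausdorffMeasure_pi_real (ι := Fin d)
    rwa [Fintype.card_fin] at this
  rw [← hvol]
  set δ : ℝ := 1 + 1 / (d : ℝ) with hδ
  have hδ1 : 1 < δ := by
    rw [hδ]
    have : 0 < 1 / (d : ℝ) := by positivity
    linarith
  have hlog2 : Real.log 2 < 1 := by
    have := Real.log_two_lt_d9
    linarith
  have hlog2' : 0 < Real.log 2 := Real.log_pos (by norm_num)
  have hlogq : ∀ j q : ℕ, 2 ^ j ≤ q → q < 2 ^ (j + 1) → 1 + Real.log q ≤ j + 2 := by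
    intro j q h1 h2
    have hq0 : (0 : ℝ) < q := by
      have : 0 < q := lt_of_lt_of_le (by positivity) h1
      exact_mod_cast this
    have h3 : Real.log q ≤ (j + 1) * Real.log 2 := by
      have h4 : (q : ℝ) ≤ (2 : ℝ) ^ (j + 1) := by exact_mod_cast h2.le
      have h5 := Real.log_le_log hq0 h4
      rw [Real.log_pow] at h5
      push_cast at h5
      exact h5
    nlinarith [Nat.cast_nonneg (α := ℝ) j]
  have hlq0 : ∀ q : ℕ, 1 ≤ q → 0 ≤ 1 + Real.log q := fun q hq => by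
    have := Real.log_nonneg (show (1 : ℝ) ≤ q by exact_mod_cast hq)
    linarith
  refine base (B := fun x => ∑ j, c j * x j ≠ 0 ∧ B (∑ j, c j * x j).natAbs) hd0 (rad d A) ((A + 2) ^ A) ?_
    (fun j => ((j : ℝ) + 2) ^ A * ((2 : ℝ) ^ j) ^ (-δ)) (fun j => by positivity) ?_ ?_
  · intro q hq
    have hq1 : (1 : ℝ) ≤ q := by exact_mod_cast hq
    have hq0 : (0 : ℝ) < q := by linarith
    have hA1 : (0 : ℝ) < (A : ℝ) + 1 := by positivity
    have h1 : Real.log q ≤ (A + 1) * (q : ℝ) ^ (1 / ((A : ℝ) + 1)) := by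
      have := Real.log_le_rpow_div hq0.le (show (0 : ℝ) < 1 / ((A : ℝ) + 1) by positivity)
      refine this.trans (le_of_eq ?_)
      field_simp
    have h2 : 1 + Real.log q ≤ (A + 2) * (q : ℝ) ^ (1 / ((A : ℝ) + 1)) := by
      have h3 : (1 : ℝ) ≤ (q : ℝ) ^ (1 / ((A : ℝ) + 1)) := Real.one_le_rpow hq1 (by positivity)
      linarith
    have h3 : (1 + Real.log q) ^ A ≤ (A + 2) ^ A * (q : ℝ) ^ δ := by
      refine (pow_le_pow_left₀ (hlq0 q hq) h2 A).trans ?_
      rw [mul_pow]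
      refine mul_le_mul_of_nonneg_left ?_ (by positivity)
      rw [← Real.rpow_natCast, ← Real.rpow_mul hq0.le]
      refine Real.rpow_le_rpow_of_exponent_le hq1 ?_
      have h4 : 1 / ((A : ℝ) + 1) * A ≤ 1 := by
        rw [one_div, inv_mul_le_iff₀ hA1]
        linarith
      linarith
    unfold rad
    rw [← hδ, Real.rpow_neg hq0.le]
    have h5 : 0 < (q : ℝ) ^ δ := by positivity
    rw [← div_eq_mul_inv, div_le_iff₀ h5]
    push_cast
    exact h3
  · intro j q h1 h2
    have hq1 : 1 ≤ q := le_trans Nat.one_le_two_pow h1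
    unfold rad
    rw [← hδ]
    refine mul_le_mul (pow_le_pow_left₀ (hlq0 q hq1) (hlogq j q h1 h2) A) ?_ (by positivity) (by positivity)
    refine Real.rpow_le_rpow_of_nonpos (by positivity) (by exact_mod_cast h1) (by linarith)
  · intro K hK
    obtain ⟨A₀, hA₀, hlin⟩ := cnt_lin (B := B) c hc
    obtain ⟨C, hC⟩ := h ((A * d + 2 : ℕ) : ℝ)
    have hK1 : (1 : ℝ) ≤ K := by exact_mod_cast hK
    set M : ℝ := |C| * A₀ * (2 * 3 ^ d) * (K * 2) ^ (d + 1) * (1 / Real.log 2 ^ (A * d + 2)) * 2 ^ (A * d) with hM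
    have hsum : Summable fun j : ℕ => M * (1 / ((j : ℝ) + 1) ^ 2) := by
      refine Summable.mul_left _ ?_
      have := (summable_nat_add_iff 1).2 (Real.summable_one_div_nat_pow.2 (show 1 < 2 by norm_num))
      refine this.congr fun j => ?_
      push_cast
      rfl
    refine Summable.of_nonneg_of_le (fun j => by positivity) (fun j => ?_) hsum
    set N : ℕ := K * 2 ^ (j + 1) with hN
    have hN2 : 2 ^ (j + 1) ≤ N := Nat.le_mul_of_pos_left _ (by omega)
    have hN2' : 2 ≤ N := le_trans (by rw [pow_succ]; have := Nat.one_le_two_pow (n := j); omega) hN2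
    have hAN : 2 ≤ A₀ * N := le_trans hN2' (Nat.le_mul_of_pos_left _ (by omega))
    have hlogN : ((j : ℝ) + 1) * Real.log 2 ≤ Real.log ((A₀ * N : ℕ) : ℝ) := by
      have h1 : ((2 : ℝ) ^ (j + 1)) ≤ ((A₀ * N : ℕ) : ℝ) := by
        have : 2 ^ (j + 1) ≤ A₀ * N := hN2.trans (Nat.le_mul_of_pos_left _ (by omega))
        exact_mod_cast this
      have h2 := Real.log_le_log (by positivity) h1
      rw [Real.log_pow] at h2
      push_cast at h2 ⊢
      exact h2
    have hj1 : 0 < ((j : ℝ) + 1) * Real.log 2 := by positivity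
    have hT : ∀ F : Finset ℕ, (∀ n ∈ F, 1 ≤ n ∧ n ≤ A₀ * N ∧ B n) →
        (F.card : ℝ) ≤ |C| * (A₀ * N) / (((j : ℝ) + 1) * Real.log 2) ^ (A * d + 2) := by
      intro F hF
      refine (hC _ hAN F hF).trans ?_
      rw [Real.rpow_natCast]
      push_cast
      have h1 : C * ((A₀ : ℝ) * N) ≤ |C| * ((A₀ : ℝ) * N) :=
        mul_le_mul_of_nonneg_right (le_abs_self C) (by positivity)
      refine div_le_div₀ (by positivity) h1 (by positivity) ?_
      have h2 := hlogN
      push_cast at h2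
      exact pow_le_pow_left₀ hj1.le h2 _
    have h1 := hlin N (by omega) _ hT
    have e1 : (((j : ℝ) + 2) ^ A * ((2 : ℝ) ^ j) ^ (-δ)) ^ (d : ℝ) =
        ((j : ℝ) + 2) ^ (A * d) * (((2 : ℝ) ^ j) ^ (d + 1))⁻¹ := by
      rw [Real.mul_rpow (by positivity) (by positivity), Real.rpow_natCast, ← pow_mul,
        ← Real.rpow_mul (by positivity)]
      congr 1
      have e2 : -δ * (d : ℝ) = -((d + 1 : ℕ) : ℝ) := by
        rw [hδ]
        push_cast
        field_simp
      rw [e2, Real.rpow_neg (by positivity), Real.rpow_natCast]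
    have h3 : ((j : ℝ) + 2) ^ (A * d) ≤ 2 ^ (A * d) * ((j : ℝ) + 1) ^ (A * d) := by
      rw [← mul_pow]
      exact pow_le_pow_left₀ (by positivity) (by linarith [Nat.cast_nonneg (α := ℝ) j]) _
    calc (cnt d (fun x => ∑ j, c j * x j ≠ 0 ∧ B (∑ j, c j * x j).natAbs) N : ℝ) *
          (((j : ℝ) + 2) ^ A * ((2 : ℝ) ^ j) ^ (-δ)) ^ (d : ℝ)
        ≤ (|C| * (A₀ * N) / (((j : ℝ) + 1) * Real.log 2) ^ (A * d + 2) * (2 * (3 ^ d * (N : ℝ) ^ d))) *
          ((2 ^ (A * d) * ((j : ℝ) + 1) ^ (A * d)) * (((2 : ℝ) ^ j) ^ (d + 1))⁻¹) := by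
          rw [e1]
          exact mul_le_mul h1 (mul_le_mul_of_nonneg_right h3 (by positivity)) (by positivity)
            (by positivity)
      _ = M * (1 / ((j : ℝ) + 1) ^ 2) := by
          rw [hM, hN]
          push_cast
          rw [mul_pow (((j : ℝ) + 1)), pow_add ((j : ℝ) + 1) (A * d) 2]
          have hj : ((j : ℝ) + 1) ≠ 0 := by positivity
          have hl : Real.log 2 ≠ 0 := hlog2'.ne'
          field_simp
          ring

/-- The property `P` of positive integers holds at the rational approximations of the quality of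
Dirichlet's theorem, up to powers of logarithms, of almost all real points. -/
structure AtDirichletApproximations (P : ℕ → Prop) : Prop where
  /-- for almost every `α` in `ℝ ^ d`, `d ≥ 1`, for all `A` and all nonzero integer vectors `c`, for all but
  finitely many integer vectors `x` with `x 0 ≥ 1` and
  `|α j - x j / x 0| ≤ (1 + log (x 0)) ^ A (x 0) ^ (-(1 + 1 / d))` for every `j`, the integer `|∑ c j x j|`
  has the property `P` or is zero -/
  points : ∀ d : ℕ, 1 ≤ d → ∀ᵐ α : Fin d → ℝ, ∀ (A : ℕ) (c : Fin (d + 1) → ℤ), c ≠ 0 →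
    {x : Fin (d + 1) → ℤ | (1 ≤ x 0 ∧ ∀ j : Fin d, |α j - (x j.succ : ℝ) / (x 0 : ℝ)| ≤
      (1 + Real.log (x 0)) ^ A * (x 0 : ℝ) ^ (-(1 + 1 / (d : ℝ)))) ∧ ∑ j, c j * x j ≠ 0 ∧
      ¬ P (∑ j, c j * x j).natAbs}.Finite
  /-- for almost every real number `α`, for all integers `u` and `v` which are not both zero, all but
  finitely many convergents `p / q` of the continued fraction of `α` have a `|u p + v q|` with the property
  `P` -/
  convergents : ∀ᵐ α : ℝ, ∀ u v : ℤ, (u ≠ 0 ∨ v ≠ 0) → ∀ᶠ n in atTop,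
    P (u * (α.convergent n).num + v * (α.convergent n).den).natAbs

theorem atLog_of {P B : ℕ → Prop} (h : LogFew B) (hB : ∀ n, ¬ P n → B n) :
    AtDirichletApproximations P := by
  have hpt : ∀ d : ℕ, 1 ≤ d → ∀ᵐ α : Fin d → ℝ, ∀ (A : ℕ) (c : Fin (d + 1) → ℤ), c ≠ 0 →
      {x : Fin (d + 1) → ℤ | (1 ≤ x 0 ∧ ∀ j : Fin d, |α j - (x j.succ : ℝ) / (x 0 : ℝ)| ≤
        (1 + Real.log (x 0)) ^ A * (x 0 : ℝ) ^ (-(1 + 1 / (d : ℝ)))) ∧ ∑ j, c j * x j ≠ 0 ∧
        ¬ P (∑ j, c j * x j).natAbs}.Finite := by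
    intro d hd
    rw [ae_all_iff]
    intro A
    have h1 : ∀ᵐ α : Fin d → ℝ, ∀ c : {c : Fin (d + 1) → ℤ // c ≠ 0},
        {x : Fin (d + 1) → ℤ | NearR α (rad d A) x ∧
          (∑ j, c.1 j * x j ≠ 0 ∧ B (∑ j, c.1 j * x j).natAbs)}.Finite := by
      rw [ae_all_iff]
      intro c
      rw [ae_iff]
      exact null_log hd h c.1 c.2
    refine h1.mono fun α hα c hc => (hα ⟨c, hc⟩).subset ?_
    rintro x ⟨⟨hx0, hx⟩, hne, hP⟩
    refine ⟨⟨hx0, fun j => (hx j).trans (le_of_eq ?_)⟩, hne, hB _ hP⟩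
    have e : (((x 0).toNat : ℕ) : ℝ) = (x 0 : ℝ) := by
      have : (((x 0).toNat : ℤ) : ℝ) = (x 0 : ℝ) := by rw [Int.toNat_of_nonneg (by omega)]
      exact_mod_cast this
    unfold rad
    rw [e]
  refine ⟨hpt, ?_⟩
  have h1 := hpt 1 le_rfl
  have h2 : ∀ᵐ α : ℝ, Irrational α := by
    have : volume (Set.range ((↑) : ℚ → ℝ)) = 0 := (Set.countable_range _).measure_zero _
    rw [ae_iff]
    refine measure_mono_null (fun a ha => ?_) this
    exact not_not.1 ha
  have h3 : ∀ᵐ α : ℝ, ∀ (c : Fin (1 + 1) → ℤ), c ≠ 0 →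
      {x : Fin (1 + 1) → ℤ | (1 ≤ x 0 ∧ ∀ j : Fin 1, |α - (x j.succ : ℝ) / (x 0 : ℝ)| ≤
        (1 + Real.log (x 0)) ^ 0 * (x 0 : ℝ) ^ (-(1 + 1 / ((1 : ℕ) : ℝ)))) ∧ ∑ j, c j * x j ≠ 0 ∧
        ¬ P (∑ j, c j * x j).natAbs}.Finite := by
    have hmp : MeasurePreserving (MeasurableEquiv.funUnique (Fin 1) ℝ) :=
      volume_preserving_funUnique (Fin 1) ℝ
    have h4 := hmp.symm.quasiMeasurePreserving.ae h1
    refine h4.mono fun α hα c hc => ?_
    have h5 := hα 0 c hc
    exact h5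
  filter_upwards [h2, h3] with α hirr hα u v huv
  have h4 := hα ![v, u] (by
    intro h0
    have e1 := congrFun h0 0
    have e2 := congrFun h0 1
    simp at e1 e2
    tauto)
  have h5 : {r : ℚ | |α - r| ≤ 1 / (r.den : ℝ) ^ 2 ∧ u * r.num + v * (r.den : ℤ) ≠ 0 ∧
      ¬ P (u * r.num + v * (r.den : ℤ)).natAbs}.Finite := by
    refine Set.Finite.of_finite_image (f := fun r : ℚ => (![(r.den : ℤ), r.num] : Fin (1 + 1) → ℤ)) (h4.subset ?_) ?_
    · rintro _ ⟨r, ⟨hr1, hr2, hr3⟩, rfl⟩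
      have hden1 : (1 : ℤ) ≤ (r.den : ℤ) := by exact_mod_cast r.den_pos
      have hsum : ∑ j, (![v, u] : Fin (1 + 1) → ℤ) j * (![(r.den : ℤ), r.num] : Fin (1 + 1) → ℤ) j =
          u * r.num + v * (r.den : ℤ) := by
        rw [Fin.sum_univ_two]
        simp only [Matrix.cons_val_zero, Matrix.cons_val_one]
        ring
      refine ⟨⟨by simpa using hden1, fun j => ?_⟩, by rw [hsum]; exact hr2, by rw [hsum]; exact hr3⟩
      have hj : j = 0 := Subsingleton.elim _ _
      subst hj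
      have e : (((![(r.den : ℤ), r.num] : Fin (1 + 1) → ℤ) (Fin.succ 0) : ℤ) : ℝ) /
          (((![(r.den : ℤ), r.num] : Fin (1 + 1) → ℤ) 0 : ℤ) : ℝ) = (r : ℝ) := by
        have := Rat.num_div_den r
        have h3 : (((r.num : ℚ) / (r.den : ℚ) : ℚ) : ℝ) = (r : ℝ) := by rw [this]
        rw [← h3]
        push_cast
        rfl
      have e2 : ((((![(r.den : ℤ), r.num] : Fin (1 + 1) → ℤ) 0 : ℤ)) : ℝ) ^ (-(1 + 1 / ((1 : ℕ) : ℝ))) =
          1 / (r.den : ℝ) ^ 2 := by
        have e3 : (-(1 + 1 / ((1 : ℕ) : ℝ)) : ℝ) = -((2 : ℕ) : ℝ) := by norm_num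
        rw [e3, Real.rpow_neg (by simp), Real.rpow_natCast, one_div]
        simp
      rw [e, e2, pow_zero, one_mul]
      exact hr1
    · intro r _ r' _ hrr
      have e1 := congrFun hrr 0
      have e2 := congrFun hrr 1
      simp at e1 e2
      exact Rat.ext e2 e1
  have h6 : {r : ℚ | u * r.num + v * (r.den : ℤ) = 0}.Finite := by
    refine Set.Finite.subset (Set.finite_singleton (-(v : ℚ) / u)) ?_
    intro r hr
    have hr' : u * r.num + v * (r.den : ℤ) = 0 := hr
    have hu : u ≠ 0 := by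
      rintro rfl
      have hv : v ≠ 0 := by tauto
      have h3 : (r.den : ℤ) ≠ 0 := by exact_mod_cast r.den_nz
      rw [zero_mul, zero_add] at hr'
      exact (mul_ne_zero hv h3) hr'
    rw [Set.mem_singleton_iff]
    have h4 : (u : ℚ) * r.num + v * r.den = 0 := by exact_mod_cast hr'
    have h5 : (u : ℚ) ≠ 0 := by exact_mod_cast hu
    have h6 : (r.den : ℚ) ≠ 0 := by exact_mod_cast r.den_nz
    have h7 := Rat.num_div_den r
    rw [← h7, div_eq_div_iff h6 h5]
    linarith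
  filter_upwards [eventually_convergent hirr h5, eventually_convergent hirr h6] with n hn hn2
  by_contra hP
  exact hn ⟨near_convergent hirr n, hn2, hP⟩

end Pool.Agent.Q44.CF
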