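import Mathlib

set_option autoImplicit false

/-! The convergents of the continued fraction of an irrational number are good approximations and
each rational number is only finitely many of them. -/

namespace Pool.Agent.Q44.CF

open GenContFract Filter Topology

lemma int_contsAux (v : ℝ) (n : ℕ) :
    ∃ a b : ℤ, (GenContFract.of v).contsAux n = ⟨(a : ℝ), (b : ℝ)⟩ := by
  induction n using Nat.strong_induction_on with
  | _ n IH =>
    rcases n with (_ | _ | n)
    · exact ⟨1, 0, by simp [contsAux]⟩
    · exact ⟨⌊v⌋, 1, by simp [contsAux]⟩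
    · obtain ⟨a, b, hab⟩ := IH (n + 1) (by omega)
      rcases h : (GenContFract.of v).s.get? n with _ | gp
      · refine ⟨a, b, ?_⟩
        have h1 : (GenContFract.of v).contsAux (n + 2) = (GenContFract.of v).contsAux (n + 1) :=
          contsAux_stable_of_terminated (n + 1).le_succ h
        rw [h1, hab]
      · obtain ⟨a', b', hab'⟩ := IH n (by omega)
        obtain ⟨h1, z, hz⟩ := of_partNum_eq_one_and_exists_int_partDen_eq h
        refine ⟨z * a + a', z * b + b', ?_⟩
        have h2 := contsAux_recurrence h hab' hab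
        rw [h2, h1, hz]
        push_cast
        simp

theorem near_convergent {ξ : ℝ} (hξ : Irrational ξ) (n : ℕ) :
    |ξ - (ξ.convergent n : ℝ)| ≤ 1 / ((ξ.convergent n).den : ℝ) ^ 2 := by
  have hnt : ∀ m, ¬ (GenContFract.of ξ).TerminatedAt m := by
    intro m hm
    have h1 : (GenContFract.of ξ).Terminates := ⟨m, hm⟩
    obtain ⟨q, hq⟩ := (terminates_iff_rat ξ).1 h1
    exact hξ ⟨q, hq.symm⟩
  have h1 := abs_sub_convs_le (hnt n)
  obtain ⟨a, b, hab⟩ := int_contsAux ξ (n + 1)
  have hc : (GenContFract.of ξ).conts n = ⟨(a : ℝ), (b : ℝ)⟩ := by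
    rw [nth_cont_eq_succ_nth_contAux]; exact hab
  have hnum : (GenContFract.of ξ).nums n = a := by simp [num_eq_conts_a, hc]
  have hden : (GenContFract.of ξ).dens n = b := by simp [den_eq_conts_b, hc]
  have hfib := succ_nth_fib_le_of_nth_den (v := ξ) (n := n) (by
    rcases n with _ | n
    · exact Or.inl rfl
    · exact Or.inr (hnt _))
  have hb1 : (1 : ℝ) ≤ b := by
    rw [hden] at hfib
    refine le_trans ?_ hfib
    have : 1 ≤ Nat.fib (n + 1) := Nat.fib_pos.2 (by omega)
    exact_mod_cast this
  have hb : (0 : ℤ) < b := by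
    have : (0 : ℝ) < b := by linarith
    exact_mod_cast this
  have hconv : (ξ.convergent n) = (a : ℚ) / (b : ℚ) := by
    have h2 : ((ξ.convergent n : ℚ) : ℝ) = ((a : ℚ) / (b : ℚ) : ℚ) := by
      rw [← Real.convs_eq_convergent, conv_eq_num_div_den, hnum, hden]
      push_cast
      rfl
    exact_mod_cast h2
  have hdvd : ((ξ.convergent n).den : ℤ) ∣ b := by
    rw [hconv]
    exact_mod_cast Rat.den_dvd a b
  have hle : ((ξ.convergent n).den : ℝ) ≤ b := by
    have := Int.le_of_dvd hb hdvd
    exact_mod_cast this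
  have hpos : (0 : ℝ) < ((ξ.convergent n).den : ℝ) := by
    exact_mod_cast (ξ.convergent n).den_pos
  rw [Real.convs_eq_convergent] at h1
  refine h1.trans ?_
  have h3 := of_den_mono (v := ξ) (n := n)
  rw [hden] at h3 ⊢
  rw [sq]
  refine one_div_le_one_div_of_le (by positivity) ?_
  exact mul_le_mul hle (hle.trans h3) hpos.le (by linarith)

theorem convergent_tendsto (ξ : ℝ) : Tendsto (fun n => (ξ.convergent n : ℝ)) atTop (𝓝 ξ) := by
  have h := GenContFract.of_convergence (K := ℝ) ξ
  refine h.congr fun n => ?_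
  rw [Real.convs_eq_convergent]

/-- a finite set of rational numbers contains only finitely many of the convergents -/
theorem eventually_convergent {ξ : ℝ} (hξ : Irrational ξ) {S : Set ℚ} (hS : S.Finite) :
    ∀ᶠ n in atTop, ξ.convergent n ∉ S := by
  have h1 : ∀ r ∈ S, ∀ᶠ n in atTop, ξ.convergent n ≠ r := by
    intro r _
    have h2 : ∀ᶠ n in atTop, (ξ.convergent n : ℝ) ≠ (r : ℝ) :=
      (convergent_tendsto ξ).eventually_ne (fun h => hξ ⟨r, h.symm⟩)
    exact h2.mono fun n hn hcon => hn (by rw [hcon])
  have h3 := (hS.eventually_all).2 h1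
  exact h3.mono fun n hn hcon => hn _ hcon rfl

end Pool.Agent.Q44.CF
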