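import Pool.Agent.Q44.CF
import Pool.Agent.Q44.Conv

set_option autoImplicit false

/-! A property of positive integers with few exceptions holds at the denominators and numerators of
the good rational approximations of all real points outside a set of small Hausdorff dimension, in
particular at all but finitely many convergents of the continued fraction. -/

namespace Pool.Agent.Q44.CF

open MeasureTheory Filter Set ENNReal Topology Metric

lemma dimH_line {A : Set ℝ} {B : Set (Fin 1 → ℝ)} (h : ∀ a ∈ A, (fun _ => a) ∈ B) :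
    dimH A ≤ dimH B := by
  have hiso : Isometry (fun a : ℝ => (fun _ : Fin 1 => a)) := by
    intro x y
    simp [edist_pi_def]
  rw [← hiso.dimH_image A]
  exact dimH_mono (by rintro _ ⟨a, ha, rfl⟩; exact h a ha)

lemma ae_of_dim {A : Set ℝ} {c : ℝ} (hc : c < 1) (h : dimH A ≤ ENNReal.ofReal c) :
    ∀ᵐ α : ℝ, α ∉ A := by
  have h1 : dimH A < ((1 : NNReal) : ℝ≥0∞) := by
    refine lt_of_le_of_lt h ?_
    rw [ENNReal.coe_one, ENNReal.ofReal_lt_one]
    exact hc
  have h2 := hausdorffMeasure_of_dimH_lt h1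
  rw [NNReal.coe_one, hausdorffMeasure_real] at h2
  rw [ae_iff]
  simpa using h2

lemma countable_poly (m : ℕ) : Countable (MvPolynomial (Fin m) ℤ) := by
  have h := MvPolynomial.cardinalMk_le_max (σ := Fin m) (R := ℤ)
  rw [← Cardinal.mk_le_aleph0_iff]
  refine h.trans ?_
  simp

/-- for every countable family of vector properties with few exceptions, in dimension one, the
exceptional real numbers -/
theorem line_of_few {ι : Type*} [Countable ι] {B : ι → (Fin (1 + 1) → ℤ) → Prop} {θ τ : ℝ}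
    (hτ : 0 < τ) (h0 : 0 ≤ θ) (h : ∀ i, Few 1 θ (B i)) :
    dimH {α : ℝ | ¬ ∀ i, {p : ℤ × ℤ | (1 ≤ p.2 ∧ |α - p.1 / p.2| ≤ (p.2 : ℝ) ^ (-τ)) ∧
      B i ![p.2, p.1]}.Finite} ≤ ENNReal.ofReal (θ / τ) := by
  refine le_trans (dimH_line fun a ha => ?_) (dim_of_few (τ := τ) hτ h0 h)
  intro hcon
  refine ha fun i => ?_
  have h1 := hcon i
  refine Set.Finite.of_finite_image (f := fun p : ℤ × ℤ => (![p.2, p.1] : Fin (1 + 1) → ℤ)) (h1.subset ?_) ?_
  · rintro _ ⟨p, ⟨⟨hp1, hp2⟩, hp3⟩, rfl⟩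
    refine ⟨⟨by simpa using hp1, fun j => ?_⟩, hp3⟩
    have : j = 0 := Subsingleton.elim _ _
    subst this
    simpa using hp2
  · rintro ⟨a1, b1⟩ _ ⟨a2, b2⟩ _ hab
    have e1 := congrFun hab 0
    have e2 := congrFun hab 1
    simp at e1 e2
    rw [e1, e2]

/-- dimension one, convergents -/
theorem convergents_of_few {ι : Type*} [Countable ι] {B : ι → (Fin (1 + 1) → ℤ) → Prop} {θ : ℝ}
    (h0 : 0 ≤ θ) (h : ∀ i, Few 1 θ (B i)) :
    dimH {α : ℝ | Irrational α ∧ ¬ ∀ i, ∀ᶠ n in atTop,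
      ¬ B i ![((α.convergent n).den : ℤ), (α.convergent n).num]} ≤ ENNReal.ofReal (θ / 2) := by
  refine le_trans (dimH_mono ?_) (line_of_few (τ := 2) two_pos h0 h)
  rintro α ⟨hirr, hα⟩ hcon
  refine hα fun i => ?_
  have h1 := hcon i
  have h2 : {r : ℚ | |α - r| ≤ 1 / (r.den : ℝ) ^ 2 ∧ B i ![(r.den : ℤ), r.num]}.Finite := by
    refine Set.Finite.of_finite_image (f := fun r : ℚ => ((r.num, (r.den : ℤ)) : ℤ × ℤ)) (h1.subset ?_) ?_
    · rintro _ ⟨r, ⟨hr1, hr2⟩, rfl⟩
      have hden : 1 ≤ r.den := r.den_pos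
      have hden' : (1 : ℤ) ≤ (r.den : ℤ) := by exact_mod_cast hden
      refine ⟨⟨hden', ?_⟩, hr2⟩
      have e : ((r.num : ℤ) : ℝ) / (((r.den : ℤ)) : ℝ) = (r : ℝ) := by
        have := Rat.num_div_den r
        have h3 : (((r.num : ℚ) / (r.den : ℚ) : ℚ) : ℝ) = (r : ℝ) := by rw [this]
        rw [← h3]
        push_cast
        rfl
      have e2 : ((((r.den : ℤ)) : ℝ)) ^ (-2 : ℝ) = 1 / (r.den : ℝ) ^ 2 := by
        rw [Real.rpow_neg (by positivity), one_div]
        congr 1
        push_cast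
        exact_mod_cast Real.rpow_natCast (r.den : ℝ) 2
      show |α - ((r.num : ℤ) : ℝ) / (((r.den : ℤ)) : ℝ)| ≤ ((((r.den : ℤ)) : ℝ)) ^ (-2 : ℝ)
      rw [e, e2]
      exact hr1
    · intro r _ r' _ hrr
      simp only [Prod.mk.injEq] at hrr
      exact Rat.ext hrr.1 (by exact_mod_cast hrr.2)
  refine (eventually_convergent hirr h2).mono fun n hn hB => hn ⟨near_convergent hirr n, hB⟩

open Pool.Agent.Q21.DW

/-- The property `P` of positive integers holds at good rational approximations, with the exponent `s`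
of the exceptions. -/
structure AtApproximations (s : ℝ) (P : ℕ → Prop) : Prop where
  /-- points of `ℝ ^ d`, values of polynomials of degree at most `k`: outside a set of points `α` of
  Hausdorff dimension at most `(d + k s) / τ`, for every nonconstant integer polynomial `F` of degree at
  most `k` in `d + 1` variables and all but finitely many integer vectors `x` with `x 0 ≥ 1` and
  `|α j - x j / x 0| ≤ x 0 ^ (-τ)` for every `j`, the integer `|F x|` has the property `P` or is zero -/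
  points : ∀ (d k : ℕ) (τ : ℝ), 0 < τ →
    dimH {α : Fin d → ℝ | ¬ ∀ F : MvPolynomial (Fin (d + 1)) ℤ, (∀ c, F ≠ MvPolynomial.C c) →
      F.totalDegree ≤ k → {x : Fin (d + 1) → ℤ | Near α τ x ∧ MvPolynomial.eval x F ≠ 0 ∧
        ¬ P (MvPolynomial.eval x F).natAbs}.Finite} ≤ ENNReal.ofReal ((d + k * s) / τ)
  /-- the same for almost all points, if `(d + k s) / τ < d` -/
  almost_all_points : ∀ (d k : ℕ) (τ : ℝ), 1 ≤ d → 0 < τ → d + k * s < τ * d →
    ∀ᵐ α : Fin d → ℝ, ∀ F : MvPolynomial (Fin (d + 1)) ℤ, (∀ c, F ≠ MvPolynomial.C c) →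
      F.totalDegree ≤ k → {x : Fin (d + 1) → ℤ | Near α τ x ∧ MvPolynomial.eval x F ≠ 0 ∧
        ¬ P (MvPolynomial.eval x F).natAbs}.Finite
  /-- the real numbers `α` with infinitely many integers `p`, `q ≥ 1`, `|α - p / q| ≤ q ^ (-τ)` such that
  the nonzero integer `|u p + v q|` fails to have the property `P`, for some integers `u` and `v`, form a
  set of Hausdorff dimension at most `(1 + s) / τ` -/
  line : ∀ τ : ℝ, 0 < τ → dimH {α : ℝ | ¬ ∀ u v : ℤ, (u ≠ 0 ∨ v ≠ 0) →
    {p : ℤ × ℤ | (1 ≤ p.2 ∧ |α - p.1 / p.2| ≤ (p.2 : ℝ) ^ (-τ)) ∧ u * p.1 + v * p.2 ≠ 0 ∧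
      ¬ P (u * p.1 + v * p.2).natAbs}.Finite} ≤ ENNReal.ofReal ((1 + s) / τ)
  /-- the irrational numbers for which, for some integers `u` and `v`, infinitely many convergents `p / q`
  of the continued fraction have a `|u p + v q|` without the property `P` form a set of Hausdorff
  dimension at most `(1 + s) / 2` -/
  convergents : dimH {α : ℝ | Irrational α ∧ ¬ ∀ u v : ℤ, (u ≠ 0 ∨ v ≠ 0) → ∀ᶠ n in atTop,
    P (u * (α.convergent n).num + v * (α.convergent n).den).natAbs} ≤ ENNReal.ofReal ((1 + s) / 2)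
  /-- for almost every real number `α`, for all integers `u` and `v` which are not both zero, all but
  finitely many convergents `p / q` of the continued fraction of `α` have a `|u p + v q|` with the property
  `P` -/
  almost_all_convergents : s < 1 → ∀ᵐ α : ℝ, ∀ u v : ℤ, (u ≠ 0 ∨ v ≠ 0) → ∀ᶠ n in atTop,
    P (u * (α.convergent n).num + v * (α.convergent n).den).natAbs

lemma few_lin {s : ℝ} {B : ℕ → Prop} (h : PS s B) (u v : ℤ) (huv : u ≠ 0 ∨ v ≠ 0) :
    Few 1 (1 + s) (fun x => u * x 1 + v * x 0 ≠ 0 ∧ B (u * x 1 + v * x 0).natAbs) := by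
  have h1 := few_poly (d := 1) (k := 1) h
    (MvPolynomial.C u * MvPolynomial.X 1 + MvPolynomial.C v * MvPolynomial.X 0) ?_ ?_
  · simp only [map_add, map_mul, MvPolynomial.eval_C, MvPolynomial.eval_X, Nat.cast_one, one_mul] at h1
    exact h1
  · intro c hc
    have e1 := congrArg (MvPolynomial.eval (fun _ : Fin 2 => (0 : ℤ))) hc
    have e2 := congrArg (MvPolynomial.eval (![(1 : ℤ), 0] : Fin 2 → ℤ)) hc
    have e3 := congrArg (MvPolynomial.eval (![(0 : ℤ), 1] : Fin 2 → ℤ)) hc
    simp at e1 e2 e3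
    omega
  · refine (MvPolynomial.totalDegree_add _ _).trans (max_le ?_ ?_)
    · refine (MvPolynomial.totalDegree_mul _ _).trans ?_
      rw [MvPolynomial.totalDegree_C, MvPolynomial.totalDegree_X]
    · refine (MvPolynomial.totalDegree_mul _ _).trans ?_
      rw [MvPolynomial.totalDegree_C, MvPolynomial.totalDegree_X]

theorem at_of_ps {s : ℝ} (hs : 0 ≤ s) {P : ℕ → Prop} (h : PS s (fun n => ¬ P n)) :
    AtApproximations s P := by
  have hline : ∀ p : {p : ℤ × ℤ // p.1 ≠ 0 ∨ p.2 ≠ 0}, Few 1 (1 + s)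
      (fun x => p.1.1 * x 1 + p.1.2 * x 0 ≠ 0 ∧ ¬ P (p.1.1 * x 1 + p.1.2 * x 0).natAbs) :=
    fun p => few_lin h p.1.1 p.1.2 p.2
  have hconv : dimH {α : ℝ | Irrational α ∧ ¬ ∀ u v : ℤ, (u ≠ 0 ∨ v ≠ 0) → ∀ᶠ n in atTop,
      P (u * (α.convergent n).num + v * (α.convergent n).den).natAbs} ≤
        ENNReal.ofReal ((1 + s) / 2) := by
    refine le_trans (dimH_mono ?_) (convergents_of_few (by linarith) hline)
    rintro α ⟨hirr, hα⟩
    refine ⟨hirr, fun hcon => hα fun u v huv => ?_⟩
    have h1 := hcon ⟨(u, v), huv⟩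
    have h2 : {r : ℚ | u * r.num + v * (r.den : ℤ) = 0}.Finite := by
      refine Set.Finite.subset (Set.finite_singleton (-(v : ℚ) / u)) ?_
      intro r hr
      have hr' : u * r.num + v * (r.den : ℤ) = 0 := hr
      have hu : u ≠ 0 := by
        rintro rfl
        have hv : v ≠ 0 := by tauto
        have h3 : (r.den : ℤ) ≠ 0 := by exact_mod_cast r.den_nz
        rw [zero_mul, zero_add] at hr'
        exact (mul_ne_zero hv h3) hr'
      rw [Set.mem_singleton_iff]
      have h4 : (u : ℚ) * r.num + v * r.den = 0 := by exact_mod_cast hr'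
      have h5 : (u : ℚ) ≠ 0 := by exact_mod_cast hu
      have h6 : (r.den : ℚ) ≠ 0 := by exact_mod_cast r.den_nz
      have h7 := Rat.num_div_den r
      rw [← h7, div_eq_div_iff h6 h5]
      linarith
    filter_upwards [h1, eventually_convergent hirr h2] with n hn hn2
    by_contra hP
    refine hn ⟨?_, ?_⟩
    · simpa using hn2
    · simpa using hP
  refine ⟨?_, ?_, ?_, hconv, ?_⟩
  · intro d k τ hτ
    have hc := countable_poly (d + 1)
    refine le_trans (dimH_mono ?_) (dim_of_few (ι := {F : MvPolynomial (Fin (d + 1)) ℤ //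
      (∀ c, F ≠ MvPolynomial.C c) ∧ F.totalDegree ≤ k}) hτ (by positivity)
      (fun F => few_poly h F.1 F.2.1 F.2.2))
    intro α hα hcon
    exact hα fun F h1 h2 => hcon ⟨F, h1, h2⟩
  · intro d k τ hd hτ hθ
    have hc := countable_poly (d + 1)
    have h1 := ae_of_few (ι := {F : MvPolynomial (Fin (d + 1)) ℤ //
      (∀ c, F ≠ MvPolynomial.C c) ∧ F.totalDegree ≤ k}) hd hτ hθ
      (fun F => few_poly h F.1 F.2.1 F.2.2)
    exact h1.mono fun α hα F h2 h3 => hα ⟨F, h2, h3⟩
  · intro τ hτ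
    refine le_trans (dimH_mono ?_) (line_of_few hτ (by linarith) hline)
    intro α hα hcon
    refine hα fun u v huv => ?_
    have h1 := hcon ⟨(u, v), huv⟩
    simpa using h1
  · intro hs1
    have h1 := ae_of_dim (by linarith) hconv
    have h2 : ∀ᵐ α : ℝ, Irrational α := by
      have : volume (Set.range ((↑) : ℚ → ℝ)) = 0 := (Set.countable_range _).measure_zero _
      rw [ae_iff]
      refine measure_mono_null (fun a ha => ?_) this
      exact not_not.1 ha
    filter_upwards [h1, h2] with α hα hirr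
    by_contra hcon
    exact hα ⟨hirr, hcon⟩

theorem at_of {s : ℝ} (hs : 0 ≤ s) {P B : ℕ → Prop} (h : PS s B) (hB : ∀ n, ¬ P n → B n) :
    AtApproximations s P :=
  at_of_ps hs (h.mono le_rfl hB)

end Pool.Agent.Q44.CF
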