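import Pool.Agent.Q44.CFBase
import Pool.Agent.Q21.DW.Cnt

set_option autoImplicit false

/-! Properties with few exceptions hold at the numerators and denominators of the good rational
approximations of all real points outside sets of small Hausdorff dimension. -/

namespace Pool.Agent.Q44.CF

open MeasureTheory Filter Set ENNReal Topology Metric

/-- the rational point `(x 1 / x 0, …, x d / x 0)`, `x 0 ≥ 1`, is within `x 0 ^ (-τ)` of `α` in every
coordinate -/
def Near {d : ℕ} (α : Fin d → ℝ) (τ : ℝ) (x : Fin (d + 1) → ℤ) : Prop :=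
  1 ≤ x 0 ∧ ∀ j : Fin d, |α j - (x j.succ : ℝ) / (x 0 : ℝ)| ≤ (x 0 : ℝ) ^ (-τ)

/-- for every `t > θ` at most `C N ^ t` of the integer vectors `x`, `x 0 ≥ 1`, with coordinates of
absolute value at most `N` satisfy `B` -/
def Few (d : ℕ) (θ : ℝ) (B : (Fin (d + 1) → ℤ) → Prop) : Prop :=
  ∀ t : ℝ, θ < t → ∃ C : ℝ, ∀ N : ℕ, 1 ≤ N → (cnt d B N : ℝ) ≤ C * (N : ℝ) ^ t

theorem null_of_few {d : ℕ} {B : (Fin (d + 1) → ℤ) → Prop} {θ τ s : ℝ} (hτ : 0 < τ)
    (hs0 : 0 < s) (hs : θ < τ * s) (h : Few d θ B) :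
    μH[s] {α : Fin d → ℝ | {x | Near α τ x ∧ B x}.Infinite} = 0 := by
  obtain ⟨t, ht1, ht2⟩ := exists_between hs
  obtain ⟨C, hC⟩ := h t ht1
  have hb := base (d := d) (B := B) hs0 (fun q => (q : ℝ) ^ (-τ)) 1 ?_
    (fun j => ((2 : ℝ) ^ j) ^ (-τ)) (fun j => by positivity) ?_ ?_
  · refine measure_mono_null ?_ hb
    intro α hα
    have hα' : {x | Near α τ x ∧ B x}.Infinite := hα
    refine hα'.mono ?_
    rintro x ⟨⟨hx0, hx⟩, hB⟩
    refine ⟨⟨hx0, fun j => (hx j).trans (le_of_eq ?_)⟩, hB⟩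
    have e : (((x 0).toNat : ℕ) : ℝ) = (x 0 : ℝ) := by
      have : (((x 0).toNat : ℤ) : ℝ) = (x 0 : ℝ) := by rw [Int.toNat_of_nonneg (by omega)]
      exact_mod_cast this
    show (x 0 : ℝ) ^ (-τ) = (((x 0).toNat : ℕ) : ℝ) ^ (-τ)
    rw [e]
  · intro q hq
    have hq1 : (1 : ℝ) ≤ q := by exact_mod_cast hq
    show (q : ℝ) ^ (-τ) ≤ ((1 : ℕ) : ℝ)
    push_cast
    exact Real.rpow_le_one_of_one_le_of_nonpos hq1 (by linarith)
  · intro j q h1 _
    have h2 : ((2 : ℝ) ^ j) ≤ q := by exact_mod_cast h1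
    show (q : ℝ) ^ (-τ) ≤ _
    exact Real.rpow_le_rpow_of_nonpos (by positivity) h2 (by linarith)
  · intro K hK
    have hK1 : (1 : ℝ) ≤ K := by exact_mod_cast hK
    have hgeo : Summable fun j : ℕ => (|C| * (K : ℝ) ^ t * (2 : ℝ) ^ t) * ((2 : ℝ) ^ (t - τ * s)) ^ j :=
      (summable_geometric_of_lt_one (by positivity)
        (Real.rpow_lt_one_of_one_lt_of_neg (by norm_num) (by linarith))).mul_left _
    refine Summable.of_nonneg_of_le (fun j => by positivity) (fun j => ?_) hgeo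
    have hN : 1 ≤ K * 2 ^ (j + 1) := Nat.one_le_iff_ne_zero.2 (by positivity)
    have h1 := hC _ hN
    have h2 : (cnt d B (K * 2 ^ (j + 1)) : ℝ) ≤ |C| * ((K * 2 ^ (j + 1) : ℕ) : ℝ) ^ t :=
      h1.trans (mul_le_mul_of_nonneg_right (le_abs_self C) (by positivity))
    refine (mul_le_mul_of_nonneg_right h2 (by positivity)).trans (le_of_eq ?_)
    push_cast
    rw [Real.mul_rpow (by positivity) (by positivity), ← Real.rpow_mul (by positivity),
      ← Real.rpow_natCast 2 (j + 1), ← Real.rpow_natCast 2 j, ← Real.rpow_natCast _ j,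
      ← Real.rpow_mul (by norm_num), ← Real.rpow_mul (by norm_num), ← Real.rpow_mul (by norm_num)]
    have e1 : ((j + 1 : ℕ) : ℝ) * t = t + j * t := by push_cast; ring
    have e2 : (t - τ * s) * (j : ℝ) = j * t + (j : ℝ) * (-τ * s) := by ring
    rw [e1, e2, Real.rpow_add (by norm_num), Real.rpow_add (by norm_num)]
    ring

lemma dimH_le {X : Type*} [EMetricSpace X] [MeasurableSpace X] [BorelSpace X] {A : Set X} {c : ℝ}
    (hc : 0 ≤ c) (h : ∀ s : ℝ, c < s → μH[s] A = 0) : dimH A ≤ ENNReal.ofReal c := by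
  refine le_of_forall_gt fun b hb => ?_
  rcases eq_or_ne b ∞ with rfl | hbt
  · have h1 := h (c + 1) (by linarith)
    have h2 : dimH A ≤ ((c + 1).toNNReal : ℝ≥0∞) := by
      refine dimH_le_of_hausdorffMeasure_ne_top ?_
      rw [Real.coe_toNNReal _ (by linarith), h1]
      exact ENNReal.zero_ne_top
    exact lt_of_le_of_lt h2 ENNReal.coe_lt_top
  · obtain ⟨e, he1, he2⟩ := exists_between hb
    have het : e ≠ ∞ := ne_top_of_lt he2
    have he0 : c < e.toReal := by
      rw [← ENNReal.ofReal_lt_iff_lt_toReal hc het]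
      exact he1
    have h1 := h e.toReal he0
    have h2 : dimH A ≤ (e.toNNReal : ℝ≥0∞) := by
      refine dimH_le_of_hausdorffMeasure_ne_top ?_
      rw [show ((e.toNNReal : ℝ)) = e.toReal from rfl, h1]
      exact ENNReal.zero_ne_top
    rw [ENNReal.coe_toNNReal het] at h2
    exact lt_of_le_of_lt h2 he2

/-- countably many sets of exceptions with few elements -/
theorem dim_of_few {ι : Type*} [Countable ι] {d : ℕ} {B : ι → (Fin (d + 1) → ℤ) → Prop} {θ τ : ℝ}
    (hτ : 0 < τ) (h0 : 0 ≤ θ) (h : ∀ i, Few d θ (B i)) :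
    dimH {α : Fin d → ℝ | ¬ ∀ i, {x | Near α τ x ∧ B i x}.Finite} ≤ ENNReal.ofReal (θ / τ) := by
  refine dimH_le (by positivity) fun s hs => ?_
  have hs0 : 0 < s := lt_of_le_of_lt (by positivity) hs
  rw [div_lt_iff₀ hτ] at hs
  refine measure_mono_null ?_ (measure_iUnion_null fun i =>
    null_of_few hτ hs0 (by linarith) (h i))
  intro α hα
  have hα' : ¬ ∀ i, {x | Near α τ x ∧ B i x}.Finite := hα
  push Not at hα'
  obtain ⟨i, hi⟩ := hα'
  exact mem_iUnion.2 ⟨i, hi⟩

theorem ae_of_few {ι : Type*} [Countable ι] {d : ℕ} {B : ι → (Fin (d + 1) → ℤ) → Prop} {θ τ : ℝ}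
    (hd : 1 ≤ d) (hτ : 0 < τ) (hθ : θ < τ * d) (h : ∀ i, Few d θ (B i)) :
    ∀ᵐ α : Fin d → ℝ, ∀ i, {x | Near α τ x ∧ B i x}.Finite := by
  rw [ae_all_iff]
  intro i
  have h1 := null_of_few (s := (d : ℝ)) hτ (by exact_mod_cast hd) hθ (h i)
  have h2 : (μH[(d : ℝ)] : Measure (Fin d → ℝ)) = volume := by
    have := hausdorffMeasure_pi_real (ι := Fin d)
    rwa [Fintype.card_fin] at this
  rw [h2] at h1
  rw [ae_iff]
  exact h1

/-! ### Values of polynomials -/

lemma exists_bound {m : ℕ} (F : MvPolynomial (Fin m) ℤ) : ∃ A : ℕ, 1 ≤ A ∧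
    ∀ N : ℕ, 1 ≤ N → ∀ x : Fin m → ℤ, (∀ j, |x j| ≤ N) →
      |MvPolynomial.eval x F| ≤ A * (N : ℤ) ^ F.totalDegree := by
  refine ⟨(∑ e ∈ F.support, (F.coeff e).natAbs) + 1, by omega, fun N hN x hx => ?_⟩
  have hN1 : (1 : ℤ) ≤ N := by exact_mod_cast hN
  rw [MvPolynomial.eval_eq]
  refine (Finset.abs_sum_le_sum_abs _ _).trans ?_
  have h1 : ∀ e ∈ F.support, |F.coeff e * ∏ i ∈ e.support, x i ^ e i| ≤
      ((F.coeff e).natAbs : ℤ) * (N : ℤ) ^ F.totalDegree := by
    intro e he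
    rw [abs_mul, Int.natCast_natAbs]
    refine mul_le_mul_of_nonneg_left ?_ (abs_nonneg _)
    rw [Finset.abs_prod]
    calc ∏ i ∈ e.support, |x i ^ e i| ≤ ∏ i ∈ e.support, (N : ℤ) ^ e i := by
          refine Finset.prod_le_prod (fun i _ => abs_nonneg _) (fun i _ => ?_)
          rw [abs_pow]
          exact pow_le_pow_left₀ (abs_nonneg _) (hx i) _
      _ = (N : ℤ) ^ (∑ i ∈ e.support, e i) := Finset.prod_pow_eq_pow_sum _ _ _
      _ ≤ (N : ℤ) ^ F.totalDegree := pow_le_pow_right₀ hN1 (MvPolynomial.le_totalDegree he)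
  refine (Finset.sum_le_sum h1).trans ?_
  rw [← Finset.sum_mul]
  refine mul_le_mul_of_nonneg_right ?_ (by positivity)
  push_cast
  linarith

lemma zeros_le {d : ℕ} {F : MvPolynomial (Fin (d + 1)) ℤ} (hF : F ≠ 0) {N : ℕ} (hN : 1 ≤ N) :
    (((box d N).filter fun x => MvPolynomial.eval x F = 0).card : ℝ) ≤
      F.totalDegree * (3 ^ d * (N : ℝ) ^ d) := by
  classical
  set S : Finset ℤ := Finset.Icc (-(N : ℤ)) N with hS
  have hcard : S.card = 2 * N + 1 := by
    rw [hS, Int.card_Icc]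
    omega
  have h1 := MvPolynomial.schwartz_zippel_totalDegree hF S
  rw [div_le_div_iff₀ (by rw [hcard]; positivity) (by rw [hcard]; positivity), pow_succ] at h1
  have h2 : (((Finset.filter (fun f => MvPolynomial.eval f F = 0)
      (Fintype.piFinset fun _ : Fin (d + 1) => S)).card : ℕ) : ℚ≥0) ≤ F.totalDegree * (S.card : ℚ≥0) ^ d := by
    have h3 : (0 : ℚ≥0) < (S.card : ℚ≥0) := by rw [hcard]; positivity
    rw [← mul_assoc] at h1
    exact le_of_mul_le_mul_right h1 h3
  have h4 : (((Finset.filter (fun f => MvPolynomial.eval f F = 0)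
      (Fintype.piFinset fun _ : Fin (d + 1) => S)).card : ℕ)) ≤ F.totalDegree * S.card ^ d := by
    exact_mod_cast h2
  have h5 : ((box d N).filter fun x => MvPolynomial.eval x F = 0).card ≤ F.totalDegree * (2 * N + 1) ^ d := by
    rw [hcard] at h4
    refine le_trans (le_of_eq ?_) h4
    congr 1
  calc (((box d N).filter fun x => MvPolynomial.eval x F = 0).card : ℝ)
      ≤ ((F.totalDegree * (2 * N + 1) ^ d : ℕ) : ℝ) := by exact_mod_cast h5
    _ ≤ _ := by
        push_cast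
        rw [← mul_pow]
        refine mul_le_mul_of_nonneg_left ?_ (by positivity)
        refine pow_le_pow_left₀ (by positivity) ?_ _
        have : (1 : ℝ) ≤ N := by exact_mod_cast hN
        linarith

open Pool.Agent.Q21.DW in
/-- the values of a polynomial of degree at most `k` at an integer vector are in a thin set -/
theorem few_poly {d k : ℕ} {s : ℝ} {B : ℕ → Prop} (h : PS s B)
    (F : MvPolynomial (Fin (d + 1)) ℤ) (hF : ∀ c, F ≠ MvPolynomial.C c) (hk : F.totalDegree ≤ k) :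
    Few d (d + k * s) (fun x => MvPolynomial.eval x F ≠ 0 ∧ B (MvPolynomial.eval x F).natAbs) := by
  classical
  have hdeg : 1 ≤ F.totalDegree := by
    by_contra hcon
    have h0 : F.totalDegree = 0 := by omega
    rw [MvPolynomial.totalDegree_eq_zero_iff_eq_C] at h0
    exact hF _ h0
  have hk1 : 1 ≤ k := hdeg.trans hk
  have hk0 : (0 : ℝ) < k := by exact_mod_cast hk1
  obtain ⟨A, hA1, hA⟩ := exists_bound F
  intro t ht
  obtain ⟨C, hC⟩ := h ((t - d) / k) (by rw [lt_div_iff₀ hk0]; linarith)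
  set t' : ℝ := (t - d) / k with ht'
  refine ⟨|C| * (A : ℝ) ^ t' * (2 * (k * 3 ^ d)), fun N hN => ?_⟩
  have hN1 : (1 : ℝ) ≤ N := by exact_mod_cast hN
  have hN0 : (0 : ℝ) < N := by linarith
  set T : Finset ℕ := (Finset.Icc 1 (A * N ^ k)).filter B with hT
  have hTc : (T.card : ℝ) ≤ |C| * ((A : ℝ) ^ t' * (N : ℝ) ^ (k * t')) := by
    have h1 := hC (A * N ^ k) (Nat.one_le_iff_ne_zero.2 (by positivity))
    have h2 : (T.card : ℝ) ≤ C * ((A * N ^ k : ℕ) : ℝ) ^ t' := by
      rw [hT]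
      convert h1
    refine (h2.trans (mul_le_mul_of_nonneg_right (le_abs_self C) (by positivity))).trans (le_of_eq ?_)
    push_cast
    rw [Real.mul_rpow (by positivity) (by positivity), ← Real.rpow_natCast (N : ℝ) k,
      ← Real.rpow_mul hN0.le]
  have hsub : ((box d N).filter fun x => 1 ≤ x 0 ∧ (MvPolynomial.eval x F ≠ 0 ∧
      B (MvPolynomial.eval x F).natAbs)) ⊆ T.biUnion fun n =>
        ((box d N).filter fun x => MvPolynomial.eval x (F - MvPolynomial.C (n : ℤ)) = 0) ∪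
        ((box d N).filter fun x => MvPolynomial.eval x (F - MvPolynomial.C (-(n : ℤ))) = 0) := by
    intro x hx
    rw [Finset.mem_filter] at hx
    obtain ⟨hxb, _, hne, hB⟩ := hx
    rw [Finset.mem_biUnion]
    refine ⟨(MvPolynomial.eval x F).natAbs, ?_, ?_⟩
    · rw [hT, Finset.mem_filter, Finset.mem_Icc]
      refine ⟨⟨by omega, ?_⟩, hB⟩
      have h1 := hA N hN x (mem_box.1 hxb)
      have h2 : (N : ℤ) ^ F.totalDegree ≤ (N : ℤ) ^ k :=
        pow_le_pow_right₀ (by exact_mod_cast hN) hk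
      have h3 : ((MvPolynomial.eval x F).natAbs : ℤ) ≤ ((A * N ^ k : ℕ) : ℤ) := by
        rw [Int.natCast_natAbs]
        push_cast
        exact h1.trans (mul_le_mul_of_nonneg_left h2 (by positivity))
      exact_mod_cast h3
    · rw [Finset.mem_union, Finset.mem_filter, Finset.mem_filter, map_sub, map_sub,
        MvPolynomial.eval_C, MvPolynomial.eval_C]
      rcases Int.natAbs_eq (MvPolynomial.eval x F) with h1 | h1
      · exact Or.inl ⟨hxb, by omega⟩
      · exact Or.inr ⟨hxb, by omega⟩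
  have hz : ∀ c : ℤ, (((box d N).filter fun x => MvPolynomial.eval x (F - MvPolynomial.C c) = 0).card : ℝ) ≤
      k * (3 ^ d * (N : ℝ) ^ d) := by
    intro c
    have h1 := zeros_le (d := d) (F := F - MvPolynomial.C c) (sub_ne_zero.2 (hF c)) hN
    refine h1.trans (mul_le_mul_of_nonneg_right ?_ (by positivity))
    have h2 : (F - MvPolynomial.C c).totalDegree ≤ k := by
      refine (MvPolynomial.totalDegree_sub _ _).trans ?_
      rw [MvPolynomial.totalDegree_C]
      exact max_le hk (Nat.zero_le _)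
    exact_mod_cast h2
  have h1 : (cnt d (fun x => MvPolynomial.eval x F ≠ 0 ∧ B (MvPolynomial.eval x F).natAbs) N : ℝ) ≤
      T.card * (2 * (k * (3 ^ d * (N : ℝ) ^ d))) := by
    have h2 : cnt d (fun x => MvPolynomial.eval x F ≠ 0 ∧ B (MvPolynomial.eval x F).natAbs) N ≤
        ∑ n ∈ T, (((box d N).filter fun x => MvPolynomial.eval x (F - MvPolynomial.C (n : ℤ)) = 0).card +
          ((box d N).filter fun x => MvPolynomial.eval x (F - MvPolynomial.C (-(n : ℤ))) = 0).card) := by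
      refine le_trans ?_ ((Finset.card_le_card hsub).trans (Finset.card_biUnion_le.trans
        (Finset.sum_le_sum fun n _ => Finset.card_union_le _ _)))
      refine le_of_eq ?_
      unfold cnt
      congr!
    have h3 : ((∑ n ∈ T, (((box d N).filter fun x => MvPolynomial.eval x (F - MvPolynomial.C (n : ℤ)) = 0).card +
          ((box d N).filter fun x => MvPolynomial.eval x (F - MvPolynomial.C (-(n : ℤ))) = 0).card) : ℕ) : ℝ) ≤
        ∑ n ∈ T, (2 * (k * (3 ^ d * (N : ℝ) ^ d))) := by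
      push_cast
      refine Finset.sum_le_sum fun n _ => ?_
      linarith [hz (n : ℤ), hz (-(n : ℤ))]
    rw [Finset.sum_const, nsmul_eq_mul] at h3
    exact (Nat.cast_le.2 h2).trans h3
  refine h1.trans ((mul_le_mul_of_nonneg_right hTc (by positivity)).trans (le_of_eq ?_))
  have e1 : (N : ℝ) ^ t = (N : ℝ) ^ (k * t') * (N : ℝ) ^ d := by
    rw [← Real.rpow_natCast (N : ℝ) d, ← Real.rpow_add hN0]
    congr 1
    rw [ht']
    field_simp
    ring
  rw [e1]
  ring

end Pool.Agent.Q44.CF
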