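import Pool.Agent.Q21.AW.HC

set_option autoImplicit false

/-! Rational points of small denominator near a real point: a Borel-Cantelli lemma with Hausdorff
measures.  A rational point of `ℝ ^ d` is given by an integer vector `x`, `x 0 ≥ 1` is the denominator
and `x 1, …, x d` are the numerators. -/

namespace Pool.Agent.Q44.CF

open MeasureTheory Filter Set ENNReal Topology Metric

/-- the rational point with the denominator `x 0 ≥ 1` and the numerators `x 1, …, x d` is within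
`r (x 0)` of `α` in every coordinate -/
def NearR {d : ℕ} (α : Fin d → ℝ) (r : ℕ → ℝ) (x : Fin (d + 1) → ℤ) : Prop :=
  1 ≤ x 0 ∧ ∀ j : Fin d, |α j - (x j.succ : ℝ) / (x 0 : ℝ)| ≤ r (x 0).toNat

/-- the integer vectors with coordinates of absolute value at most `N` -/
noncomputable def box (d N : ℕ) : Finset (Fin (d + 1) → ℤ) :=
  Fintype.piFinset fun _ => Finset.Icc (-(N : ℤ)) N

lemma mem_box {d N : ℕ} {x : Fin (d + 1) → ℤ} : x ∈ box d N ↔ ∀ j, |x j| ≤ N := by
  unfold box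
  rw [Fintype.mem_piFinset]
  refine forall_congr' fun j => ?_
  rw [Finset.mem_Icc, abs_le]

open Classical in
/-- the number of the `x` in the box with `x 0 ≥ 1` and the property `B` -/
noncomputable def cnt (d : ℕ) (B : (Fin (d + 1) → ℤ) → Prop) (N : ℕ) : ℕ :=
  ((box d N).filter fun x => 1 ≤ x 0 ∧ B x).card

theorem base {d : ℕ} {B : (Fin (d + 1) → ℤ) → Prop} {s : ℝ} (hs : 0 < s) (r : ℕ → ℝ) (R : ℕ)
    (hR : ∀ q : ℕ, 1 ≤ q → r q ≤ R) (ρ : ℕ → ℝ) (hρ0 : ∀ j, 0 ≤ ρ j)
    (hρ : ∀ j q : ℕ, 2 ^ j ≤ q → q < 2 ^ (j + 1) → r q ≤ ρ j)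
    (hsum : ∀ K : ℕ, 1 ≤ K → Summable fun j : ℕ => (cnt d B (K * 2 ^ (j + 1)) : ℝ) * ρ j ^ s) :
    μH[s] {α : Fin d → ℝ | {x | NearR α r x ∧ B x}.Infinite} = 0 := by
  classical
  have key : ∀ M : ℕ, μH[s] {α : Fin d → ℝ | (∀ j, |α j| ≤ M) ∧
      {x | NearR α r x ∧ B x}.Infinite} = 0 := by
    intro M
    set K : ℕ := M + R + 1 with hK
    have hK1 : 1 ≤ K := by omega
    set F : ℕ → Finset (Fin (d + 1) → ℤ) := fun j =>
      (box d (K * 2 ^ (j + 1))).filter fun x => 1 ≤ x 0 ∧ B x with hF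
    have h1 := Pool.Agent.Q21.AW.hc (X := Fin d → ℝ) (ι := Σ j : ℕ, (F j : Set (Fin (d + 1) → ℤ))) hs
      (fun p => {α : Fin d → ℝ | ∀ i : Fin d,
        |α i - ((p.2 : Fin (d + 1) → ℤ) i.succ : ℝ) / ((p.2 : Fin (d + 1) → ℤ) 0 : ℝ)| ≤ ρ p.1}) ?_
    · refine measure_mono_null ?_ h1
      rintro α ⟨hα, hinf⟩
      have hinf' : {x : Fin (d + 1) → ℤ | NearR α r x ∧ B x}.Infinite := hinf
      show {p : (Σ j : ℕ, (F j : Set (Fin (d + 1) → ℤ))) | α ∈ {α : Fin d → ℝ | ∀ i : Fin d,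
        |α i - ((p.2 : Fin (d + 1) → ℤ) i.succ : ℝ) / ((p.2 : Fin (d + 1) → ℤ) 0 : ℝ)| ≤ ρ p.1}}.Infinite
      have h2 := hinf'.to_subtype
      have hlog : ∀ q : ℕ, 1 ≤ q → 2 ^ (Nat.log 2 q) ≤ q ∧ q < 2 ^ (Nat.log 2 q + 1) := fun q hq =>
        ⟨Nat.pow_log_le_self 2 (by omega), Nat.lt_pow_succ_log_self (by norm_num) q⟩
      have hmem : ∀ x : Fin (d + 1) → ℤ, NearR α r x ∧ B x → x ∈ F (Nat.log 2 (x 0).toNat) := by
        rintro x ⟨⟨hx0, hx⟩, hB⟩
        rw [hF, Finset.mem_filter, mem_box]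
        refine ⟨?_, hx0, hB⟩
        have hq1 : 1 ≤ (x 0).toNat := by omega
        obtain ⟨ha, hb⟩ := hlog _ hq1
        have hq : ((x 0).toNat : ℤ) = x 0 := Int.toNat_of_nonneg (by omega)
        have hxb : x 0 ≤ 2 ^ (Nat.log 2 (x 0).toNat + 1) := by
          have : ((x 0).toNat : ℤ) ≤ ((2 ^ (Nat.log 2 (x 0).toNat + 1) : ℕ) : ℤ) := by exact_mod_cast hb.le
          rw [hq] at this
          push_cast at this
          exact this
        intro j
        refine Fin.cases ?_ (fun i => ?_) j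
        · rw [abs_of_nonneg (by omega)]
          push_cast
          have hK' : (1 : ℤ) ≤ (K : ℤ) := by exact_mod_cast hK1
          nlinarith [pow_pos (show (0 : ℤ) < 2 by norm_num) (Nat.log 2 (x 0).toNat + 1)]
        · have h3 := hx i
          have h4 := hR _ hq1
          have hx0R : (1 : ℝ) ≤ (x 0 : ℝ) := by exact_mod_cast hx0
          have h5 : |(x i.succ : ℝ) / (x 0 : ℝ)| ≤ M + R := by
            have e : (x i.succ : ℝ) / (x 0 : ℝ) = α i - (α i - (x i.succ : ℝ) / (x 0 : ℝ)) := by ring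
            rw [e]
            refine (abs_sub _ _).trans ?_
            linarith [hα i]
          rw [abs_div, abs_of_pos (show (0 : ℝ) < (x 0 : ℝ) by linarith), div_le_iff₀ (by linarith)] at h5
          have h6 : ((|x i.succ| : ℤ) : ℝ) ≤ (((M + R : ℕ) : ℤ) * x 0 : ℤ) := by
            push_cast
            exact h5
          have h7 : |x i.succ| ≤ ((M + R : ℕ) : ℤ) * x 0 := by exact_mod_cast h6
          refine h7.trans ?_
          push_cast
          have h8 : (0 : ℤ) ≤ (M : ℤ) + R := by positivity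
          have h9 : ((M : ℤ) + R) * x 0 ≤ ((M : ℤ) + R) * 2 ^ (Nat.log 2 (x 0).toNat + 1) :=
            mul_le_mul_of_nonneg_left hxb h8
          have h10 : ((M : ℤ) + R) * 2 ^ (Nat.log 2 (x 0).toNat + 1) ≤
              (K : ℤ) * 2 ^ (Nat.log 2 (x 0).toNat + 1) := by
            refine mul_le_mul_of_nonneg_right ?_ (by positivity)
            rw [hK]; push_cast; linarith
          exact h9.trans h10
      refine Set.infinite_of_injective_forall_mem
        (f := fun x : {x | NearR α r x ∧ B x} => (⟨Nat.log 2 ((x.1 : Fin (d + 1) → ℤ) 0).toNat,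
          ⟨x.1, hmem x.1 x.2⟩⟩ : Σ j : ℕ, (F j : Set (Fin (d + 1) → ℤ)))) ?_ ?_
      · intro a b hab
        have h3 : (a : Fin (d + 1) → ℤ) = b := by
          have := congrArg (fun p : (Σ j : ℕ, (F j : Set (Fin (d + 1) → ℤ))) => (p.2 : Fin (d + 1) → ℤ)) hab
          exact this
        exact Subtype.ext h3
      · rintro ⟨x, ⟨hx0, hx⟩, hB⟩ i
        have hq1 : 1 ≤ (x 0).toNat := by omega
        obtain ⟨ha, hb⟩ := hlog _ hq1
        exact (hx i).trans (hρ _ _ ha hb)
    · rw [ENNReal.tsum_sigma']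
      have h3 : ∀ (j : ℕ) (b : (F j : Set (Fin (d + 1) → ℤ))), ediam {α : Fin d → ℝ | ∀ i : Fin d,
          |α i - ((b : Fin (d + 1) → ℤ) i.succ : ℝ) / ((b : Fin (d + 1) → ℤ) 0 : ℝ)| ≤ ρ j} ^ s ≤
            ENNReal.ofReal ((2 * ρ j) ^ s) := by
        intro j b
        rw [← ENNReal.ofReal_rpow_of_nonneg (by have := hρ0 j; positivity) hs.le]
        refine ENNReal.rpow_le_rpow ?_ hs.le
        refine Metric.ediam_le fun x hx y hy => ?_
        rw [edist_pi_le_iff]
        intro i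
        rw [edist_dist, Real.dist_eq]
        refine ENNReal.ofReal_le_ofReal ?_
        have h4 := abs_le.1 (hx i)
        have h5 := abs_le.1 (hy i)
        rw [abs_le]
        constructor <;> linarith [h4.1, h4.2, h5.1, h5.2]
      refine ne_top_of_le_ne_top ?_ (ENNReal.tsum_le_tsum fun j => (ENNReal.tsum_le_tsum (h3 j)).trans
        (le_of_eq (b := ENNReal.ofReal (2 ^ s * ((cnt d B (K * 2 ^ (j + 1)) : ℝ) * ρ j ^ s))) ?_))
      · exact ((hsum K hK1).mul_left (2 ^ s)).tsum_ofReal_ne_top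
      · rw [tsum_fintype, Finset.sum_const, nsmul_eq_mul, ← ENNReal.ofReal_natCast,
          ← ENNReal.ofReal_mul (Nat.cast_nonneg _)]
        congr 1
        rw [Real.mul_rpow (by norm_num) (hρ0 j)]
        have e1 : (Finset.univ : Finset (F j : Set (Fin (d + 1) → ℤ))).card = cnt d B (K * 2 ^ (j + 1)) := by
          rw [Finset.card_univ]
          simp [hF, cnt]
        rw [e1]
        ring
  refine measure_mono_null ?_ (measure_iUnion_null key)
  intro α hα
  obtain ⟨M, hM⟩ := exists_nat_ge (∑ j, |α j|)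
  exact mem_iUnion.2 ⟨M, fun j => (Finset.single_le_sum (f := fun j => |α j|)
    (fun i _ => abs_nonneg _) (Finset.mem_univ j)).trans hM, hα⟩

end Pool.Agent.Q44.CF
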