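import Pool.Agent.Q44.LogT
import Pool.Agent.Results.MP_892e4c_nt.PolynomialShifts

set_option autoImplicit false

/-! The exceptional tuples of constant terms, in a box. -/

namespace Pool.Agent.Q44.LT

open Finset Polynomial
open Pool.Agent.Q25.TPol (lam)
open Pool.Agent.Q44.CF (box mem_box cnt)

/-- Let `f = g ∏ (a_i T + b_i)`, `i` in a nonempty set `J` of indices. For all positive integers `a_i ≤ (log S) ^ K`, all
such `J` and all `M` between `S / (log S) ^ K` and `S (log S) ^ K` the sum of the `w(n) λ(f(n))`, `n ≤ M`, is at most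
`M / (log S) ^ U`. -/
def Good (g : ℤ[X]) (w : ℕ → ℂ) (K U : ℕ) {k : ℕ} (S : ℝ) (b : Fin (k + 1) → ℤ) : Prop :=
  ∀ a : Fin (k + 1) → ℕ, (∀ i, 1 ≤ a i ∧ (a i : ℝ) ≤ Real.log S ^ K) →
    ∀ J : Finset (Fin (k + 1)), J.Nonempty → ∀ M : ℕ, S ≤ Real.log S ^ K * M → (M : ℝ) ≤ Real.log S ^ K * S →
      ‖∑ n ∈ Icc 1 M, w n * (lam ((g * ∏ i ∈ J, (C (a i : ℤ) * X + C (b i))).eval (n : ℤ)) : ℂ)‖ ≤
        M / Real.log S ^ U

/-- the small first coordinates -/
lemma small_le (d R : ℕ) (hR : 1 ≤ R) (t : ℝ) (ht : 0 ≤ t) :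
    (((box d R).filter fun x => 1 ≤ x 0 ∧ ((x 0 : ℤ) : ℝ) ≤ t).card : ℝ) ≤ t * (3 * (R : ℝ)) ^ d := by
  classical
  have hsub : ((box d R).filter fun x => 1 ≤ x 0 ∧ ((x 0 : ℤ) : ℝ) ≤ t) ⊆
      Fintype.piFinset (Fin.cons (Icc (1 : ℤ) ⌊t⌋) (fun _ : Fin d => Icc (-(R : ℤ)) R) :
        Fin (d + 1) → Finset ℤ) := by
    intro x hx
    rw [mem_filter, mem_box] at hx
    rw [Fintype.mem_piFinset]
    intro i
    refine Fin.cases ?_ (fun j => ?_) i
    · rw [Fin.cons_zero, mem_Icc]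
      exact ⟨hx.2.1, Int.le_floor.2 hx.2.2⟩
    · rw [Fin.cons_succ, mem_Icc, ← abs_le]
      exact hx.1 _
  refine (Nat.cast_le.2 (card_le_card hsub)).trans ?_
  rw [Fintype.card_piFinset, Fin.prod_univ_succ]
  simp only [Fin.cons_zero, Fin.cons_succ, prod_const, card_univ, Fintype.card_fin, Int.card_Icc]
  push_cast
  have h1 : (((⌊t⌋ + 1 - 1).toNat : ℕ) : ℝ) ≤ t := by
    have h2 : ⌊t⌋ + 1 - 1 = ⌊t⌋ := by ring
    rw [h2]
    have h3 : (((⌊t⌋.toNat : ℕ) : ℤ) : ℝ) = (⌊t⌋ : ℝ) := by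
      rw [Int.toNat_of_nonneg (Int.floor_nonneg.2 ht)]
    have h4 : ((⌊t⌋.toNat : ℕ) : ℝ) = (⌊t⌋ : ℝ) := by exact_mod_cast h3
    rw [h4]
    exact Int.floor_le t
  have h5 : ((((R : ℤ) + 1 - -(R : ℤ)).toNat : ℕ) : ℝ) ≤ 3 * (R : ℝ) := by
    have h6 : ((R : ℤ) + 1 - -(R : ℤ)).toNat = 2 * R + 1 := by omega
    rw [h6]
    push_cast
    have : (1 : ℝ) ≤ R := by exact_mod_cast hR
    linarith
  exact mul_le_mul h1 (pow_le_pow_left₀ (Nat.cast_nonneg _) h5 d) (by positivity) ht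

/-- the entries of an integer matrix -/
lemma mulVec_le {d : ℕ} (Q : Matrix (Fin (d + 1)) (Fin (d + 1)) ℤ) : ∃ q : ℕ, 1 ≤ q ∧ ∀ (R : ℕ)
    (x : Fin (d + 1) → ℤ), (∀ j, |x j| ≤ R) → ∀ i, |Q.mulVec x i| ≤ q * (R : ℤ) := by
  refine ⟨(∑ i, ∑ j, (Q i j).natAbs) + 1, by omega, fun R x hx i => ?_⟩
  have h1 : |Q.mulVec x i| ≤ ∑ j, |Q i j| * R := by
    unfold Matrix.mulVec dotProduct
    refine (abs_sum_le_sum_abs _ _).trans (sum_le_sum fun j _ => ?_)
    rw [abs_mul]
    exact mul_le_mul_of_nonneg_left (hx j) (abs_nonneg _)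
  have h2 : ∑ j, |Q i j| ≤ ((∑ i, ∑ j, (Q i j).natAbs : ℕ) : ℤ) := by
    push_cast
    refine le_trans (le_of_eq (sum_congr rfl fun j _ => ?_)) (single_le_sum
      (f := fun i => ∑ j, |Q i j|) (fun i _ => sum_nonneg fun j _ => abs_nonneg _) (mem_univ i))
    rfl
  rw [← sum_mul] at h1
  refine h1.trans ?_
  have hR : (0 : ℤ) ≤ R := by positivity
  push_cast at h2 ⊢
  nlinarith

/-- eventually `log` is large -/
lemma ev (V : ℕ) : ∃ R₀ : ℕ, ∀ R : ℕ, R₀ ≤ R → 4 ≤ Real.log R ∧ Real.log R ^ V * 3 ≤ R := by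
  have h1 : ∀ᶠ R : ℕ in Filter.atTop, (4 : ℝ) ≤ Real.log R :=
    (Real.tendsto_log_atTop.comp tendsto_natCast_atTop_atTop).eventually_ge_atTop 4
  have h2 : ∀ᶠ R : ℕ in Filter.atTop, Real.log R ^ V * 3 ≤ R := by
    have h3 := (isLittleO_log_rpow_atTop (r := 1 / ((V : ℝ) + 1)) (by positivity)).bound (show (0 : ℝ) < 1 / 3 by norm_num)
    have h4 := tendsto_natCast_atTop_atTop (R := ℝ) |>.eventually h3
    filter_upwards [h4, h1, Filter.eventually_ge_atTop 1] with R h5 h6 h7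
    have hR : (1 : ℝ) ≤ R := by exact_mod_cast h7
    have hR0 : (0 : ℝ) < R := by linarith
    rw [Real.norm_eq_abs, Real.norm_eq_abs, abs_of_nonneg (by linarith), abs_of_nonneg (by positivity)] at h5
    have h8 : Real.log R ^ (V + 1) ≤ (1 / 3) ^ (V + 1) * R := by
      refine (pow_le_pow_left₀ (by linarith) h5 _).trans (le_of_eq ?_)
      rw [mul_pow, ← Real.rpow_natCast ((R : ℝ) ^ _), ← Real.rpow_mul hR0.le]
      congr 1
      have : 1 / ((V : ℝ) + 1) * ((V + 1 : ℕ) : ℝ) = 1 := by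
        push_cast
        field_simp
      rw [this, Real.rpow_one]
    have h9 : Real.log R ^ V ≤ Real.log R ^ (V + 1) := pow_le_pow_right₀ (by linarith) (by omega)
    have h10 : ((1 : ℝ) / 3) ^ (V + 1) ≤ 1 / 3 := by
      rw [pow_succ]
      have : ((1 : ℝ) / 3) ^ V ≤ 1 := pow_le_one₀ (by norm_num) (by norm_num)
      nlinarith
    nlinarith
  obtain ⟨R₀, h⟩ := Filter.eventually_atTop.1 (h1.and h2)
  exact ⟨R₀, h⟩

/-- **The exceptional tuples.** -/
theorem cnt_bad {d : ℕ} (g : ℤ[X]) (w : ℕ → ℂ) (hw : ∀ n, ‖w n‖ ≤ 1) (K U V : ℕ)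
    (Q : Matrix (Fin (d + 1)) (Fin (d + 1)) ℤ) (hQ : Q.det ≠ 0) :
    ∃ C : ℝ, ∀ R : ℕ, 2 ≤ R → (cnt d (fun x => ¬ Good g w K U (x 0) (Q.mulVec x)) R : ℝ) ≤
      C * (R : ℝ) ^ (d + 1) / Real.log R ^ V := by
  classical
  obtain ⟨q, hq1, hq⟩ := mulVec_le Q
  obtain ⟨W, hW⟩ : ∃ W : ℕ, W = 3 * K + V + 1 + U + V := ⟨_, rfl⟩
  obtain ⟨N₀, hN₀⟩ := (Pool.Agent.Results.MP_892e4c_nt.PolynomialShifts.result d (3 * q) (2 * K + 1)
    (K * (d + 1)) W).2.2.2 (fun _ => X) (fun _ => by simp)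
  obtain ⟨R₁, hR₁⟩ := ev V
  obtain ⟨R₀, hR₀⟩ : ∃ R₀ : ℕ, R₀ = max (max R₁ N₀) 3 := ⟨_, rfl⟩
  have hqr : (1 : ℝ) ≤ q := by exact_mod_cast hq1
  have hbig : ∀ R : ℕ, R₀ ≤ R → (cnt d (fun x => ¬ Good g w K U (x 0) (Q.mulVec x)) R : ℝ) ≤
      2 * (3 * (q : ℝ)) ^ (d + 1) * (R : ℝ) ^ (d + 1) / Real.log R ^ V := by
    intro R hR
    have hRR₁ : R₁ ≤ R := by omega
    have hRN₀ : N₀ ≤ R := by omega
    have hR3 : 3 ≤ R := by omega
    obtain ⟨hl4, hlV⟩ := hR₁ R hRR₁
    obtain ⟨ℓ, hℓ⟩ : ∃ ℓ, ℓ = Real.log R := ⟨_, rfl⟩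
    rw [← hℓ] at hl4 hlV ⊢
    have hRr : (3 : ℝ) ≤ R := by exact_mod_cast hR3
    have hℓ1 : 1 ≤ ℓ := by linarith
    have hℓ0 : 0 < ℓ := by linarith
    obtain ⟨N, hN⟩ : ∃ N : ℕ, N = ⌈ℓ ^ (2 * K) * R⌉₊ := ⟨_, rfl⟩
    have hNlo : ℓ ^ (2 * K) * R ≤ N := by rw [hN]; exact Nat.le_ceil _
    have hNhi : (N : ℝ) ≤ 2 * (ℓ ^ (2 * K) * R) := by
      have h1 : (N : ℝ) < ℓ ^ (2 * K) * R + 1 := by
        rw [hN]
        exact Nat.ceil_lt_add_one (by positivity)
      have h2 : 1 ≤ ℓ ^ (2 * K) := one_le_pow₀ hℓ1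
      nlinarith
    have hRN : (R : ℝ) ≤ N := by
      have h2 : 1 ≤ ℓ ^ (2 * K) := one_le_pow₀ hℓ1
      nlinarith
    have hRN' : R ≤ N := by exact_mod_cast hRN
    have hlN : ℓ ≤ Real.log N := by
      rw [hℓ]
      exact Real.log_le_log (by linarith) hRN
    obtain ⟨m, hm⟩ : ∃ m : ℕ, m = ⌊ℓ ^ K⌋₊ := ⟨_, rfl⟩
    have hmle : (m : ℝ) ≤ ℓ ^ K := by
      rw [hm]
      exact Nat.floor_le (by positivity)
    have key := hN₀ N (by omega) (fun _ => -((q * R + 1 : ℕ) : ℤ)) (fun _ => 2 * (q * R) + 1) (by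
      intro i
      have hqR : 1 ≤ q * R := Nat.one_le_iff_ne_zero.2 (by positivity)
      have hqRN : q * R ≤ q * N := Nat.mul_le_mul_left _ hRN'
      refine ⟨?_, ?_, ?_⟩
      · rw [abs_neg, Nat.abs_cast]
        have : q * R + 1 ≤ 3 * q * N := by nlinarith
        exact_mod_cast this
      · have e : (Polynomial.X : ℤ[X]).natDegree = 1 := by simp
        simp only [e, pow_one]
        have h1 : ℓ ^ (2 * K + 1) ≤ Real.log N ^ (2 * K + 1) := pow_le_pow_left₀ hℓ0.le hlN _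
        have h2 : (R : ℝ) ≤ ((2 * (q * R) + 1 : ℕ) : ℝ) := by
          have : R ≤ 2 * (q * R) + 1 := by nlinarith
          exact_mod_cast this
        calc (N : ℝ) ≤ 2 * (ℓ ^ (2 * K) * R) := hNhi
          _ ≤ ℓ * (ℓ ^ (2 * K) * R) := mul_le_mul_of_nonneg_right (by linarith) (by positivity)
          _ = ℓ ^ (2 * K + 1) * R := by ring
          _ ≤ _ := mul_le_mul h1 h2 (by positivity) (by positivity)
      · have e : (Polynomial.X : ℤ[X]).natDegree = 1 := by simp
        simp only [e, pow_one]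
        nlinarith)
    have key2 := key (m ^ (d + 1)) (by
      push_cast
      refine (pow_le_pow_left₀ (Nat.cast_nonneg _) hmle _).trans ?_
      rw [← pow_mul]
      exact pow_le_pow_left₀ hℓ0.le hlN _)
      (fun l i => ((finFunctionFinEquiv.symm l i : Fin m) : ℕ) + 1) (fun _ => g) (fun _ => w)
      (fun l i => by omega) (fun l n => (hw n).trans (one_le_pow₀ (by linarith)))
    -- the two parts
    obtain ⟨S1, hS1⟩ : ∃ S1 : Finset (Fin (d + 1) → ℤ), S1 = (box d R).filter fun x => 1 ≤ x 0 ∧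
      ((x 0 : ℤ) : ℝ) ≤ R / ℓ ^ V := ⟨_, rfl⟩
    obtain ⟨S2, hS2⟩ : ∃ S2 : Finset (Fin (d + 1) → ℤ), S2 = (box d R).filter fun x => (1 ≤ x 0 ∧
      R / ℓ ^ V < ((x 0 : ℤ) : ℝ)) ∧ ¬ Good g w K U (x 0) (Q.mulVec x) := ⟨_, rfl⟩
    have hc1 : (S1.card : ℝ) ≤ (R / ℓ ^ V) * (3 * (R : ℝ)) ^ d := by
      rw [hS1]
      exact small_le d R (by omega) _ (by positivity)
    have hc2 : (S2.card : ℝ) ≤ (3 * (q * (R : ℝ))) ^ (d + 1) / ℓ ^ V := by
      have hb : ∀ x ∈ S2, ∀ i, |Q.mulVec x i| ≤ ((q * R : ℕ) : ℤ) := by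
        intro x hx i
        rw [hS2, mem_filter, mem_box] at hx
        have := hq R x hx.1 i
        push_cast
        exact this
      have h1 : S2.card ≤ _ := card_le_card_of_injOn
        (fun x => fun i => (Q.mulVec x i + ((q * R + 1 : ℕ) : ℤ)).toNat)
        (t := (Fintype.piFinset fun _ : Fin (d + 1) => Icc 1 (2 * (q * R) + 1)).filter
          (fun t : Fin (d + 1) → ℕ => ¬ ∀ l : Fin (m ^ (d + 1)), ∀ J : Finset (Fin (d + 1)), J.Nonempty → ∀ M : ℕ,
            (∀ i, (((finFunctionFinEquiv.symm l i : Fin m) : ℕ) + 1) * M ≤ 3 * q * N) →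
            ‖∑ n ∈ Icc 1 M, w n * (lam ((g * ∏ i ∈ J,
              Pool.Agent.Results.MP_892e4c_nt.PolynomialShifts.L (((finFunctionFinEquiv.symm l i : Fin m) : ℕ) + 1)
                (-((q * R + 1 : ℕ) : ℤ) + (Polynomial.X : ℤ[X]).eval (t i : ℤ))).eval (n : ℤ)) : ℂ)‖ ≤
              N / Real.log N ^ W)) (fun x hx => ?_) ?_
      · refine (Nat.cast_le.2 h1).trans ?_
        refine le_trans (le_trans (le_of_eq ?_) key2) ?_
        · congr!
        · rw [prod_const, card_univ, Fintype.card_fin]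
          have h2 : (1 : ℝ) ≤ q * (R : ℝ) := by nlinarith
          refine div_le_div₀ (by positivity) (pow_le_pow_left₀ (by positivity) ?_ _) (by positivity) ?_
          · push_cast
            linarith
          · refine le_trans (pow_le_pow_right₀ hℓ1 (by omega : V ≤ W)) ?_
            exact pow_le_pow_left₀ hℓ0.le hlN _
      · have hbx := hb x hx
        rw [hS2] at hx
        rw [mem_coe, mem_filter] at hx
        obtain ⟨hxb, ⟨hx0, hxR⟩, hbad⟩ := hx
        rw [mem_box] at hxb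
        rw [mem_coe, mem_filter, Fintype.mem_piFinset]
        refine ⟨fun i => ?_, ?_⟩
        · have := abs_le.1 (hbx i)
          rw [mem_Icc]
          push_cast at this ⊢
          constructor <;> omega
        unfold Good at hbad
        push Not at hbad
        obtain ⟨a, ha, J, hJ, M, hM1, hM2, hlt⟩ := hbad
        intro hall
        obtain ⟨S, hS⟩ : ∃ S : ℝ, S = ((x 0 : ℤ) : ℝ) := ⟨_, rfl⟩
        rw [← hS] at ha hM1 hM2 hlt hxR
        have hVp : 0 < ℓ ^ V := by positivity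
        have hS3 : 3 ≤ S := by
          refine le_trans ?_ hxR.le
          rw [le_div_iff₀ hVp]
          linarith
        have hSR : S ≤ R := by
          have h3 := (abs_le.1 (hxb 0)).2
          rw [hS]
          exact_mod_cast h3
        have hlS : Real.log S ≤ ℓ := by
          rw [hℓ]
          exact Real.log_le_log (by linarith) hSR
        have hlS0 : 0 < Real.log S := Real.log_pos (by linarith)
        have hlSK : Real.log S ^ K ≤ ℓ ^ K := pow_le_pow_left₀ hlS0.le hlS _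
        have ham : ∀ i, a i ≤ m := fun i => by
          rw [hm]
          exact Nat.le_floor ((ha i).2.trans hlSK)
        have haM : ∀ i, a i - 1 < m := fun i => by
          have := (ha i).1
          have := ham i
          omega
        have hl : ∀ i, (((finFunctionFinEquiv.symm (finFunctionFinEquiv
            (fun i => (⟨a i - 1, haM i⟩ : Fin m))) i : Fin m) : ℕ)) + 1 = a i := by
          intro i
          rw [Equiv.symm_apply_apply]
          have := (ha i).1
          show a i - 1 + 1 = a i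
          omega
        have hMr : (M : ℝ) ≤ ℓ ^ K * R := hM2.trans (mul_le_mul hlSK hSR (by linarith) (by positivity))
        have h4 := hall (finFunctionFinEquiv (fun i => (⟨a i - 1, haM i⟩ : Fin m))) J hJ M (fun i => by
          rw [hl i]
          have h5 : ((a i * M : ℕ) : ℝ) ≤ (N : ℝ) := by
            push_cast
            refine le_trans ?_ hNlo
            calc (a i : ℝ) * M ≤ ℓ ^ K * (ℓ ^ K * R) :=
                  mul_le_mul ((ha i).2.trans hlSK) hMr (Nat.cast_nonneg _) (by positivity)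
              _ = ℓ ^ (2 * K) * R := by ring
          have h6 : a i * M ≤ N := by exact_mod_cast h5
          nlinarith)
        have h5 : (N : ℝ) / Real.log N ^ W ≤ M / Real.log S ^ U := by
          have h6 : (R : ℝ) ≤ ℓ ^ (V + K) * M := by
            have h7 : (R : ℝ) ≤ S * ℓ ^ V := by
              rw [div_lt_iff₀ hVp] at hxR
              exact hxR.le
            have h8 : S ≤ ℓ ^ K * M := hM1.trans (mul_le_mul_of_nonneg_right hlSK (Nat.cast_nonneg _))
            calc (R : ℝ) ≤ S * ℓ ^ V := h7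
              _ ≤ (ℓ ^ K * M) * ℓ ^ V := mul_le_mul_of_nonneg_right h8 hVp.le
              _ = _ := by ring
          have h9 : (N : ℝ) ≤ ℓ ^ (3 * K + V + 1) * M := by
            calc (N : ℝ) ≤ 2 * (ℓ ^ (2 * K) * R) := hNhi
              _ ≤ ℓ * (ℓ ^ (2 * K) * (ℓ ^ (V + K) * M)) :=
                  mul_le_mul (by linarith) (mul_le_mul_of_nonneg_left h6 (by positivity)) (by positivity) hℓ0.le
              _ = _ := by ring
          calc (N : ℝ) / Real.log N ^ W ≤ (ℓ ^ (3 * K + V + 1) * M) / ℓ ^ W :=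
                div_le_div₀ (by positivity) h9 (by positivity) (pow_le_pow_left₀ hℓ0.le hlN _)
            _ = M / ℓ ^ (U + V) := by
                rw [hW, show 3 * K + V + 1 + U + V = (3 * K + V + 1) + (U + V) by ring, pow_add ℓ (3 * K + V + 1)]
                field_simp
            _ ≤ M / ℓ ^ U := div_le_div_of_nonneg_left (Nat.cast_nonneg _) (by positivity)
                (pow_le_pow_right₀ hℓ1 (by omega))
            _ ≤ M / Real.log S ^ U := div_le_div_of_nonneg_left (Nat.cast_nonneg _) (by positivity)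
                (pow_le_pow_left₀ hlS0.le hlS _)
        refine absurd (lt_of_le_of_lt h5 hlt) (not_lt.2 (le_trans (le_of_eq ?_) h4))
        congr 1
        refine sum_congr rfl fun n _ => ?_
        congr 3
        congr 1
        congr 1
        refine prod_congr rfl fun i _ => ?_
        rw [hl i]
        unfold Pool.Agent.Results.MP_892e4c_nt.PolynomialShifts.L
        congr 2
        rw [eval_X, Int.toNat_of_nonneg]
        · push_cast
          ring
        · have := abs_le.1 (hbx i)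
          push_cast at this ⊢
          linarith
      · intro x hx y hy hxy
        have h2 : Q.mulVec x = Q.mulVec y := by
          funext i
          have h3 := congrFun hxy i
          have h4 := abs_le.1 (hb x hx i)
          have h5 := abs_le.1 (hb y hy i)
          simp only at h3
          push_cast at h3 h4 h5
          omega
        have h3 : Q.mulVec (x - y) = 0 := by rw [Matrix.mulVec_sub, h2, sub_self]
        exact sub_eq_zero.1 (Matrix.eq_zero_of_mulVec_eq_zero hQ h3)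
    have hle : cnt d (fun x => ¬ Good g w K U (x 0) (Q.mulVec x)) R ≤ S1.card + S2.card := by
      have h1 : ((box d R).filter fun x => 1 ≤ x 0 ∧ ¬ Good g w K U (x 0) (Q.mulVec x)) ⊆ S1 ∪ S2 := by
        intro x hx
        rw [mem_filter] at hx
        rw [mem_union, hS1, hS2, mem_filter, mem_filter]
        rcases le_or_gt ((x 0 : ℤ) : ℝ) (R / ℓ ^ V) with h2 | h2
        · exact Or.inl ⟨hx.1, hx.2.1, h2⟩
        · exact Or.inr ⟨hx.1, ⟨hx.2.1, h2⟩, hx.2.2⟩
      refine le_trans (le_of_eq ?_) ((card_le_card h1).trans (card_union_le _ _))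
      unfold cnt
      congr!
    have hpow : (R / ℓ ^ V) * (3 * (R : ℝ)) ^ d ≤ (3 * (q * (R : ℝ))) ^ (d + 1) / ℓ ^ V := by
      rw [div_mul_eq_mul_div]
      refine div_le_div_of_nonneg_right ?_ (by positivity)
      rw [pow_succ', mul_comm (R : ℝ)]
      have h1 : (3 * (R : ℝ)) ^ d ≤ (3 * (q * (R : ℝ))) ^ d := by
        refine pow_le_pow_left₀ (by positivity) ?_ _
        nlinarith
      calc (3 * (R : ℝ)) ^ d * R ≤ (3 * (q * (R : ℝ))) ^ d * (3 * (q * (R : ℝ))) :=
            mul_le_mul h1 (by nlinarith) (by positivity) (by positivity)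
        _ = _ := by ring
    calc (cnt d (fun x => ¬ Good g w K U (x 0) (Q.mulVec x)) R : ℝ) ≤ ((S1.card + S2.card : ℕ) : ℝ) :=
          Nat.cast_le.2 hle
      _ ≤ (3 * (q * (R : ℝ))) ^ (d + 1) / ℓ ^ V + (3 * (q * (R : ℝ))) ^ (d + 1) / ℓ ^ V := by
          push_cast
          exact add_le_add (hc1.trans hpow) hc2
      _ = _ := by
          rw [← mul_assoc 3 (q : ℝ) R, mul_pow]
          ring
  refine ⟨2 * (3 * (q : ℝ)) ^ (d + 1) + 3 ^ (d + 1) * Real.log R₀ ^ V, fun R hR => ?_⟩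
  have hR2 : (2 : ℝ) ≤ R := by exact_mod_cast hR
  have hℓ0 : 0 < Real.log R := Real.log_pos (by linarith)
  have hR₀0 : 0 ≤ Real.log R₀ := Real.log_natCast_nonneg _
  rcases le_or_gt R₀ R with h1 | h1
  · refine (hbig R h1).trans (div_le_div_of_nonneg_right ?_ (by positivity))
    refine mul_le_mul_of_nonneg_right ?_ (by positivity)
    have : 0 ≤ (3 : ℝ) ^ (d + 1) * Real.log R₀ ^ V := by positivity
    linarith
  · have h2 : (cnt d (fun x => ¬ Good g w K U (x 0) (Q.mulVec x)) R : ℝ) ≤ (3 * (R : ℝ)) ^ (d + 1) := by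
      have h3 : cnt d (fun x => ¬ Good g w K U (x 0) (Q.mulVec x)) R ≤ (box d R).card := by
        refine le_trans (le_of_eq ?_) (card_le_card (filter_subset
          (fun x : Fin (d + 1) → ℤ => 1 ≤ x 0 ∧ ¬ Good g w K U (x 0) (Q.mulVec x)) (box d R)))
        unfold cnt
        congr!
      have h4 : (box d R).card = (2 * R + 1) ^ (d + 1) := by
        unfold Pool.Agent.Q44.CF.box
        rw [Fintype.card_piFinset_const, Int.card_Icc]
        congr 1
        omega
      rw [h4] at h3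
      refine (Nat.cast_le.2 h3).trans ?_
      push_cast
      exact pow_le_pow_left₀ (by positivity) (by linarith) _
    refine h2.trans ?_
    rw [le_div_iff₀ (by positivity), mul_pow]
    have h5 : Real.log R ^ V ≤ Real.log R₀ ^ V :=
      pow_le_pow_left₀ hℓ0.le (Real.log_le_log (by linarith) (by exact_mod_cast h1.le)) _
    have h6 : 0 ≤ 2 * (3 * (q : ℝ)) ^ (d + 1) := by positivity
    calc (3 : ℝ) ^ (d + 1) * (R : ℝ) ^ (d + 1) * Real.log R ^ V
        ≤ (3 : ℝ) ^ (d + 1) * (R : ℝ) ^ (d + 1) * Real.log R₀ ^ V := mul_le_mul_of_nonneg_left h5 (by positivity)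
      _ = (3 ^ (d + 1) * Real.log R₀ ^ V) * (R : ℝ) ^ (d + 1) := by ring
      _ ≤ _ := mul_le_mul_of_nonneg_right (by linarith) (by positivity)

end Pool.Agent.Q44.LT
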