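import Pool.Agent.Q44.Log

set_option autoImplicit false

/-! Sufficient conditions for `LogFew`. -/

namespace Pool.Agent.Q44.CF

open Filter Set

lemma log_pow_le (U : ℝ) (hU : 0 < U) (X : ℝ) (hX : 1 ≤ X) : (Real.log X) ^ U ≤ (2 * U) ^ U * X ^ (1 / 2 : ℝ) := by
  have h1 := Real.log_le_rpow_div (show 0 ≤ X by linarith) (show (0 : ℝ) < 1 / (2 * U) by positivity)
  have h2 : X ^ (1 / (2 * U)) / (1 / (2 * U)) = 2 * U * X ^ (1 / (2 * U)) := by
    field_simp
  rw [h2] at h1
  refine (Real.rpow_le_rpow (Real.log_nonneg hX) h1 hU.le).trans (le_of_eq ?_)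
  rw [Real.mul_rpow (by positivity) (by positivity), ← Real.rpow_mul (by linarith)]
  congr 2
  field_simp

/-- large `N` are enough, and finitely many more exceptions do not matter -/
theorem logFew_of {B : ℕ → Prop} (h : ∀ U : ℝ, 0 < U → ∃ (C : ℝ) (X₀ : ℕ), ∀ X : ℕ, X₀ ≤ X →
    ∀ F : Finset ℕ, (∀ n ∈ F, 1 ≤ n ∧ n ≤ X ∧ B n) → (F.card : ℝ) ≤ C * X / (Real.log X) ^ U) (N₀ : ℕ) :
    LogFew (fun n => B n ∨ n < N₀) := by
  classical
  intro U
  set V : ℝ := max U 1 with hV
  have hV0 : 0 < V := lt_of_lt_of_le one_pos (le_max_right _ _)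
  obtain ⟨C, X₀, hC⟩ := h V hV0
  set X₁ : ℕ := max X₀ 3 with hX₁
  set M : ℝ := max ((Real.log 2) ^ U) ((Real.log X₁) ^ U) with hM
  have hlog2 : 0 < Real.log 2 := Real.log_pos (by norm_num)
  have hM0 : 0 < M := lt_max_of_lt_left (Real.rpow_pos_of_pos hlog2 _)
  refine ⟨M + |C| + N₀ * (2 * V) ^ V, fun N hN F hF => ?_⟩
  have hN2 : (2 : ℝ) ≤ N := by exact_mod_cast hN
  have hlogN : Real.log 2 ≤ Real.log N := Real.log_le_log (by norm_num) hN2
  have hlogN0 : 0 < Real.log N := lt_of_lt_of_le hlog2 hlogN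
  have hpos : 0 < (Real.log N) ^ U := Real.rpow_pos_of_pos hlogN0 _
  have hq : 0 ≤ (N : ℝ) / (Real.log N) ^ U := by positivity
  have e : (M + |C| + N₀ * (2 * V) ^ V) * (N : ℝ) / (Real.log N) ^ U =
      M * ((N : ℝ) / (Real.log N) ^ U) + (|C| + N₀ * (2 * V) ^ V) * ((N : ℝ) / (Real.log N) ^ U) := by ring
  rw [e]
  rcases lt_or_ge N X₁ with hlt | hge
  · have h1 : (F.card : ℝ) ≤ N := by
      have h2 : F ⊆ Finset.Icc 1 N := fun n hn => Finset.mem_Icc.2 ⟨(hF n hn).1, (hF n hn).2.1⟩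
      have h3 := Finset.card_le_card h2
      rw [Nat.card_Icc] at h3
      have h4 : F.card ≤ N := by omega
      exact_mod_cast h4
    have h2 : (Real.log N) ^ U ≤ M := by
      have h3 : Real.log N ≤ Real.log X₁ := Real.log_le_log (by linarith) (by exact_mod_cast hlt.le)
      rcases le_or_gt 0 U with hU | hU
      · exact (Real.rpow_le_rpow hlogN0.le h3 hU).trans (le_max_right _ _)
      · exact (Real.rpow_le_rpow_of_nonpos hlog2 hlogN hU.le).trans (le_max_left _ _)
    have h3 : (N : ℝ) ≤ M * ((N : ℝ) / (Real.log N) ^ U) := by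
      rw [mul_div_assoc', le_div_iff₀ hpos, mul_comm]
      exact mul_le_mul_of_nonneg_right h2 (by linarith)
    have h4 : 0 ≤ (|C| + N₀ * (2 * V) ^ V) * ((N : ℝ) / (Real.log N) ^ U) := by positivity
    linarith
  · have hN3 : 3 ≤ N := le_trans (le_max_right _ _) hge
    have hlog1 : 1 ≤ Real.log N := by
      rw [Real.le_log_iff_exp_le (by linarith)]
      have : (3 : ℝ) ≤ N := by exact_mod_cast hN3
      linarith [Real.exp_one_lt_d9]
    have hUV : (Real.log N) ^ U ≤ (Real.log N) ^ V :=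
      Real.rpow_le_rpow_of_exponent_le hlog1 (le_max_left _ _)
    have h1 := hC N (le_trans (le_max_left _ _) hge) (F.filter fun n => B n) (fun n hn => by
      rw [Finset.mem_filter] at hn
      exact ⟨(hF n hn.1).1, (hF n hn.1).2.1, hn.2⟩)
    have h2 : (F.card : ℝ) ≤ ((F.filter fun n => B n).card : ℝ) + N₀ := by
      have h3 : F ⊆ (F.filter fun n => B n) ∪ Finset.range N₀ := by
        intro n hn
        rw [Finset.mem_union, Finset.mem_filter, Finset.mem_range]
        rcases (hF n hn).2.2 with h4 | h4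
        · exact Or.inl ⟨hn, h4⟩
        · exact Or.inr h4
      have h4 := (Finset.card_le_card h3).trans (Finset.card_union_le _ _)
      rw [Finset.card_range] at h4
      exact_mod_cast h4
    have hVpos : 0 < (Real.log N) ^ V := Real.rpow_pos_of_pos hlogN0 _
    have h5 : C * (N : ℝ) / (Real.log N) ^ V ≤ |C| * ((N : ℝ) / (Real.log N) ^ U) := by
      rw [mul_div_assoc]
      refine mul_le_mul (le_abs_self C) ?_ (by positivity) (abs_nonneg _)
      exact div_le_div_of_nonneg_left (by linarith) hpos hUV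
    have h6 : (N₀ : ℝ) ≤ N₀ * (2 * V) ^ V * ((N : ℝ) / (Real.log N) ^ U) := by
      have h7 := log_pow_le V hV0 N (by linarith)
      have h8 : (N : ℝ) ^ (1 / 2 : ℝ) ≤ N := by
        calc (N : ℝ) ^ (1 / 2 : ℝ) ≤ (N : ℝ) ^ (1 : ℝ) :=
              Real.rpow_le_rpow_of_exponent_le (by linarith) (by norm_num)
          _ = N := Real.rpow_one _
      have h9 : (1 : ℝ) ≤ (2 * V) ^ V * ((N : ℝ) / (Real.log N) ^ U) := by
        rw [mul_div_assoc', le_div_iff₀ hpos, one_mul]
        refine hUV.trans (h7.trans ?_)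
        exact mul_le_mul_of_nonneg_left h8 (by positivity)
      rw [mul_assoc]
      exact le_mul_of_one_le_right (Nat.cast_nonneg _) h9
    have h7 : 0 ≤ M * ((N : ℝ) / (Real.log N) ^ U) := by positivity
    have h8 : (|C| + N₀ * (2 * V) ^ V) * ((N : ℝ) / (Real.log N) ^ U) =
        |C| * ((N : ℝ) / (Real.log N) ^ U) + N₀ * (2 * V) ^ V * ((N : ℝ) / (Real.log N) ^ U) := by ring
    rw [h8]
    linarith

end Pool.Agent.Q44.CF
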