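import Pool.Agent.Q44.LogB
import Pool.Agent.Q319.DR.Mult

set_option autoImplicit false

/-! # Log-sparse sets of integers at the good rational approximations of almost all points -/

namespace Pool.Agent.Q44.CF

open Filter

/-- sets with at most `N / log ^ U N` elements up to `N`, for all `U` -/
theorem logFew_of_sparse {bad : ℕ → Prop} (h : Pool.Agent.Q319.DR.Sparse (fun _ q => bad q)) (N₀ : ℕ) :
    LogFew (fun n => bad n ∨ n < N₀) := by
  refine logFew_of (fun U hU => ?_) N₀
  obtain ⟨V, hV⟩ := exists_nat_gt U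
  obtain ⟨X₀, hX⟩ := h 1 V
  refine ⟨1, max X₀ 3, fun X hXX F hF => ?_⟩
  rw [one_mul]
  have hX3 : 3 ≤ X := (le_max_right _ _).trans hXX
  have hX0 : X₀ ≤ X := (le_max_left _ _).trans hXX
  have h1 := hX X hX0 F (fun n hn => by
    rw [Finset.mem_Icc, one_mul]
    exact ⟨(hF n hn).1, (hF n hn).2.1⟩) (fun n hn => (hF n hn).2.2)
  refine h1.trans ?_
  have hL : 1 ≤ Real.log X := by
    have h2 : Real.exp 1 ≤ X := by
      have h3 : (3 : ℝ) ≤ X := by exact_mod_cast hX3
      linarith [Real.exp_one_lt_d9]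
    have h3 := Real.log_le_log (Real.exp_pos 1) h2
    rwa [Real.log_exp] at h3
  apply div_le_div_of_nonneg_left (Nat.cast_nonneg X) (Real.rpow_pos_of_pos (by linarith) _)
  rw [← Real.rpow_natCast]
  exact Real.rpow_le_rpow_of_exponent_le hL hV.le

theorem atLog_of_sparse {P : ℕ → Prop} (h : Pool.Agent.Q319.DR.Sparse (fun _ q => ¬ P q)) :
    AtDirichletApproximations P :=
  atLog_of (logFew_of_sparse h 0) fun _ hn => Or.inl hn

end Pool.Agent.Q44.CF
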