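import Pool.Agent.Q44.Log

set_option autoImplicit false

/-! Sparse sets of integer vectors, with a saving of powers of the logarithm, at the rational approximations of the
quality of Dirichlet's theorem, up to a power of the logarithm, of almost all real points. -/

namespace Pool.Agent.Q44.CF

open MeasureTheory Filter Set ENNReal Topology Metric

theorem null_logT {d A : ℕ} (hd : 1 ≤ d) {B : (Fin (d + 1) → ℤ) → Prop}
    (h : ∃ C : ℝ, ∀ N : ℕ, 2 ≤ N → (cnt d B N : ℝ) ≤ C * (N : ℝ) ^ (d + 1) / Real.log N ^ (A * d + 2)) :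
    volume {α : Fin d → ℝ | {x : Fin (d + 1) → ℤ | NearR α (rad d A) x ∧ B x}.Infinite} = 0 := by
  have hd0 : (0 : ℝ) < d := by exact_mod_cast hd
  have hvol : (μH[(d : ℝ)] : Measure (Fin d → ℝ)) = volume := by
    have := hausdorffMeasure_pi_real (ι := Fin d)
    rwa [Fintype.card_fin] at this
  rw [← hvol]
  set δ : ℝ := 1 + 1 / (d : ℝ) with hδ
  have hδ1 : 1 < δ := by
    rw [hδ]
    have : 0 < 1 / (d : ℝ) := by positivity
    linarith
  have hlog2 : Real.log 2 < 1 := by
    have := Real.log_two_lt_d9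
    linarith
  have hlog2' : 0 < Real.log 2 := Real.log_pos (by norm_num)
  have hlogq : ∀ j q : ℕ, 2 ^ j ≤ q → q < 2 ^ (j + 1) → 1 + Real.log q ≤ j + 2 := by
    intro j q h1 h2
    have hq0 : (0 : ℝ) < q := by
      have : 0 < q := lt_of_lt_of_le (by positivity) h1
      exact_mod_cast this
    have h3 : Real.log q ≤ (j + 1) * Real.log 2 := by
      have h4 : (q : ℝ) ≤ (2 : ℝ) ^ (j + 1) := by exact_mod_cast h2.le
      have h5 := Real.log_le_log hq0 h4
      rw [Real.log_pow] at h5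
      push_cast at h5
      exact h5
    nlinarith [Nat.cast_nonneg (α := ℝ) j]
  have hlq0 : ∀ q : ℕ, 1 ≤ q → 0 ≤ 1 + Real.log q := fun q hq => by
    have := Real.log_nonneg (show (1 : ℝ) ≤ q by exact_mod_cast hq)
    linarith
  refine base (B := B) hd0 (rad d A) ((A + 2) ^ A) ?_
    (fun j => ((j : ℝ) + 2) ^ A * ((2 : ℝ) ^ j) ^ (-δ)) (fun j => by positivity) ?_ ?_
  · intro q hq
    have hq1 : (1 : ℝ) ≤ q := by exact_mod_cast hq
    have hq0 : (0 : ℝ) < q := by linarith
    have hA1 : (0 : ℝ) < (A : ℝ) + 1 := by positivity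
    have h1 : Real.log q ≤ (A + 1) * (q : ℝ) ^ (1 / ((A : ℝ) + 1)) := by
      have := Real.log_le_rpow_div hq0.le (show (0 : ℝ) < 1 / ((A : ℝ) + 1) by positivity)
      refine this.trans (le_of_eq ?_)
      field_simp
    have h2 : 1 + Real.log q ≤ (A + 2) * (q : ℝ) ^ (1 / ((A : ℝ) + 1)) := by
      have h3 : (1 : ℝ) ≤ (q : ℝ) ^ (1 / ((A : ℝ) + 1)) := Real.one_le_rpow hq1 (by positivity)
      linarith
    have h3 : (1 + Real.log q) ^ A ≤ (A + 2) ^ A * (q : ℝ) ^ δ := by
      refine (pow_le_pow_left₀ (hlq0 q hq) h2 A).trans ?_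
      rw [mul_pow]
      refine mul_le_mul_of_nonneg_left ?_ (by positivity)
      rw [← Real.rpow_natCast, ← Real.rpow_mul hq0.le]
      refine Real.rpow_le_rpow_of_exponent_le hq1 ?_
      have h4 : 1 / ((A : ℝ) + 1) * A ≤ 1 := by
        rw [one_div, inv_mul_le_iff₀ hA1]
        linarith
      linarith
    unfold rad
    rw [← hδ, Real.rpow_neg hq0.le]
    have h5 : 0 < (q : ℝ) ^ δ := by positivity
    rw [← div_eq_mul_inv, div_le_iff₀ h5]
    push_cast
    exact h3
  · intro j q h1 h2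
    have hq1 : 1 ≤ q := le_trans Nat.one_le_two_pow h1
    unfold rad
    rw [← hδ]
    refine mul_le_mul (pow_le_pow_left₀ (hlq0 q hq1) (hlogq j q h1 h2) A) ?_ (by positivity) (by positivity)
    refine Real.rpow_le_rpow_of_nonpos (by positivity) (by exact_mod_cast h1) (by linarith)
  · intro K hK
    obtain ⟨C, hC⟩ := h
    have hK1 : (1 : ℝ) ≤ K := by exact_mod_cast hK
    set M : ℝ := |C| * (K * 2) ^ (d + 1) * (1 / Real.log 2 ^ (A * d + 2)) * 2 ^ (A * d) with hM
    have hsum : Summable fun j : ℕ => M * (1 / ((j : ℝ) + 1) ^ 2) := by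
      refine Summable.mul_left _ ?_
      have := (summable_nat_add_iff 1).2 (Real.summable_one_div_nat_pow.2 (show 1 < 2 by norm_num))
      refine this.congr fun j => ?_
      push_cast
      rfl
    refine Summable.of_nonneg_of_le (fun j => by positivity) (fun j => ?_) hsum
    set N : ℕ := K * 2 ^ (j + 1) with hN
    have hN2 : 2 ^ (j + 1) ≤ N := Nat.le_mul_of_pos_left _ (by omega)
    have hN2' : 2 ≤ N := le_trans (by rw [pow_succ]; have := Nat.one_le_two_pow (n := j); omega) hN2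
    have hlogN : ((j : ℝ) + 1) * Real.log 2 ≤ Real.log (N : ℝ) := by
      have h1 : ((2 : ℝ) ^ (j + 1)) ≤ (N : ℝ) := by exact_mod_cast hN2
      have h2 := Real.log_le_log (by positivity) h1
      rw [Real.log_pow] at h2
      push_cast at h2 ⊢
      exact h2
    have hj1 : 0 < ((j : ℝ) + 1) * Real.log 2 := by positivity
    have h1 : (cnt d B N : ℝ) ≤ |C| * (N : ℝ) ^ (d + 1) / (((j : ℝ) + 1) * Real.log 2) ^ (A * d + 2) := by
      refine (hC N hN2').trans ?_
      refine div_le_div₀ (by positivity) (mul_le_mul_of_nonneg_right (le_abs_self C) (by positivity))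
        (by positivity) ?_
      exact pow_le_pow_left₀ hj1.le hlogN _
    have e1 : (((j : ℝ) + 2) ^ A * ((2 : ℝ) ^ j) ^ (-δ)) ^ (d : ℝ) =
        ((j : ℝ) + 2) ^ (A * d) * (((2 : ℝ) ^ j) ^ (d + 1))⁻¹ := by
      rw [Real.mul_rpow (by positivity) (by positivity), Real.rpow_natCast, ← pow_mul,
        ← Real.rpow_mul (by positivity)]
      congr 1
      have e2 : -δ * (d : ℝ) = -((d + 1 : ℕ) : ℝ) := by
        rw [hδ]
        push_cast
        field_simp
      rw [e2, Real.rpow_neg (by positivity), Real.rpow_natCast]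
    have h3 : ((j : ℝ) + 2) ^ (A * d) ≤ 2 ^ (A * d) * ((j : ℝ) + 1) ^ (A * d) := by
      rw [← mul_pow]
      exact pow_le_pow_left₀ (by positivity) (by linarith [Nat.cast_nonneg (α := ℝ) j]) _
    calc (cnt d B N : ℝ) * (((j : ℝ) + 2) ^ A * ((2 : ℝ) ^ j) ^ (-δ)) ^ (d : ℝ)
        ≤ (|C| * (N : ℝ) ^ (d + 1) / (((j : ℝ) + 1) * Real.log 2) ^ (A * d + 2)) *
          ((2 ^ (A * d) * ((j : ℝ) + 1) ^ (A * d)) * (((2 : ℝ) ^ j) ^ (d + 1))⁻¹) := by
          rw [e1]
          exact mul_le_mul h1 (mul_le_mul_of_nonneg_right h3 (by positivity)) (by positivity)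
            (by positivity)
      _ = M * (1 / ((j : ℝ) + 1) ^ 2) := by
          rw [hM, hN]
          push_cast
          rw [mul_pow (((j : ℝ) + 1)), pow_add ((j : ℝ) + 1) (A * d) 2]
          have hj : ((j : ℝ) + 1) ≠ 0 := by positivity
          have hl : Real.log 2 ≠ 0 := hlog2'.ne'
          field_simp
          ring

end Pool.Agent.Q44.CF
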