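import Pool.Agent.Q44.Scales

set_option autoImplicit false

/-! Most convergents of almost every real number -/

namespace Pool.Agent.Q44.CF

open MeasureTheory Filter Set ENNReal Topology Metric

/-- at most nine rationals of a dyadic range of denominators approximate `α` with Dirichlet's quality -/
lemma few_in_scale (α : ℝ) (k : ℕ) : ({r : ℚ | 2 ^ k ≤ r.den ∧ r.den < 2 ^ (k + 1) ∧
    |α - r| ≤ 1 / (r.den : ℝ) ^ 2}).Finite ∧
    ({r : ℚ | 2 ^ k ≤ r.den ∧ r.den < 2 ^ (k + 1) ∧ |α - r| ≤ 1 / (r.den : ℝ) ^ 2}).ncard ≤ 10 := by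
  classical
  set S := {r : ℚ | 2 ^ k ≤ r.den ∧ r.den < 2 ^ (k + 1) ∧ |α - r| ≤ 1 / (r.den : ℝ) ^ 2} with hS
  set f : ℚ → ℤ := fun r => ⌊(r : ℝ) * 4 ^ (k + 1)⌋ with hf
  have h4 : (0 : ℝ) < 4 ^ (k + 1) := by positivity
  have hmaps : ∀ r ∈ S, f r ∈ Finset.Icc (⌊α * 4 ^ (k + 1)⌋ - 4) (⌊α * 4 ^ (k + 1)⌋ + 5) := by
    intro r hr
    obtain ⟨h1, h2, h3⟩ := hr
    have h1' : ((2 : ℝ) ^ k) ≤ r.den := by exact_mod_cast h1
    have h5 : |α - r| * 4 ^ (k + 1) ≤ 4 := by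
      have h6 : |α - r| ≤ 1 / ((2 : ℝ) ^ k) ^ 2 :=
        h3.trans (one_div_le_one_div_of_le (by positivity) (pow_le_pow_left₀ (by positivity) h1' 2))
      calc |α - r| * 4 ^ (k + 1) ≤ 1 / ((2 : ℝ) ^ k) ^ 2 * 4 ^ (k + 1) := mul_le_mul_of_nonneg_right h6 h4.le
        _ = 4 := by
            rw [← pow_mul, mul_comm k 2, pow_mul, pow_succ (4 : ℝ) k]
            field_simp
            norm_num
    rw [← abs_of_pos h4, ← abs_mul, sub_mul, abs_le] at h5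
    rw [Finset.mem_Icc, hf]
    simp only
    have h7 := Int.floor_le (α * 4 ^ (k + 1))
    have h8 := Int.lt_floor_add_one (α * 4 ^ (k + 1))
    constructor
    · rw [Int.le_floor]
      push_cast
      linarith
    · rw [← Int.lt_add_one_iff, Int.floor_lt]
      push_cast
      linarith
  have hinj : Set.InjOn f S := by
    intro r hr r' hr' he
    by_contra hne
    obtain ⟨-, h2, -⟩ := hr
    obtain ⟨-, h2', -⟩ := hr'
    have h5 : |((r : ℝ) - r')| * 4 ^ (k + 1) < 1 := by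
      have h6 := Int.floor_le ((r : ℝ) * 4 ^ (k + 1))
      have h7 := Int.lt_floor_add_one ((r : ℝ) * 4 ^ (k + 1))
      have h8 := Int.floor_le ((r' : ℝ) * 4 ^ (k + 1))
      have h9 := Int.lt_floor_add_one ((r' : ℝ) * 4 ^ (k + 1))
      have he' : ⌊(r : ℝ) * 4 ^ (k + 1)⌋ = ⌊(r' : ℝ) * 4 ^ (k + 1)⌋ := he
      rw [he'] at h6 h7
      rw [← abs_of_pos h4, ← abs_mul, sub_mul, abs_lt]
      constructor <;> linarith
    have h6 : 1 ≤ |((r : ℝ) - r')| * ((r.den : ℝ) * r'.den) := by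
      have hd : (0 : ℝ) < (r.den : ℝ) * r'.den := by
        have a1 : (0 : ℝ) < r.den := by exact_mod_cast r.den_pos
        have a2 : (0 : ℝ) < r'.den := by exact_mod_cast r'.den_pos
        positivity
      have e : ((r : ℝ) - r') * ((r.den : ℝ) * r'.den) = ((r.num * r'.den - r'.num * r.den : ℤ) : ℝ) := by
        have e1 : (r : ℝ) * r.den = r.num := by exact_mod_cast Rat.mul_den_eq_num r
        have e2 : (r' : ℝ) * r'.den = r'.num := by exact_mod_cast Rat.mul_den_eq_num r'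
        push_cast
        rw [← e1, ← e2]
        ring
      rw [← abs_of_pos hd, ← abs_mul, e, ← Int.cast_abs]
      have h7 : r.num * r'.den - r'.num * r.den ≠ 0 := by
        intro h0
        apply hne
        have h8 : r.num * (r'.den : ℤ) = r'.num * (r.den : ℤ) := by linarith
        rw [← Rat.num_div_den r, ← Rat.num_div_den r', div_eq_div_iff (by exact_mod_cast r.den_nz)
          (by exact_mod_cast r'.den_nz)]
        exact_mod_cast h8
      have h8 := Int.one_le_abs h7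
      exact_mod_cast h8
    have h7 : (r.den : ℝ) * r'.den ≤ 4 ^ (k + 1) := by
      have a1 : (r.den : ℝ) ≤ 2 ^ (k + 1) := by exact_mod_cast h2.le
      have a2 : (r'.den : ℝ) ≤ 2 ^ (k + 1) := by exact_mod_cast h2'.le
      calc (r.den : ℝ) * r'.den ≤ 2 ^ (k + 1) * 2 ^ (k + 1) := mul_le_mul a1 a2 (by positivity) (by positivity)
        _ = 4 ^ (k + 1) := by
            rw [← mul_pow]
            norm_num
    have h8 : |((r : ℝ) - r')| * ((r.den : ℝ) * r'.den) ≤ |((r : ℝ) - r')| * 4 ^ (k + 1) :=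
      mul_le_mul_of_nonneg_left h7 (abs_nonneg _)
    linarith
  have hfin : S.Finite := Set.Finite.of_finite_image ((Finset.finite_toSet
    (Finset.Icc (⌊α * 4 ^ (k + 1)⌋ - 4) (⌊α * 4 ^ (k + 1)⌋ + 5))).subset (by
      rintro _ ⟨r, hr, rfl⟩
      exact Finset.mem_coe.2 (hmaps r hr))) hinj
  refine ⟨hfin, ?_⟩
  have h1 := Set.ncard_le_ncard_of_injOn f (t := ((Finset.Icc (⌊α * 4 ^ (k + 1)⌋ - 4)
    (⌊α * 4 ^ (k + 1)⌋ + 5) : Finset ℤ) : Set ℤ)) (fun r hr => Finset.mem_coe.2 (hmaps r hr)) hinj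
    (Finset.finite_toSet _)
  rw [Set.ncard_coe_finset, Int.card_Icc] at h1
  refine h1.trans ?_
  have : ⌊α * 4 ^ (k + 1)⌋ + 5 + 1 - (⌊α * 4 ^ (k + 1)⌋ - 4) = 10 := by ring
  rw [this]
  norm_num

/-- The property `P` of positive integers holds at most of the rational approximations of almost all real points. -/
structure AtMostApproximations (δ : ℝ) (P : ℕ → Prop) : Prop where
  /-- for almost every `α` in `ℝ ^ d`, `d ≥ 1`, all nonzero integer vectors `c`, all `ε > 0` and all large `K`: for all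
  `k < K` with at most `K ^ (1 - δ + ε)` exceptions, for ALL integer vectors `x` with `2 ^ k ≤ x 0 < 2 ^ (k + 1)` and
  `|α j - x j / x 0| ≤ (x 0) ^ (-(1 + 1 / d))` for every `j`, the integer `|∑ c j x j|` has the property `P` or is
  zero -/
  points : ∀ d : ℕ, 1 ≤ d → ∀ᵐ α : Fin d → ℝ, ∀ c : Fin (d + 1) → ℤ, c ≠ 0 → ∀ ε : ℝ, 0 < ε → ∀ᶠ K : ℕ in atTop,
    ({k : ℕ | k < K ∧ ∃ x : Fin (d + 1) → ℤ, (2 ^ k ≤ x 0 ∧ x 0 < 2 ^ (k + 1) ∧
      ∀ j : Fin d, |α j - (x j.succ : ℝ) / (x 0 : ℝ)| ≤ (x 0 : ℝ) ^ (-(1 + 1 / (d : ℝ)))) ∧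
      ∑ j, c j * x j ≠ 0 ∧ ¬ P (∑ j, c j * x j).natAbs}.ncard : ℝ) ≤ (K : ℝ) ^ (1 - δ + ε)
  /-- for almost every real number `α`, all integers `u` and `v` which are not both zero, all `ε > 0` and all large `K`:
  all convergents `p / q` of the continued fraction of `α` with `q < 2 ^ K`, with at most `K ^ (1 - δ + ε)` exceptions,
  have a `|u p + v q|` with the property `P` -/
  convergents : ∀ᵐ α : ℝ, ∀ u v : ℤ, (u ≠ 0 ∨ v ≠ 0) → ∀ ε : ℝ, 0 < ε → ∀ᶠ K : ℕ in atTop,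
    ({r : ℚ | (∃ n : ℕ, r = α.convergent n) ∧ r.den < 2 ^ K ∧ ¬ P (u * r.num + v * r.den).natAbs}.ncard : ℝ) ≤
      (K : ℝ) ^ (1 - δ + ε)

theorem atMost_of {δ : ℝ} (hδ : 0 ≤ δ) (hδ1 : δ ≤ 1) {P B : ℕ → Prop} (h : LogFewU δ B) (hB : ∀ n, ¬ P n → B n) :
    AtMostApproximations δ P := by
  classical
  have hpt : ∀ d : ℕ, 1 ≤ d → ∀ᵐ α : Fin d → ℝ, ∀ c : Fin (d + 1) → ℤ, c ≠ 0 → ∀ ε : ℝ, 0 < ε →
      ∀ᶠ K : ℕ in atTop, ({k : ℕ | k < K ∧ ∃ x : Fin (d + 1) → ℤ, (2 ^ k ≤ x 0 ∧ x 0 < 2 ^ (k + 1) ∧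
      ∀ j : Fin d, |α j - (x j.succ : ℝ) / (x 0 : ℝ)| ≤ (x 0 : ℝ) ^ (-(1 + 1 / (d : ℝ)))) ∧
      ∑ j, c j * x j ≠ 0 ∧ ¬ P (∑ j, c j * x j).natAbs}.ncard : ℝ) ≤ (K : ℝ) ^ (1 - δ + ε) := by
    intro d hd
    filter_upwards [most_scales hd h hδ hδ1] with α hα c hc ε hε
    filter_upwards [hα c hc ε hε] with K hK
    refine le_trans (Nat.cast_le.2 (Set.ncard_le_ncard ?_ ((Set.finite_lt_nat K).subset fun k hk => hk.1))) hK
    rintro k ⟨hk, x, hx, hne, hP⟩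
    exact ⟨hk, x, hx, hne, hB _ hP⟩
  refine ⟨hpt, ?_⟩
  have h1 := hpt 1 le_rfl
  have h2 : ∀ᵐ α : ℝ, Irrational α := by
    have : volume (Set.range ((↑) : ℚ → ℝ)) = 0 := (Set.countable_range _).measure_zero _
    rw [ae_iff]
    refine measure_mono_null (fun a ha => ?_) this
    exact not_not.1 ha
  have h3 : ∀ᵐ α : ℝ, ∀ c : Fin (1 + 1) → ℤ, c ≠ 0 → ∀ ε : ℝ, 0 < ε →
      ∀ᶠ K : ℕ in atTop, ({k : ℕ | k < K ∧ ∃ x : Fin (1 + 1) → ℤ, (2 ^ k ≤ x 0 ∧ x 0 < 2 ^ (k + 1) ∧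
      ∀ j : Fin 1, |α - (x j.succ : ℝ) / (x 0 : ℝ)| ≤ (x 0 : ℝ) ^ (-(1 + 1 / ((1 : ℕ) : ℝ)))) ∧
      ∑ j, c j * x j ≠ 0 ∧ ¬ P (∑ j, c j * x j).natAbs}.ncard : ℝ) ≤ (K : ℝ) ^ (1 - δ + ε) := by
    have hmp : MeasurePreserving (MeasurableEquiv.funUnique (Fin 1) ℝ) :=
      volume_preserving_funUnique (Fin 1) ℝ
    have h4 := hmp.symm.quasiMeasurePreserving.ae h1
    refine h4.mono fun α hα => ?_
    exact hα
  filter_upwards [h2, h3] with α hirr hα u v huv ε hε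
  have h4 := hα ![v, u] (by
    intro h0
    have e1 := congrFun h0 0
    have e2 := congrFun h0 1
    simp at e1 e2
    tauto) (ε / 2) (by positivity)
  have hlarge : ∀ᶠ K : ℕ in atTop, (11 : ℝ) ≤ (K : ℝ) ^ (ε / 2) :=
    ((tendsto_rpow_atTop (show 0 < ε / 2 by positivity)).comp tendsto_natCast_atTop_atTop).eventually_ge_atTop _
  filter_upwards [h4, hlarge, eventually_ge_atTop 1] with K hK hK11 hK1
  have hK1' : (1 : ℝ) ≤ K := by exact_mod_cast hK1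
  have hK0 : (0 : ℝ) < K := by linarith
  set BS : Set ℕ := {k : ℕ | k < K ∧ ∃ x : Fin (1 + 1) → ℤ, (2 ^ k ≤ x 0 ∧ x 0 < 2 ^ (k + 1) ∧
      ∀ j : Fin 1, |α - (x j.succ : ℝ) / (x 0 : ℝ)| ≤ (x 0 : ℝ) ^ (-(1 + 1 / ((1 : ℕ) : ℝ)))) ∧
      ∑ j, (![v, u] : Fin (1 + 1) → ℤ) j * x j ≠ 0 ∧ ¬ P (∑ j, (![v, u] : Fin (1 + 1) → ℤ) j * x j).natAbs} with hBS
  have hBSf : BS.Finite := (Set.finite_lt_nat K).subset fun k hk => hk.1
  set R : ℕ → Set ℚ := fun k => {r : ℚ | 2 ^ k ≤ r.den ∧ r.den < 2 ^ (k + 1) ∧ |α - r| ≤ 1 / (r.den : ℝ) ^ 2} with hR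
  set Z : Set ℚ := {r : ℚ | u * r.num + v * (r.den : ℤ) = 0} with hZ
  have hZs : Z ⊆ {-(v : ℚ) / u} := by
    intro r hr
    have hr' : u * r.num + v * (r.den : ℤ) = 0 := hr
    have hu : u ≠ 0 := by
      rintro rfl
      have hv : v ≠ 0 := by tauto
      have h3 : (r.den : ℤ) ≠ 0 := by exact_mod_cast r.den_nz
      rw [zero_mul, zero_add] at hr'
      exact (mul_ne_zero hv h3) hr'
    rw [Set.mem_singleton_iff]
    have h4 : (u : ℚ) * r.num + v * r.den = 0 := by exact_mod_cast hr'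
    have h5 : (u : ℚ) ≠ 0 := by exact_mod_cast hu
    have h6 : (r.den : ℚ) ≠ 0 := by exact_mod_cast r.den_nz
    have h7 := Rat.num_div_den r
    rw [← h7, div_eq_div_iff h6 h5]
    linarith
  have hZf : Z.Finite := (Set.finite_singleton _).subset hZs
  have hZc : Z.ncard ≤ 1 := (Set.ncard_le_ncard hZs (Set.finite_singleton _)).trans (by rw [Set.ncard_singleton])
  have hsub : {r : ℚ | (∃ n : ℕ, r = α.convergent n) ∧ r.den < 2 ^ K ∧ ¬ P (u * r.num + v * r.den).natAbs} ⊆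
      Z ∪ ⋃ k ∈ hBSf.toFinset, R k := by
    rintro r ⟨⟨n, hn⟩, hden, hP⟩
    by_cases h0 : u * r.num + v * (r.den : ℤ) = 0
    · exact Or.inl h0
    · right
      have hr1 : |α - r| ≤ 1 / (r.den : ℝ) ^ 2 := by
        rw [hn]
        exact near_convergent hirr n
      have hpos := r.den_pos
      set k := Nat.log 2 r.den with hk
      have hk1 : 2 ^ k ≤ r.den := Nat.pow_log_le_self 2 (by omega)
      have hk2 : r.den < 2 ^ (k + 1) := Nat.lt_pow_succ_log_self (by norm_num) _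
      rw [mem_iUnion₂]
      refine ⟨k, ?_, hk1, hk2, hr1⟩
      rw [Set.Finite.mem_toFinset]
      have hsum : ∑ j, (![v, u] : Fin (1 + 1) → ℤ) j * (![(r.den : ℤ), r.num] : Fin (1 + 1) → ℤ) j =
          u * r.num + v * (r.den : ℤ) := by
        rw [Fin.sum_univ_two]
        simp only [Matrix.cons_val_zero, Matrix.cons_val_one]
        ring
      refine ⟨?_, ![(r.den : ℤ), r.num], ⟨?_, ?_, fun j => ?_⟩, by rw [hsum]; exact h0, by rw [hsum]; exact hP⟩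
      · by_contra hcon
        push Not at hcon
        have : 2 ^ K ≤ 2 ^ k := Nat.pow_le_pow_right (by norm_num) hcon
        omega
      · simp only [Matrix.cons_val_zero]
        exact_mod_cast hk1
      · simp only [Matrix.cons_val_zero]
        exact_mod_cast hk2
      · have hj : j = 0 := Subsingleton.elim _ _
        subst hj
        have e : (((![(r.den : ℤ), r.num] : Fin (1 + 1) → ℤ) (Fin.succ 0) : ℤ) : ℝ) /
            (((![(r.den : ℤ), r.num] : Fin (1 + 1) → ℤ) 0 : ℤ) : ℝ) = (r : ℝ) := by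
          have := Rat.num_div_den r
          have h3 : (((r.num : ℚ) / (r.den : ℚ) : ℚ) : ℝ) = (r : ℝ) := by rw [this]
          rw [← h3]
          push_cast
          rfl
        have e2 : ((((![(r.den : ℤ), r.num] : Fin (1 + 1) → ℤ) 0 : ℤ)) : ℝ) ^ (-(1 + 1 / ((1 : ℕ) : ℝ))) =
            1 / (r.den : ℝ) ^ 2 := by
          have e3 : (-(1 + 1 / ((1 : ℕ) : ℝ)) : ℝ) = -((2 : ℕ) : ℝ) := by norm_num
          rw [e3, Real.rpow_neg (by simp), Real.rpow_natCast, one_div]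
          simp
        rw [e, e2]
        exact hr1
  have hfinU : (⋃ k ∈ hBSf.toFinset, R k).Finite :=
    Set.Finite.biUnion (Finset.finite_toSet _) fun k _ => (few_in_scale α k).1
  have hcard : ({r : ℚ | (∃ n : ℕ, r = α.convergent n) ∧ r.den < 2 ^ K ∧
      ¬ P (u * r.num + v * r.den).natAbs}.ncard) ≤ 1 + hBSf.toFinset.card * 10 := by
    refine (Set.ncard_le_ncard hsub (hZf.union hfinU)).trans ((Set.ncard_union_le _ _).trans
      (Nat.add_le_add hZc ?_))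
    refine (Finset.set_ncard_biUnion_le _ _).trans ?_
    rw [← smul_eq_mul, ← Finset.sum_const]
    exact Finset.sum_le_sum fun k _ => (few_in_scale α k).2
  have hBSc : (hBSf.toFinset.card : ℝ) ≤ (K : ℝ) ^ (1 - δ + ε / 2) := by
    rw [← Set.ncard_eq_toFinset_card BS hBSf]
    exact hK
  have h1le : (1 : ℝ) ≤ (K : ℝ) ^ (1 - δ + ε / 2) := Real.one_le_rpow hK1' (by linarith)
  calc ({r : ℚ | (∃ n : ℕ, r = α.convergent n) ∧ r.den < 2 ^ K ∧
      ¬ P (u * r.num + v * r.den).natAbs}.ncard : ℝ) ≤ 1 + (hBSf.toFinset.card : ℝ) * 10 := by exact_mod_cast hcard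
    _ ≤ 11 * (K : ℝ) ^ (1 - δ + ε / 2) := by linarith
    _ ≤ (K : ℝ) ^ (ε / 2) * (K : ℝ) ^ (1 - δ + ε / 2) := mul_le_mul_of_nonneg_right hK11 (by positivity)
    _ = (K : ℝ) ^ (1 - δ + ε) := by
        rw [← Real.rpow_add hK0]
        congr 1
        ring

end Pool.Agent.Q44.CF
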