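import Pool.Agent.Q44.LogU
import Pool.Agent.Q44.ScalesB

set_option autoImplicit false

/-! Counts of exceptions which depend on a parameter, turned into counts of exceptions of size `log ^ t` -/

namespace Pool.Agent.Q44.CF

open Filter

lemma log2_le {X : ℕ} (hX : 2 ≤ X) : Real.log 2 ≤ Real.log X :=
  Real.log_le_log (by norm_num) (by exact_mod_cast hX)

/-- the parameter `(log n) ^ t` -/
theorem fewU_of_bad {Bad : ℕ → ℕ → Prop} (hmono : ∀ D D' n, D ≤ D' → Bad D n → Bad D' n) {C a b : ℝ} (ha : 0 ≤ a)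
    (h : ∀ X D : ℕ, 2 ≤ X → 1 ≤ D → ∀ F : Finset ℕ, (∀ n ∈ F, 1 ≤ n ∧ n ≤ X ∧ Bad D n) →
      (F.card : ℝ) ≤ C * (D : ℝ) ^ a * (X / Real.log X ^ b)) {t : ℝ} (ht : 0 ≤ t) :
    LogFewU (b - t * a) (fun n => Bad ⌊Real.log n ^ t⌋₊ n) := by
  have hlog2 : 0 < Real.log 2 := Real.log_pos (by norm_num)
  refine ⟨|C| * (2 + Real.log 2 ^ (-t)) ^ a, fun X hX F hF => ?_⟩
  have hL := log2_le hX
  have hL0 : 0 < Real.log X := lt_of_lt_of_le hlog2 hL
  have hX0 : (0 : ℝ) < X := by exact_mod_cast (by omega : 0 < X)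
  have hLt : 0 < Real.log X ^ t := by positivity
  have h1 := h X (⌊Real.log X ^ t⌋₊ + 1) hX (by omega) F fun n hn => by
    obtain ⟨h1, h2, h3⟩ := hF n hn
    refine ⟨h1, h2, hmono _ _ _ ?_ h3⟩
    refine (Nat.floor_le_floor ?_).trans (Nat.le_succ _)
    exact Real.rpow_le_rpow (Real.log_nonneg (by exact_mod_cast h1))
      (Real.log_le_log (by exact_mod_cast h1) (by exact_mod_cast h2)) ht
  refine h1.trans ?_
  have h2 : ((⌊Real.log X ^ t⌋₊ + 1 : ℕ) : ℝ) ≤ (2 + Real.log 2 ^ (-t)) * Real.log X ^ t := by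
    push_cast
    have h3 := Nat.floor_le hLt.le
    have h4 : 1 ≤ Real.log 2 ^ (-t) * Real.log X ^ t := by
      rw [Real.rpow_neg hlog2.le, inv_mul_eq_div, one_le_div (by positivity)]
      exact Real.rpow_le_rpow hlog2.le hL ht
    nlinarith
  have h3 : ((⌊Real.log X ^ t⌋₊ + 1 : ℕ) : ℝ) ^ a ≤ (2 + Real.log 2 ^ (-t)) ^ a * Real.log X ^ (t * a) := by
    rw [Real.rpow_mul hL0.le, ← Real.mul_rpow (by positivity) (by positivity)]
    exact Real.rpow_le_rpow (by positivity) h2 ha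
  have hq : 0 ≤ (X : ℝ) / Real.log X ^ b := by positivity
  calc C * ((⌊Real.log X ^ t⌋₊ + 1 : ℕ) : ℝ) ^ a * (X / Real.log X ^ b)
      ≤ |C| * ((⌊Real.log X ^ t⌋₊ + 1 : ℕ) : ℝ) ^ a * (X / Real.log X ^ b) := by
        refine mul_le_mul_of_nonneg_right (mul_le_mul_of_nonneg_right (le_abs_self C) (by positivity)) hq
    _ ≤ |C| * ((2 + Real.log 2 ^ (-t)) ^ a * Real.log X ^ (t * a)) * (X / Real.log X ^ b) :=
        mul_le_mul_of_nonneg_right (mul_le_mul_of_nonneg_left h3 (abs_nonneg C)) hq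
    _ = |C| * (2 + Real.log 2 ^ (-t)) ^ a * X / Real.log X ^ (b - t * a) := by
        rw [Real.rpow_sub hL0]
        field_simp

/-- the parameter `(log n) / 25` -/
theorem fewU_of_small {Bad : ℕ → ℕ → Prop} (hmono : ∀ D D' n, D ≤ D' → Bad D n → Bad D' n) {C U : ℝ} (hU : 0 ≤ U)
    (h : ∀ X D : ℕ, 2 ≤ X → 2 ≤ D → (D : ℝ) ≤ Real.log X / 24 → ∀ F : Finset ℕ,
      (∀ n ∈ F, 1 ≤ n ∧ n ≤ X ∧ Bad D n) → (F.card : ℝ) ≤ C * X / Real.log X ^ U) :
    LogFewU U (fun n => Bad ⌊Real.log n / 25⌋₊ n) := by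
  have hlog2 : 0 < Real.log 2 := Real.log_pos (by norm_num)
  refine ⟨|C| + 1200 ^ U, fun X hX F hF => ?_⟩
  have hL := log2_le hX
  have hL0 : 0 < Real.log X := lt_of_lt_of_le hlog2 hL
  have hX0 : (0 : ℝ) < X := by exact_mod_cast (by omega : 0 < X)
  have hLU : 0 < Real.log X ^ U := by positivity
  rcases lt_or_ge (Real.log X) 1200 with hlt | hge
  · have h1 : (F.card : ℝ) ≤ X := by
      have h2 : F ⊆ Finset.Icc 1 X := fun n hn => Finset.mem_Icc.2 ⟨(hF n hn).1, (hF n hn).2.1⟩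
      have h3 := Finset.card_le_card h2
      rw [Nat.card_Icc] at h3
      have h4 : F.card ≤ X := by omega
      exact_mod_cast h4
    have h2 : Real.log X ^ U ≤ 1200 ^ U := Real.rpow_le_rpow hL0.le hlt.le hU
    rw [le_div_iff₀ hLU]
    calc (F.card : ℝ) * Real.log X ^ U ≤ X * 1200 ^ U := mul_le_mul h1 h2 (by positivity) (by positivity)
      _ ≤ (|C| + 1200 ^ U) * X := by nlinarith [abs_nonneg C]
  · have h1 := h X (⌊Real.log X / 25⌋₊ + 2) hX (by omega) (by
      push_cast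
      have := Nat.floor_le (show 0 ≤ Real.log X / 25 by positivity)
      linarith) F fun n hn => by
        obtain ⟨h1, h2, h3⟩ := hF n hn
        refine ⟨h1, h2, hmono _ _ _ ?_ h3⟩
        refine (Nat.floor_le_floor ?_).trans (Nat.le_add_right _ _)
        have := Real.log_le_log (show (0 : ℝ) < n by exact_mod_cast h1) (show (n : ℝ) ≤ X by exact_mod_cast h2)
        linarith
    refine h1.trans ?_
    have h3 : C ≤ |C| + 1200 ^ U := (le_abs_self C).trans (by
      have : (0 : ℝ) ≤ 1200 ^ U := by positivity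
      linarith)
    gcongr

/-- powers of the iterated logarithm -/
lemma loglog_le (k : ℕ) {b U : ℝ} (hU : U < b) : ∃ C : ℝ, 0 ≤ C ∧ ∀ L : ℝ, 1 ≤ L →
    Real.log L ^ k / L ^ b ≤ C / L ^ U := by
  have hη : 0 < (b - U) / (k + 1) := by
    have : (0 : ℝ) < (k : ℝ) + 1 := by positivity
    exact div_pos (by linarith) this
  refine ⟨(1 / ((b - U) / (k + 1))) ^ k, by positivity, fun L hL => ?_⟩
  have hL0 : 0 < L := by linarith
  have h1 : Real.log L ≤ 1 / ((b - U) / (k + 1)) * L ^ ((b - U) / (k + 1)) := by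
    refine (Real.log_le_rpow_div hL0.le hη).trans (le_of_eq (by ring))
  have h2 : Real.log L ^ k ≤ (1 / ((b - U) / (k + 1))) ^ k * L ^ (b - U) := by
    refine (pow_le_pow_left₀ (Real.log_nonneg hL) h1 k).trans ?_
    rw [mul_pow]
    refine mul_le_mul_of_nonneg_left ?_ (by positivity)
    rw [← Real.rpow_natCast, ← Real.rpow_mul hL0.le]
    refine Real.rpow_le_rpow_of_exponent_le hL ?_
    have hk : (0 : ℝ) < (k : ℝ) + 1 := by positivity
    rw [div_mul_eq_mul_div, div_le_iff₀ hk]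
    nlinarith
  rw [div_le_div_iff₀ (by positivity) (by positivity)]
  calc Real.log L ^ k * L ^ U ≤ (1 / ((b - U) / (k + 1))) ^ k * L ^ (b - U) * L ^ U :=
        mul_le_mul_of_nonneg_right h2 (by positivity)
    _ = (1 / ((b - U) / (k + 1))) ^ k * L ^ b := by
        rw [mul_assoc, ← Real.rpow_add hL0]
        congr 2
        ring

/-- a union of two sets -/
lemma LogFewU.or {U V : ℝ} {B B' : ℕ → Prop} (h : LogFewU U B) (h' : LogFewU V B') (hUV : U ≤ V) :
    LogFewU U (fun n => B n ∨ B' n) := by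
  classical
  obtain ⟨C, hC⟩ := h
  obtain ⟨C', hC'⟩ := h'
  have hlog2 : 0 < Real.log 2 := Real.log_pos (by norm_num)
  refine ⟨C + |C'| * (Real.log 2) ^ (U - V), fun X hX F hF => ?_⟩
  have hL := log2_le hX
  have hL0 : 0 < Real.log X := lt_of_lt_of_le hlog2 hL
  have hX0 : (0 : ℝ) < X := by exact_mod_cast (by omega : 0 < X)
  have h1 := hC X hX (F.filter B) fun n hn => by
    rw [Finset.mem_filter] at hn
    exact ⟨(hF n hn.1).1, (hF n hn.1).2.1, hn.2⟩
  have h2 := hC' X hX (F.filter fun n => ¬ B n) fun n hn => by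
    rw [Finset.mem_filter] at hn
    exact ⟨(hF n hn.1).1, (hF n hn.1).2.1, (hF n hn.1).2.2.resolve_left hn.2⟩
  have h3 : (F.card : ℝ) = (F.filter B).card + (F.filter fun n => ¬ B n).card := by
    exact_mod_cast (Finset.card_filter_add_card_filter_not _).symm
  have h4 : C' * (X : ℝ) / Real.log X ^ V ≤ |C'| * Real.log 2 ^ (U - V) * X / Real.log X ^ U := by
    have e : Real.log X ^ V = Real.log X ^ U * Real.log X ^ (V - U) := by
      rw [← Real.rpow_add hL0]
      congr 1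
      ring
    have h5 : Real.log 2 ^ (V - U) ≤ Real.log X ^ (V - U) := Real.rpow_le_rpow hlog2.le hL (by linarith)
    have h6 : Real.log 2 ^ (U - V) = (Real.log 2 ^ (V - U))⁻¹ := by
      rw [← Real.rpow_neg hlog2.le]
      congr 1
      ring
    rw [e, h6, div_le_div_iff₀ (by positivity) (by positivity)]
    have h7 : (0 : ℝ) < Real.log 2 ^ (V - U) := by positivity
    have h8 : (0 : ℝ) < Real.log X ^ U := by positivity
    calc C' * (X : ℝ) * Real.log X ^ U ≤ |C'| * X * Real.log X ^ U :=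
          mul_le_mul_of_nonneg_right (mul_le_mul_of_nonneg_right (le_abs_self C') hX0.le) h8.le
      _ = |C'| * (Real.log 2 ^ (V - U))⁻¹ * X * (Real.log X ^ U * Real.log 2 ^ (V - U)) := by
          field_simp
      _ ≤ _ := by gcongr
  rw [h3]
  calc ((F.filter B).card : ℝ) + (F.filter fun n => ¬ B n).card
      ≤ C * (X : ℝ) / Real.log X ^ U + |C'| * Real.log 2 ^ (U - V) * X / Real.log X ^ U :=
        add_le_add h1 (h2.trans h4)
    _ = _ := by ring

/-- a smaller exponent -/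
lemma LogFewU.mono {U V : ℝ} {B : ℕ → Prop} (h : LogFewU V B) (hUV : U ≤ V) : LogFewU U B := by
  have h0 : LogFewU U (fun _ => False) := ⟨0, fun X _ F hF => by
    have : F = ∅ := Finset.eq_empty_of_forall_notMem fun n hn => (hF n hn).2.2
    rw [this]
    simp⟩
  obtain ⟨C, hC⟩ := h0.or h hUV
  exact ⟨C, fun X hX F hF => hC X hX F fun n hn => ⟨(hF n hn).1, (hF n hn).2.1, Or.inr (hF n hn).2.2⟩⟩

end Pool.Agent.Q44.CF
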