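import Pool.Agent.Q25.UReg6

set_option autoImplicit false

/-!
# Pairs of linear forms at `s` prescribed places: the laws, uniformly in the places

`s` pairs of forms `α 0 (m + w i) + β i 0`, `α 1 (m + w i) + β i 1`, `i < s`, with fixed `α`, `β` and places `w i` which may be as
large as a power of `X`.
-/

namespace Pool.Agent.Q44.Pairs

open Finset
open Pool.Agent.Q25.UReg (Good V count pois PoissonLaw GapLaw N RightOrder ConstantDensity badScales Irregular)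

/-- the coefficient of `m` in the form with the index `(i, j)` -/
def co (s : ℕ) (α : Fin 2 → ℕ) (e : Fin (s * 2)) : ℤ := α (finProdFinEquiv.symm e).2

/-- the constant term of the form with the index `(i, j)` -/
def ct {s : ℕ} (α : Fin 2 → ℕ) (β : Fin s → Fin 2 → ℤ) (w : Fin s → ℕ) (e : Fin (s * 2)) : ℤ :=
  α (finProdFinEquiv.symm e).2 * w (finProdFinEquiv.symm e).1 +
    β (finProdFinEquiv.symm e).1 (finProdFinEquiv.symm e).2

/-- `m` is good iff none of the `2s` numbers has a prime factor `≤ X ^ (1/r)` -/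
lemma good_iff {s : ℕ} (α : Fin 2 → ℕ) (β : Fin s → Fin 2 → ℤ) (w : Fin s → ℕ) (r X m : ℕ) :
    Good (co s α) (ct α β w) r X m ↔ ∀ p : ℕ, p.Prime → (p : ℝ) ≤ (X : ℝ) ^ (1 / (r : ℝ)) →
      ∀ i j, ¬ (p : ℤ) ∣ α j * ((m : ℤ) + w i) + β i j := by
  unfold Good
  refine forall_congr' fun p => forall_congr' fun _ => forall_congr' fun _ => ?_
  constructor
  · intro h i j
    have h1 := h (finProdFinEquiv (i, j))
    unfold co ct at h1
    rw [Equiv.symm_apply_apply] at h1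
    intro h2
    apply h1
    have e : (α j : ℤ) * m + (α j * w i + β i j) = α j * ((m : ℤ) + w i) + β i j := by ring
    rw [e]
    exact h2
  · intro h e h2
    refine h (finProdFinEquiv.symm e).1 (finProdFinEquiv.symm e).2 ?_
    unfold co ct at h2
    have e1 : (α (finProdFinEquiv.symm e).2 : ℤ) * ((m : ℤ) + w (finProdFinEquiv.symm e).1) +
        β (finProdFinEquiv.symm e).1 (finProdFinEquiv.symm e).2 = (α (finProdFinEquiv.symm e).2 : ℤ) * m +
        (α (finProdFinEquiv.symm e).2 * w (finProdFinEquiv.symm e).1 +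
          β (finProdFinEquiv.symm e).1 (finProdFinEquiv.symm e).2) := by ring
    rw [e1]
    exact h2

/-- the conditions on the fixed data -/
structure Data {s : ℕ} (α : Fin 2 → ℕ) (β : Fin s → Fin 2 → ℤ) : Prop where
  pos : ∀ j, 1 ≤ α j
  cop : ∀ i j, IsCoprime (α j : ℤ) (β i j)
  ntr : ∀ i j j', j ≠ j' → α j = α j' → ¬ (α j : ℤ) ∣ β i j - β i j'
  sml : ∀ p : ℕ, p.Prime → p ≤ 2 * s → ∃ m : ℤ, ∀ i j, ¬ (p : ℤ) ∣ α j * m + β i j

lemma adm {s : ℕ} {α : Fin 2 → ℕ} {β : Fin s → Fin 2 → ℤ} (h : Data α β) (w : Fin s → ℕ)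
    (hw : ∀ i, (2 * s).factorial ∣ w i) (p : ℕ) (hp : p.Prime) :
    ∃ m : ℤ, ∀ e, ¬ (p : ℤ) ∣ co s α e * m + ct α β w e := by
  rcases lt_or_ge (2 * s) p with h2 | h2
  · apply Pool.Agent.Q25.UReg.adm_small (co s α) (ct α β w) p hp (by omega)
    intro e h3
    obtain ⟨h4, h5⟩ := h3
    unfold co at h4
    unfold ct at h5
    have h6 := (dvd_add_right (h4.mul_right _)).1 h5
    obtain ⟨u, v, huv⟩ := h.cop (finProdFinEquiv.symm e).1 (finProdFinEquiv.symm e).2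
    have h7 : (p : ℤ) ∣ 1 := by
      rw [← huv]
      exact dvd_add (h4.mul_left _) (h6.mul_left _)
    exact hp.one_lt.ne' (Nat.dvd_one.1 (by exact_mod_cast h7))
  · obtain ⟨m, hm⟩ := h.sml p hp h2
    refine ⟨m, fun e h3 => hm (finProdFinEquiv.symm e).1 (finProdFinEquiv.symm e).2 ?_⟩
    have h4 : (p : ℤ) ∣ w (finProdFinEquiv.symm e).1 := by
      exact_mod_cast (Nat.dvd_factorial hp.pos h2).trans (hw _)
    unfold co ct at h3
    have e1 : (α (finProdFinEquiv.symm e).2 : ℤ) * m + β (finProdFinEquiv.symm e).1 (finProdFinEquiv.symm e).2 =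
        ((α (finProdFinEquiv.symm e).2 : ℤ) * m + (α (finProdFinEquiv.symm e).2 * w (finProdFinEquiv.symm e).1 +
          β (finProdFinEquiv.symm e).1 (finProdFinEquiv.symm e).2)) -
          α (finProdFinEquiv.symm e).2 * w (finProdFinEquiv.symm e).1 := by ring
    rw [e1]
    exact dvd_sub h3 (h4.mul_left _)

lemma two {s : ℕ} (hs : 1 ≤ s) {α : Fin 2 → ℕ} {β : Fin s → Fin 2 → ℤ} (h : Data α β) (w : Fin s → ℕ) :
    Pool.Agent.Q25.UReg.TwoForms (co s α) (ct α β w) := by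
  refine ⟨finProdFinEquiv (⟨0, by omega⟩, 0), finProdFinEquiv (⟨0, by omega⟩, 1), ?_, ?_⟩
  · unfold co ct
    rw [Equiv.symm_apply_apply, Equiv.symm_apply_apply]
    rintro ⟨h1, h2⟩
    simp only at h1 h2
    have h3 : α 0 = α 1 := by exact_mod_cast h1
    apply h.ntr ⟨0, by omega⟩ 0 1 (by decide) h3
    rw [h1] at h2
    have h4 : β ⟨0, by omega⟩ 0 - β ⟨0, by omega⟩ 1 = 0 := by linarith
    rw [h4]
    exact dvd_zero _
  · unfold co ct
    rw [Equiv.symm_apply_apply, Equiv.symm_apply_apply]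
    rintro ⟨h1, -⟩
    simp only at h1
    have h2 := h.pos 0
    have h3 := h.pos 1
    omega

lemma noTr {s : ℕ} {α : Fin 2 → ℕ} {β : Fin s → Fin 2 → ℤ} (h : Data α β) (M : ℕ) (hM : ∀ i j, |β i j| ≤ M)
    (w : Fin s → ℕ) (U : ℝ) (hw : ∀ i i', i ≠ i' → U + 2 * M < |(w i : ℝ) - w i'|) :
    Pool.Agent.Q25.UReg.NoTranslates2 (co s α) (ct α β w) U := by
  intro e e' t ht htU
  have ht' : (1 : ℤ) ≤ t := by exact_mod_cast ht
  obtain ⟨⟨i, j⟩, hij⟩ : ∃ x, x = finProdFinEquiv.symm e := ⟨_, rfl⟩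
  obtain ⟨⟨i', j'⟩, hij'⟩ : ∃ x, x = finProdFinEquiv.symm e' := ⟨_, rfl⟩
  unfold co ct
  rw [← hij, ← hij']
  simp only
  have hp := h.pos j
  have hp' := h.pos j'
  refine ⟨fun h1 => ?_, fun h1 => ?_⟩
  · obtain ⟨h2, h3⟩ := h1
    have h4 : α j = α j' := by exact_mod_cast h2
    rw [← h2] at h3
    by_cases hi : i = i'
    · subst hi
      by_cases hj : j = j'
      · subst hj
        have : (0 : ℤ) < (α j : ℤ) * t := by positivity
        omega
      · apply h.ntr i j j' hj h4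
        refine ⟨t, ?_⟩
        linarith
    · have h5 := hw i i' hi
      have h6 : (α j : ℤ) * ((w i : ℤ) - w i' - t) = β i' j' - β i j := by linarith
      have h7 : |(w i : ℤ) - w i' - t| ≤ 2 * M := by
        have h8 : |(α j : ℤ) * ((w i : ℤ) - w i' - t)| ≤ 2 * M := by
          rw [h6]
          have h9 := hM i' j'
          have h10 := hM i j
          rw [abs_le] at h9 h10 ⊢
          constructor <;> linarith
        rw [abs_mul] at h8
        have h9 : (1 : ℤ) ≤ |(α j : ℤ)| := by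
          rw [abs_of_nonneg (by positivity)]
          exact_mod_cast hp
        have h10 := abs_nonneg ((w i : ℤ) - w i' - t)
        nlinarith
      have h8 : |(w i : ℝ) - w i' - t| ≤ 2 * M := by exact_mod_cast h7
      have h9 : |(w i : ℝ) - w i'| ≤ |(w i : ℝ) - w i' - t| + |(t : ℝ)| := by
        have := abs_add_le ((w i : ℝ) - w i' - t) (t : ℝ)
        rwa [sub_add_cancel] at this
      rw [abs_of_nonneg (by positivity : (0 : ℝ) ≤ t)] at h9
      linarith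
  · have h2 := h1.1
    omega

/-- **The laws.** -/
theorem laws {s : ℕ} (hs : 1 ≤ s) {α : Fin 2 → ℕ} {β : Fin s → Fin 2 → ℤ} (h : Data α β) (E η θ : ℝ) (hE : 0 < E)
    (hη : 0 < η) (hθ : 0 < θ) :
    (∀ (l₀ : ℕ) (x₀ ε : ℝ), 0 < ε → ∃ r₀ : ℕ, ∀ r : ℕ, r₀ ≤ r → ∃ X₀ : ℕ, ∀ X : ℕ, X₀ ≤ X →
      ∀ w : Fin s → ℕ, (∀ i, (2 * s).factorial ∣ w i ∧ (w i : ℝ) ≤ (X : ℝ) ^ E) →
        (∀ i i', i ≠ i' → (X : ℝ) ^ η ≤ |(w i : ℝ) - w i'|) → ∀ Z Y : ℕ, (X : ℝ) ^ θ ≤ Y →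
          PoissonLaw (co s α) (ct α β w) r X Z Y x₀ ε ∧ GapLaw (co s α) (ct α β w) r X Z Y l₀ x₀ ε) ∧
    ∃ r₀ : ℕ, ∀ r : ℕ, r₀ ≤ r → ∀ ε : ℝ, 0 < ε → ∃ c : ℝ, 0 < c ∧ ∀ δ : ℝ, 0 < δ → ∃ B X₀ : ℕ,
      ∀ X : ℕ, X₀ ≤ X → ∀ w : Fin s → ℕ, (∀ i, (2 * s).factorial ∣ w i ∧ (w i : ℝ) ≤ (X : ℝ) ^ E) →
        ∀ u Y : ℕ, (X : ℝ) ^ θ ≤ Y → Y ≤ X → Y ≤ u →
        ∀ A : Set ℕ, (∀ m ∈ A, Good (co s α) (ct α β w) r X m) →
          (N (Irregular A (V (co s α) (ct α β w) r X) c δ B Y) u (u + Y) : ℝ) ≤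
            ε * (Y * V (co s α) (ct α β w) r X) := by
  obtain ⟨M, hM⟩ : ∃ M : ℕ, ∀ i j, |β i j| ≤ M := by
    refine ⟨∑ i, ∑ j, (β i j).natAbs, fun i j => ?_⟩
    rw [Int.abs_eq_natAbs]
    have h1 : (β i j).natAbs ≤ ∑ j, (β i j).natAbs :=
      single_le_sum (f := fun j => (β i j).natAbs) (fun _ _ => Nat.zero_le _) (mem_univ j)
    have h2 : ∑ j, (β i j).natAbs ≤ ∑ i, ∑ j, (β i j).natAbs :=
      single_le_sum (f := fun i => ∑ j, (β i j).natAbs) (fun _ _ => Nat.zero_le _) (mem_univ i)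
    exact_mod_cast h1.trans h2
  obtain ⟨L, hL⟩ : ∃ L : ℕ, ∀ j, α j ≤ L :=
    ⟨∑ j, α j, fun j => single_le_sum (f := α) (fun _ _ => Nat.zero_le _) (mem_univ j)⟩
  have hne : ∀ e, co s α e ≠ 0 := by
    intro e
    have := h.pos (finProdFinEquiv.symm e).2
    unfold co
    omega
  have hb : ∀ X : ℕ, L + M + 1 ≤ X → ∀ w : Fin s → ℕ, (∀ i, (w i : ℝ) ≤ (X : ℝ) ^ E) →
      (∀ e, |(co s α e : ℝ)| ≤ (X : ℝ) ^ (E + 1)) ∧ ∀ e, |(ct α β w e : ℝ)| ≤ (X : ℝ) ^ (E + 1) := by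
    intro X hX w hw
    have hX1 : (L : ℝ) + M + 1 ≤ X := by exact_mod_cast hX
    have hL0 : (0 : ℝ) ≤ L := by positivity
    have hM0 : (0 : ℝ) ≤ M := by positivity
    have hXE : (1 : ℝ) ≤ (X : ℝ) ^ E := Real.one_le_rpow (by linarith) hE.le
    have e1 : (X : ℝ) ^ (E + 1) = (X : ℝ) ^ E * X := by
      rw [Real.rpow_add (by linarith), Real.rpow_one]
    constructor
    · intro e
      unfold co
      push_cast
      rw [abs_of_nonneg (by positivity), e1]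
      have h1 : (α (finProdFinEquiv.symm e).2 : ℝ) ≤ L := by exact_mod_cast hL _
      nlinarith
    · intro e
      unfold ct
      push_cast
      have h1 : (α (finProdFinEquiv.symm e).2 : ℝ) ≤ L := by exact_mod_cast hL _
      have h2 := hw (finProdFinEquiv.symm e).1
      have h3 : |((β (finProdFinEquiv.symm e).1 (finProdFinEquiv.symm e).2 : ℤ) : ℝ)| ≤ M := by
        exact_mod_cast hM (finProdFinEquiv.symm e).1 (finProdFinEquiv.symm e).2
      have h4 : (α (finProdFinEquiv.symm e).2 : ℝ) * w (finProdFinEquiv.symm e).1 ≤ L * (X : ℝ) ^ E :=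
        mul_le_mul h1 h2 (by positivity) hL0
      have h5 : (0 : ℝ) ≤ (α (finProdFinEquiv.symm e).2 : ℝ) * w (finProdFinEquiv.symm e).1 := by positivity
      refine (abs_add_le _ _).trans ?_
      rw [abs_of_nonneg h5, e1]
      nlinarith [mul_le_mul_of_nonneg_left hX1 (by linarith : (0 : ℝ) ≤ (X : ℝ) ^ E), mul_nonneg hM0 (by linarith : (0 : ℝ) ≤ (X : ℝ) ^ E - 1)]
  have hbig : ∀ᶠ X : ℕ in Filter.atTop, (X : ℝ) ^ (η / 2) + 2 * M < (X : ℝ) ^ η := by
    have h1 : Filter.Tendsto (fun X : ℕ => (X : ℝ) ^ (η / 2)) Filter.atTop Filter.atTop :=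
      (tendsto_rpow_atTop (by linarith)).comp tendsto_natCast_atTop_atTop
    filter_upwards [h1.eventually_ge_atTop ((2 * M : ℝ) + 2), Filter.eventually_ge_atTop 1] with X hX hX1
    have hX0 : (0 : ℝ) < X := by exact_mod_cast hX1
    have e : (X : ℝ) ^ η = (X : ℝ) ^ (η / 2) * (X : ℝ) ^ (η / 2) := by
      rw [← Real.rpow_add hX0]
      congr 1
      ring
    rw [e]
    have hf : (0 : ℝ) ≤ M := by positivity
    nlinarith
  constructor
  · intro l₀ x₀ ε hε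
    obtain ⟨r₀, _, h1⟩ := Pool.Agent.Q25.UReg.lin_laws2 (s * 2) (E + 1) (η / 2) θ (by linarith) (by linarith) hθ
      l₀ x₀ ε hε
    refine ⟨r₀, fun r hr => ?_⟩
    obtain ⟨X₀, hX₀⟩ := Filter.eventually_atTop.1
      (((h1 r hr).and (Filter.eventually_ge_atTop (L + M + 1))).and hbig)
    refine ⟨X₀, fun X hX w hw hww Z Y hY => ?_⟩
    obtain ⟨⟨h2, h3⟩, h4⟩ := hX₀ X hX
    have hb' := hb X h3 w (fun i => (hw i).2)
    exact h2 (co s α) (ct α β w) hne hb'.1 hb'.2 (adm h w (fun i => (hw i).1)) (two hs h w)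
      (noTr h M hM w _ (fun i i' hi => lt_of_lt_of_le h4 (hww i i' hi))) Z Y hY
  · obtain ⟨r₀, _, h1⟩ := Pool.Agent.Q25.UReg.lin_reg2 (s * 2) (E + 1) θ (by linarith) hθ
    refine ⟨r₀, fun r hr ε hε => ?_⟩
    obtain ⟨c, hc, h2⟩ := h1 r hr ε hε
    refine ⟨c, hc, fun δ hδ => ?_⟩
    obtain ⟨B, hB⟩ := h2 δ hδ
    obtain ⟨X₀, hX₀⟩ := Filter.eventually_atTop.1 (hB.and (Filter.eventually_ge_atTop (L + M + 1)))
    refine ⟨B, X₀, fun X hX w hw u Y hXY hYX hYu A hA => ?_⟩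
    obtain ⟨h3, h4⟩ := hX₀ X hX
    have hb' := hb X h4 w (fun i => (hw i).2)
    exact h3 (co s α) (ct α β w) hne hb'.1 hb'.2 (adm h w (fun i => (hw i).1)) (two hs h w) u Y hXY hYX hYu A hA

end Pool.Agent.Q44.Pairs
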