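import Pool.Agent.Q44.LiouvT

set_option autoImplicit false

/-! Sign patterns of the Liouville function at the shifts given by rational approximations. -/

namespace Pool.Agent.Q44.PT

open Finset Polynomial
open Pool.Agent.Q25.TPol (lam lam_prod)
open Pool.Agent.Q44.CF (box mem_box cnt)
open Pool.Agent.Q44.LT

/-- All patterns of signs have the expected frequency among the values `λ(n + b_i)`, in all intervals `(L, M]` with
`S / (log S) ^ K ≤ L ≤ M ≤ S (log S) ^ K`. -/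
def Equi (K U : ℕ) {k : ℕ} (S : ℝ) (b : Fin (k + 1) → ℤ) : Prop :=
  ∀ ε : Fin (k + 1) → ℤ, (∀ i, ε i = 1 ∨ ε i = -1) → ∀ L M : ℕ, S ≤ Real.log S ^ K * L → L ≤ M →
    (M : ℝ) ≤ Real.log S ^ K * S →
      |(((Ioc L M).filter fun n : ℕ => ∀ i, lam (n + b i) = ε i).card : ℝ) - ((M : ℝ) - L) / 2 ^ (k + 1)| ≤
        M / Real.log S ^ U

lemma lam_cases (z : ℤ) : lam z = 0 ∨ lam z = 1 ∨ lam z = -1 := by
  unfold lam
  split_ifs
  · exact Or.inl rfl
  · exact Or.inr (neg_one_pow_eq_or ℤ _)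

lemma lam_eq_zero {z : ℤ} (h : lam z = 0) : z = 0 := by
  by_contra hz
  unfold lam at h
  rw [if_neg hz] at h
  exact (pow_ne_zero _ (by norm_num)) h

/-- the indicator function of the pattern -/
lemma ind {k : ℕ} (ε l : Fin (k + 1) → ℤ) (hε : ∀ i, ε i = 1 ∨ ε i = -1) (hl : ∀ i, l i = 0 ∨ l i = 1 ∨ l i = -1) :
    |(if ∀ i, l i = ε i then (1 : ℝ) else 0) - ∏ i, ((1 + (ε i : ℝ) * l i) / 2)| ≤ if ∃ i, l i = 0 then 1 else 0 := by
  have hfac : ∀ i, 0 ≤ (1 + (ε i : ℝ) * l i) / 2 ∧ (1 + (ε i : ℝ) * l i) / 2 ≤ 1 := by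
    intro i
    rcases hε i with h | h <;> rcases hl i with h' | h' | h' <;> rw [h, h'] <;> norm_num
  by_cases h0 : ∃ i, l i = 0
  · rw [if_pos h0, if_neg]
    · have h1 : 0 ≤ ∏ i, ((1 + (ε i : ℝ) * l i) / 2) := prod_nonneg fun i _ => (hfac i).1
      have h2 : ∏ i, ((1 + (ε i : ℝ) * l i) / 2) ≤ 1 := prod_le_one (fun i _ => (hfac i).1) fun i _ => (hfac i).2
      rw [zero_sub, abs_neg, abs_of_nonneg h1]
      exact h2
    · intro hall
      obtain ⟨i, hi⟩ := h0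
      have := hall i
      rw [hi] at this
      rcases hε i with h | h <;> rw [h] at this <;> norm_num at this
  · rw [if_neg h0]
    push Not at h0
    by_cases hall : ∀ i, l i = ε i
    · rw [if_pos hall, prod_eq_one, sub_self, abs_zero]
      intro i _
      rw [hall i]
      rcases hε i with h | h <;> rw [h] <;> norm_num
    · rw [if_neg hall]
      push Not at hall
      obtain ⟨i, hi⟩ := hall
      rw [prod_eq_zero (mem_univ i), sub_self, abs_zero]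
      rcases hε i with h | h <;> rcases hl i with h' | h' | h' <;> rw [h, h'] <;>
        first | (exact absurd h' (h0 i)) | (exact absurd (h'.trans h.symm) hi) | norm_num

/-- the sums of the products -/
lemma sums {k K U : ℕ} {S : ℝ} {b : Fin (k + 1) → ℤ} (hS : 3 ≤ S) (h : Good 1 (fun _ => 1) K U S b)
    (J : Finset (Fin (k + 1))) (hJ : J.Nonempty) (M : ℕ) (h1 : S ≤ Real.log S ^ K * M)
    (h2 : (M : ℝ) ≤ Real.log S ^ K * S) :
    |∑ n ∈ Icc 1 M, ∏ i ∈ J, (lam ((n : ℤ) + b i) : ℝ)| ≤ M / Real.log S ^ U := by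
  have hl : 1 ≤ Real.log S := by
    have h3 : Real.log (Real.exp 1) ≤ Real.log S :=
      Real.log_le_log (Real.exp_pos 1) (by linarith [Real.exp_one_lt_d9])
    rwa [Real.log_exp] at h3
  have h4 := h (fun _ => 1) (fun i => ⟨le_rfl, by rw [Nat.cast_one]; exact one_le_pow₀ hl⟩) J hJ M h1 h2
  refine le_trans (le_of_eq ?_) h4
  rw [← Real.norm_eq_abs, ← Complex.norm_real]
  congr 1
  push_cast
  refine sum_congr rfl fun n _ => ?_
  rw [one_mul, one_mul, eval_prod, lam_prod]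
  push_cast
  refine prod_congr rfl fun i _ => ?_
  rw [eval_add, eval_mul, eval_C, eval_X, eval_C]
  simp

theorem equi_of {k K U : ℕ} {S : ℝ} {b : Fin (k + 1) → ℤ} (hS : 3 ≤ S) (hl2 : 2 ≤ Real.log S)
    (hk : 2 * ((k : ℝ) + 1) * Real.log S ^ (K + U) ≤ S) (h : Good 1 (fun _ => 1) K (U + 2) S b) : Equi K U S b := by
  intro ε hε L M h1 hLM h2
  obtain ⟨ℓ, hℓ⟩ : ∃ ℓ, ℓ = Real.log S := ⟨_, rfl⟩
  have hℓ2 : 2 ≤ ℓ := by rw [hℓ]; exact hl2
  have hℓ0 : 0 < ℓ := by linarith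
  have hLMr : (L : ℝ) ≤ M := by exact_mod_cast hLM
  have hM1 : S ≤ Real.log S ^ K * M := h1.trans (mul_le_mul_of_nonneg_left hLMr (by positivity))
  have hL2 : (L : ℝ) ≤ Real.log S ^ K * S := hLMr.trans h2
  -- the sum of the products over the interval
  have hsum : ∀ J : Finset (Fin (k + 1)), J.Nonempty →
      |∑ n ∈ Ioc L M, ∏ i ∈ J, (lam ((n : ℤ) + b i) : ℝ)| ≤ 2 * (M / Real.log S ^ (U + 2)) := by
    intro J hJ
    have h3 := sums hS h J hJ M hM1 h2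
    have h4 := sums hS h J hJ L h1 hL2
    have h5 : ∑ n ∈ Icc 1 M, ∏ i ∈ J, (lam ((n : ℤ) + b i) : ℝ) =
        ∑ n ∈ Icc 1 L, ∏ i ∈ J, (lam ((n : ℤ) + b i) : ℝ) + ∑ n ∈ Ioc L M, ∏ i ∈ J, (lam ((n : ℤ) + b i) : ℝ) := by
      rw [← sum_union]
      · congr 1
        ext n
        simp only [mem_union, mem_Icc, mem_Ioc]
        omega
      · rw [disjoint_left]
        intro n
        simp only [mem_Icc, mem_Ioc]
        omega
    have h6 : (L : ℝ) / Real.log S ^ (U + 2) ≤ M / Real.log S ^ (U + 2) :=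
      div_le_div_of_nonneg_right hLMr (by positivity)
    rw [h5] at h3
    have h7 := abs_le.1 h3
    have h8 := abs_le.1 h4
    rw [abs_le]
    constructor <;> linarith [h7.1, h7.2, h8.1, h8.2]
  -- the number of zeros
  have hzero : (((Ioc L M).filter fun n : ℕ => ∃ i, lam ((n : ℤ) + b i) = 0).card : ℝ) ≤ (k : ℝ) + 1 := by
    have h3 : ((Ioc L M).filter fun n : ℕ => ∃ i, lam ((n : ℤ) + b i) = 0) ⊆
        univ.image (fun i : Fin (k + 1) => (-b i).toNat) := by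
      intro n hn
      rw [mem_filter] at hn
      obtain ⟨_, i, hi⟩ := hn
      rw [mem_image]
      refine ⟨i, mem_univ _, ?_⟩
      have := lam_eq_zero hi
      omega
    have h4 := (card_le_card h3).trans card_image_le
    rw [card_univ, Fintype.card_fin] at h4
    exact_mod_cast h4
  have hcount : (((Ioc L M).filter fun n : ℕ => ∀ i, lam (n + b i) = ε i).card : ℝ) =
      ∑ n ∈ Ioc L M, if ∀ i, lam ((n : ℤ) + b i) = ε i then (1 : ℝ) else 0 := by
    rw [card_filter]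
    push_cast
    rfl
  have hdiff : |(((Ioc L M).filter fun n : ℕ => ∀ i, lam (n + b i) = ε i).card : ℝ) -
      ∑ n ∈ Ioc L M, ∏ i, ((1 + (ε i : ℝ) * lam ((n : ℤ) + b i)) / 2)| ≤ (k : ℝ) + 1 := by
    rw [hcount, ← sum_sub_distrib]
    refine (abs_sum_le_sum_abs _ _).trans (le_trans ?_ hzero)
    rw [card_filter]
    push_cast
    exact sum_le_sum fun n _ => ind ε (fun i => lam ((n : ℤ) + b i)) hε fun i => lam_cases _
  have hprod : ∑ n ∈ Ioc L M, ∏ i, ((1 + (ε i : ℝ) * lam ((n : ℤ) + b i)) / 2) =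
      ∑ J ∈ (univ : Finset (Fin (k + 1))).powerset, (∏ i ∈ J, (ε i : ℝ)) *
        ((∑ n ∈ Ioc L M, ∏ i ∈ J, (lam ((n : ℤ) + b i) : ℝ)) / 2 ^ (k + 1)) := by
    have h3 : ∀ n ∈ Ioc L M, ∏ i, ((1 + (ε i : ℝ) * lam ((n : ℤ) + b i)) / 2) =
        ∑ J ∈ (univ : Finset (Fin (k + 1))).powerset, (∏ i ∈ J, (ε i : ℝ)) *
          ((∏ i ∈ J, (lam ((n : ℤ) + b i) : ℝ)) / 2 ^ (k + 1)) := by
      intro n _
      rw [prod_div_distrib, prod_const, card_univ, Fintype.card_fin, prod_one_add, sum_div]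
      refine sum_congr rfl fun J _ => ?_
      rw [prod_mul_distrib, mul_div_assoc]
    rw [sum_congr rfl h3, sum_comm]
    refine sum_congr rfl fun J _ => ?_
    rw [← mul_sum, ← sum_div]
  have hmain : |∑ n ∈ Ioc L M, ∏ i, ((1 + (ε i : ℝ) * lam ((n : ℤ) + b i)) / 2) - ((M : ℝ) - L) / 2 ^ (k + 1)| ≤
      2 * (M / Real.log S ^ (U + 2)) := by
    have hempty : (∏ i ∈ (∅ : Finset (Fin (k + 1))), (ε i : ℝ)) *
        ((∑ n ∈ Ioc L M, ∏ i ∈ (∅ : Finset (Fin (k + 1))), (lam ((n : ℤ) + b i) : ℝ)) / 2 ^ (k + 1)) =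
        ((M : ℝ) - L) / 2 ^ (k + 1) := by
      simp only [prod_empty, one_mul, sum_const, Nat.card_Ioc, nsmul_eq_mul, mul_one]
      rw [Nat.cast_sub hLM]
    rw [hprod, ← add_sum_erase _ _ (empty_mem_powerset (univ : Finset (Fin (k + 1)))), hempty,
      add_sub_cancel_left]
    refine (abs_sum_le_sum_abs _ _).trans ?_
    have h4 : ∀ J ∈ (univ : Finset (Fin (k + 1))).powerset.erase ∅, |(∏ i ∈ J, (ε i : ℝ)) *
        ((∑ n ∈ Ioc L M, ∏ i ∈ J, (lam ((n : ℤ) + b i) : ℝ)) / 2 ^ (k + 1))| ≤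
        2 * (M / Real.log S ^ (U + 2)) / 2 ^ (k + 1) := by
      intro J hJ
      rw [mem_erase] at hJ
      have h5 : |∏ i ∈ J, (ε i : ℝ)| = 1 := by
        rw [abs_prod]
        refine prod_eq_one fun i _ => ?_
        rcases hε i with h | h <;> rw [h] <;> simp
      rw [abs_mul, h5, one_mul, abs_div, abs_of_pos (show (0 : ℝ) < 2 ^ (k + 1) by positivity)]
      exact div_le_div_of_nonneg_right (hsum J (nonempty_iff_ne_empty.2 hJ.1)) (by positivity)
    refine (sum_le_sum h4).trans ?_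
    rw [sum_const, nsmul_eq_mul]
    have h6 : (((univ : Finset (Fin (k + 1))).powerset.erase ∅).card : ℝ) ≤ 2 ^ (k + 1) := by
      have h7 := card_erase_le (s := (univ : Finset (Fin (k + 1))).powerset) (a := ∅)
      rw [card_powerset, card_univ, Fintype.card_fin] at h7
      exact_mod_cast h7
    have h8 : 0 ≤ 2 * ((M : ℝ) / Real.log S ^ (U + 2)) := by positivity
    calc _ ≤ (2 : ℝ) ^ (k + 1) * (2 * (M / Real.log S ^ (U + 2)) / 2 ^ (k + 1)) :=
          mul_le_mul_of_nonneg_right h6 (by positivity)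
      _ = _ := by field_simp
  -- the error terms
  have he1 : 2 * ((M : ℝ) / Real.log S ^ (U + 2)) ≤ 1 / 2 * (M / Real.log S ^ U) := by
    rw [← hℓ, pow_add]
    have h3 : (M : ℝ) / (ℓ ^ U * ℓ ^ 2) = (M / ℓ ^ U) / ℓ ^ 2 := by rw [div_div]
    rw [h3]
    have h4 : 0 ≤ (M : ℝ) / ℓ ^ U := by positivity
    have h5 : (M / ℓ ^ U) / ℓ ^ 2 ≤ (M / ℓ ^ U) / 4 :=
      div_le_div_of_nonneg_left h4 (by norm_num) (by nlinarith)
    linarith
  have he2 : (k : ℝ) + 1 ≤ 1 / 2 * (M / Real.log S ^ U) := by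
    rw [← hℓ] at hk hM1 ⊢
    have h3 : 2 * ((k : ℝ) + 1) * ℓ ^ (K + U) ≤ ℓ ^ K * M := hk.trans hM1
    have h4 : 2 * ((k : ℝ) + 1) * ℓ ^ U ≤ M := by
      have h5 : 0 < ℓ ^ K := by positivity
      rw [pow_add] at h3
      nlinarith
    have h6 : 2 * ((k : ℝ) + 1) ≤ M / ℓ ^ U := by
      rw [le_div_iff₀ (by positivity)]
      exact h4
    linarith
  have h9 := abs_le.1 hdiff
  have h10 := abs_le.1 hmain
  rw [abs_le]
  constructor <;> linarith [h9.1, h9.2, h10.1, h10.2]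

/-- powers of the logarithm -/
lemma log_pow_le (R : ℕ) (hR : 1 ≤ R) (V : ℕ) : Real.log R ^ V ≤ (V.factorial : ℝ) * R := by
  have hR1 : (1 : ℝ) ≤ R := by exact_mod_cast hR
  have h1 := Real.pow_div_factorial_le_exp (Real.log R) (Real.log_nonneg hR1) V
  rw [Real.exp_log (by linarith), div_le_iff₀ (by positivity)] at h1
  linarith

theorem cnt_equi {d : ℕ} (K U V : ℕ) (Q : Matrix (Fin (d + 1)) (Fin (d + 1)) ℤ) (hQ : Q.det ≠ 0) (S₀ : ℝ)
    (hS₀ : 0 ≤ S₀) {P : (Fin (d + 1) → ℤ) → Prop} (hP : ∀ x, S₀ < ((x 0 : ℤ) : ℝ) → ¬ P x →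
      ¬ Good 1 (fun _ => 1) K U (x 0) (Q.mulVec x)) :
    ∃ C : ℝ, ∀ R : ℕ, 2 ≤ R → (cnt d (fun x => ¬ P x) R : ℝ) ≤ C * (R : ℝ) ^ (d + 1) / Real.log R ^ V := by
  classical
  obtain ⟨C, hC⟩ := cnt_bad (d := d) 1 (fun _ => 1) (fun _ => by simp) K U V Q hQ
  refine ⟨C + S₀ * 3 ^ d * V.factorial, fun R hR => ?_⟩
  have hR2 : (2 : ℝ) ≤ R := by exact_mod_cast hR
  have hℓ0 : 0 < Real.log R := Real.log_pos (by linarith)
  have h1 : ((box d R).filter fun x => 1 ≤ x 0 ∧ ¬ P x) ⊆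
      ((box d R).filter fun x => 1 ≤ x 0 ∧ ¬ Good 1 (fun _ => 1) K U (x 0) (Q.mulVec x)) ∪
        ((box d R).filter fun x => 1 ≤ x 0 ∧ ((x 0 : ℤ) : ℝ) ≤ S₀) := by
    intro x hx
    rw [mem_filter] at hx
    rw [mem_union, mem_filter, mem_filter]
    rcases le_or_gt ((x 0 : ℤ) : ℝ) S₀ with h2 | h2
    · exact Or.inr ⟨hx.1, hx.2.1, h2⟩
    · exact Or.inl ⟨hx.1, hx.2.1, hP x h2 hx.2.2⟩
  have h2 : (cnt d (fun x => ¬ P x) R : ℝ) ≤
      (cnt d (fun x => ¬ Good 1 (fun _ => 1) K U (x 0) (Q.mulVec x)) R : ℝ) +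
        (((box d R).filter fun x => 1 ≤ x 0 ∧ ((x 0 : ℤ) : ℝ) ≤ S₀).card : ℝ) := by
    have h3 : cnt d (fun x => ¬ P x) R ≤ cnt d (fun x => ¬ Good 1 (fun _ => 1) K U (x 0) (Q.mulVec x)) R +
        ((box d R).filter fun x => 1 ≤ x 0 ∧ ((x 0 : ℤ) : ℝ) ≤ S₀).card := by
      refine le_trans (le_of_eq ?_) ((card_le_card h1).trans ((card_union_le _ _).trans (le_of_eq ?_)))
      · unfold cnt
        congr!
      · unfold cnt
        congr!
    exact_mod_cast h3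
  refine h2.trans ((add_le_add (hC R hR) (small_le d R (by omega) S₀ hS₀)).trans ?_)
  rw [add_mul, add_div]
  refine add_le_add le_rfl ?_
  rw [le_div_iff₀ (by positivity)]
  have h4 := log_pow_le R (by omega) V
  calc S₀ * (3 * (R : ℝ)) ^ d * Real.log R ^ V ≤ S₀ * (3 * (R : ℝ)) ^ d * ((V.factorial : ℝ) * R) :=
        mul_le_mul_of_nonneg_left h4 (by positivity)
    _ = S₀ * 3 ^ d * V.factorial * (R : ℝ) ^ (d + 1) := by
        rw [mul_pow, pow_succ]
        ring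

end Pool.Agent.Q44.PT
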