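import Pool.Agent.Q25.UReg6

set_option autoImplicit false

/-!
# Two progressions with the same difference `m`, upwards from `u` and downwards from `v`: the laws, uniformly in `u`, `v`

For `s ≥ 1` and integers `u, v ≥ 1` without prime factors `≤ 2s` call the difference `m` good if none of the `2s` numbers
`u + m, u + 2m, ..., u + sm` and `v - m, v - 2m, ..., v - sm` has a prime factor `≤ X ^ (1/r)`.
-/

namespace Pool.Agent.Q44.Prog

open Finset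
open Pool.Agent.Q25.UReg (Good V count pois PoissonLaw GapLaw N RightOrder ConstantDensity badScales Irregular)

/-- the coefficients of `m` in `u + (i + 1) m` (index `i < s`) and in `v - (i + 1) m` (index `s + i`) -/
def co (s : ℕ) (i : Fin (2 * s)) : ℤ := if (i : ℕ) < s then ((i : ℕ) : ℤ) + 1 else -((((i : ℕ) - s : ℕ) : ℤ) + 1)

/-- the constant terms: `u` (index `i < s`) and `v` (index `s + i`) -/
def ct (s u v : ℕ) (i : Fin (2 * s)) : ℤ := if (i : ℕ) < s then (u : ℤ) else (v : ℤ)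

lemma co_ne (s : ℕ) (i : Fin (2 * s)) : co s i ≠ 0 := by
  unfold co
  split_ifs <;> omega

lemma co_abs (s : ℕ) (i : Fin (2 * s)) : 1 ≤ (co s i).natAbs ∧ (co s i).natAbs ≤ s := by
  have := i.isLt
  unfold co
  split_ifs <;> omega

lemma adm (s u v : ℕ) (hu : ∀ p : ℕ, p.Prime → p ≤ 2 * s → ¬ p ∣ u) (hv : ∀ p : ℕ, p.Prime → p ≤ 2 * s → ¬ p ∣ v)
    (p : ℕ) (hp : p.Prime) : ∃ m : ℤ, ∀ i, ¬ (p : ℤ) ∣ co s i * m + ct s u v i := by
  rcases lt_or_ge (2 * s) p with h2 | h2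
  · apply Pool.Agent.Q25.UReg.adm_small (co s) (ct s u v) p hp h2
    intro i h
    have h3 := h.1
    have h4 := co_abs s i
    have h5 : p ∣ (co s i).natAbs := Int.natCast_dvd.1 h3
    have h6 := Nat.le_of_dvd (by omega) h5
    omega
  · refine ⟨0, fun i hi => ?_⟩
    rw [mul_zero, zero_add] at hi
    unfold ct at hi
    split_ifs at hi
    · exact hu p hp h2 (by exact_mod_cast hi)
    · exact hv p hp h2 (by exact_mod_cast hi)

lemma two (s u v : ℕ) (hs : 1 ≤ s) (hu : 1 ≤ u) : Pool.Agent.Q25.UReg.TwoForms (co s) (ct s u v) := by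
  refine ⟨⟨0, by omega⟩, ⟨s, by omega⟩, ?_, ?_⟩
  · rintro ⟨h, -⟩
    unfold co at h
    simp only [lt_irrefl, if_false] at h
    rw [if_pos (by omega)] at h
    omega
  · rintro ⟨-, h⟩
    unfold ct at h
    simp only [lt_irrefl, if_false] at h
    rw [if_pos (by omega)] at h
    omega

lemma noTr (s u v : ℕ) (U : ℝ) (hU : (s : ℝ) * U < (u : ℝ) + v) :
    Pool.Agent.Q25.UReg.NoTranslates2 (co s) (ct s u v) U := by
  intro i j t ht htU
  have h1 : (s : ℝ) * t < (u : ℝ) + v := lt_of_le_of_lt (mul_le_mul_of_nonneg_left htU (by positivity)) hU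
  have h2 : (s : ℤ) * t < (u : ℤ) + v := by exact_mod_cast h1
  have ht' : (1 : ℤ) ≤ t := by exact_mod_cast ht
  have hi := i.isLt
  have hj := j.isLt
  unfold co ct
  split_ifs with h3 h4 h4
  · refine ⟨fun h => ?_, fun h => ?_⟩
    · have h5 := h.2
      have h6 : (0 : ℤ) < (((j : ℕ) : ℤ) + 1) * t := by positivity
      omega
    · have := h.1
      omega
  · refine ⟨fun h => ?_, fun h => ?_⟩
    · have := h.1
      omega
    · have h5 := h.2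
      have h6 : ((((j : ℕ) - s : ℕ) : ℤ) + 1) * t ≤ s * t :=
        mul_le_mul_of_nonneg_right (by omega) (by omega)
      have h7 : -((((j : ℕ) - s : ℕ) : ℤ) + 1) * (t : ℤ) = -(((((j : ℕ) - s : ℕ) : ℤ) + 1) * t) := by ring
      rw [h7] at h5
      omega
  · refine ⟨fun h => ?_, fun h => ?_⟩
    · have := h.1
      omega
    · have h5 := h.2
      have h6 : (0 : ℤ) < (((j : ℕ) : ℤ) + 1) * t := by positivity
      omega
  · refine ⟨fun h => ?_, fun h => ?_⟩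
    · have h5 := h.2
      have h6 : (0 : ℤ) < ((((j : ℕ) - s : ℕ) : ℤ) + 1) * t := by positivity
      have h7 : -((((j : ℕ) - s : ℕ) : ℤ) + 1) * (t : ℤ) = -(((((j : ℕ) - s : ℕ) : ℤ) + 1) * t) := by ring
      rw [h7] at h5
      omega
    · have := h.1
      omega

lemma bounds (s u v X : ℕ) (E : ℝ) (hE : 1 ≤ E) (hsX : s ≤ X) (hX : 1 ≤ X)
    (hu : (u : ℝ) ≤ (X : ℝ) ^ E) (hv : (v : ℝ) ≤ (X : ℝ) ^ E) :
    (∀ i, |(co s i : ℝ)| ≤ (X : ℝ) ^ E) ∧ ∀ i, |(ct s u v i : ℝ)| ≤ (X : ℝ) ^ E := by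
  have hX1 : (1 : ℝ) ≤ X := by exact_mod_cast hX
  have hXE : (X : ℝ) ≤ (X : ℝ) ^ E := by
    conv_lhs => rw [← Real.rpow_one (X : ℝ)]
    exact Real.rpow_le_rpow_of_exponent_le hX1 hE
  constructor
  · intro i
    have h4 := co_abs s i
    have h5 : |(co s i : ℝ)| = (((co s i).natAbs : ℕ) : ℝ) := by
      rw [Nat.cast_natAbs]
      push_cast
      rfl
    rw [h5]
    have h6 : (((co s i).natAbs : ℕ) : ℝ) ≤ X := by exact_mod_cast h4.2.trans hsX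
    exact h6.trans hXE
  · intro i
    unfold ct
    split_ifs
    · push_cast
      rw [abs_of_nonneg (by positivity)]
      exact hu
    · push_cast
      rw [abs_of_nonneg (by positivity)]
      exact hv

/-- the laws -/
theorem laws (s : ℕ) (hs : 1 ≤ s) (E η θ : ℝ) (hE : 1 ≤ E) (hη : 0 < η) (hθ : 0 < θ) (l₀ : ℕ) (x₀ ε : ℝ) (hε : 0 < ε) :
    ∃ r₀ : ℕ, ∀ r : ℕ, r₀ ≤ r → ∃ X₀ : ℕ, ∀ X : ℕ, X₀ ≤ X →
      ∀ u v : ℕ, (∀ p : ℕ, p.Prime → p ≤ 2 * s → ¬ p ∣ u * v) → 1 ≤ u →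
        (u : ℝ) ≤ (X : ℝ) ^ E → (v : ℝ) ≤ (X : ℝ) ^ E → (s : ℝ) * (X : ℝ) ^ η < (u : ℝ) + v →
        ∀ Z Y : ℕ, (X : ℝ) ^ θ ≤ Y →
        PoissonLaw (co s) (ct s u v) r X Z Y x₀ ε ∧ GapLaw (co s) (ct s u v) r X Z Y l₀ x₀ ε := by
  obtain ⟨r₀, _, h⟩ := Pool.Agent.Q25.UReg.lin_laws2 (2 * s) E η θ (by linarith) hη hθ l₀ x₀ ε hε
  refine ⟨r₀, fun r hr => ?_⟩
  obtain ⟨X₀, hX₀⟩ := Filter.eventually_atTop.1 ((h r hr).and (Filter.eventually_ge_atTop (s + 1)))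
  refine ⟨X₀, fun X hX u v huv hu1 huE hvE hη2 Z Y hY => ?_⟩
  obtain ⟨h1, h2⟩ := hX₀ X hX
  have hb := bounds s u v X E hE (by omega) (by omega) huE hvE
  exact h1 (co s) (ct s u v) (co_ne s) hb.1 hb.2
    (adm s u v (fun p hp h3 h4 => huv p hp h3 (h4.mul_right _)) (fun p hp h3 h4 => huv p hp h3 (h4.mul_left _)))
    (two s u v hs hu1) (noTr s u v _ hη2) Z Y hY

/-- regular points -/
theorem reg (s : ℕ) (hs : 1 ≤ s) (E θ : ℝ) (hE : 1 ≤ E) (hθ : 0 < θ) :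
    ∃ r₀ : ℕ, ∀ r : ℕ, r₀ ≤ r → ∀ ε : ℝ, 0 < ε → ∃ c : ℝ, 0 < c ∧ ∀ δ : ℝ, 0 < δ → ∃ B X₀ : ℕ,
      ∀ X : ℕ, X₀ ≤ X → ∀ u v : ℕ, (∀ p : ℕ, p.Prime → p ≤ 2 * s → ¬ p ∣ u * v) → 1 ≤ u →
        (u : ℝ) ≤ (X : ℝ) ^ E → (v : ℝ) ≤ (X : ℝ) ^ E →
        ∀ w Y : ℕ, (X : ℝ) ^ θ ≤ Y → Y ≤ X → Y ≤ w →
        ∀ A : Set ℕ, (∀ m ∈ A, Good (co s) (ct s u v) r X m) →
          (N (Irregular A (V (co s) (ct s u v) r X) c δ B Y) w (w + Y) : ℝ) ≤
            ε * (Y * V (co s) (ct s u v) r X) := by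
  obtain ⟨r₀, _, h⟩ := Pool.Agent.Q25.UReg.lin_reg2 (2 * s) E θ (by linarith) hθ
  refine ⟨r₀, fun r hr ε hε => ?_⟩
  obtain ⟨c, hc, h1⟩ := h r hr ε hε
  refine ⟨c, hc, fun δ hδ => ?_⟩
  obtain ⟨B, hB⟩ := h1 δ hδ
  obtain ⟨X₀, hX₀⟩ := Filter.eventually_atTop.1 (hB.and (Filter.eventually_ge_atTop (s + 1)))
  refine ⟨B, X₀, fun X hX u v huv hu1 huE hvE w Y hXY hYX hYu A hA => ?_⟩
  obtain ⟨h1, h2⟩ := hX₀ X hX
  have hb := bounds s u v X E hE (by omega) (by omega) huE hvE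
  exact h1 (co s) (ct s u v) (co_ne s) hb.1 hb.2
    (adm s u v (fun p hp h3 h4 => huv p hp h3 (h4.mul_right _)) (fun p hp h3 h4 => huv p hp h3 (h4.mul_left _)))
    (two s u v hs hu1) w Y hXY hYX hYu A hA

end Pool.Agent.Q44.Prog
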