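import Pool.Agent.Q44.Appr

set_option autoImplicit false

/-! A property of rational numbers with few exceptions holds at the good rational approximations of all
real numbers outside a set of small Hausdorff dimension, in particular at all but finitely many convergents
of the continued fraction. -/

namespace Pool.Agent.Q44.CF

open MeasureTheory Filter Set ENNReal Topology Metric

/-- for every `t > θ` at most `C N ^ t` rational numbers whose numerator and denominator have absolute
value at most `N` satisfy `B` -/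
def RatFew (θ : ℝ) (B : ℚ → Prop) : Prop :=
  ∀ t : ℝ, θ < t → ∃ C : ℝ, ∀ N : ℕ, 1 ≤ N →
    (({r : ℚ | r.num.natAbs ≤ N ∧ r.den ≤ N ∧ B r}.ncard : ℕ) : ℝ) ≤ C * (N : ℝ) ^ t

lemma fin_rat (N : ℕ) : {r : ℚ | r.num.natAbs ≤ N ∧ r.den ≤ N}.Finite := by
  refine Set.Finite.of_finite_image (f := fun r : ℚ => (r.num, r.den)) ?_ ?_
  · refine Set.Finite.subset ((Set.finite_Icc (-(N : ℤ)) N).prod (Set.finite_Iic N)) ?_
    rintro _ ⟨r, ⟨h1, h2⟩, rfl⟩
    have h3 : r.num.natAbs ≤ N := h1
    have h4 : -(N : ℤ) ≤ r.num ∧ r.num ≤ N := by omega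
    exact ⟨h4, h2⟩
  · intro r _ r' _ h
    simp only [Prod.mk.injEq] at h
    exact Rat.ext h.1 h.2

lemma RatFew.mono {θ : ℝ} {B B' : ℚ → Prop} (h : RatFew θ B) (hB : ∀ r, B' r → B r) :
    RatFew θ B' := by
  intro t ht
  obtain ⟨C, hC⟩ := h t ht
  refine ⟨C, fun N hN => le_trans ?_ (hC N hN)⟩
  refine Nat.cast_le.2 (Set.ncard_le_ncard ?_ ((fin_rat N).subset fun r hr => ⟨hr.1, hr.2.1⟩))
  intro r hr
  exact ⟨hr.1, hr.2.1, hB r hr.2.2⟩

/-- the image of the rational number `r` under `r ↦ (a r + b) / (c r + d)` -/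
def mob (g : Fin 4 → ℤ) (r : ℚ) : ℚ := (g 0 * r + g 1) / (g 2 * r + g 3)

/-- the property of the integer vectors `(q, p)`: they are primitive and the image of `p / q` is in `B` -/
def VecB (g : Fin 4 → ℤ) (B : ℚ → Prop) (x : Fin (1 + 1) → ℤ) : Prop :=
  Int.gcd (x 1) (x 0) = 1 ∧ g 2 * x 1 + g 3 * x 0 ≠ 0 ∧ B (mob g ((x 1 : ℚ) / (x 0 : ℚ)))

lemma few_vec {θ : ℝ} {B : ℚ → Prop} (h : RatFew θ B) (g : Fin 4 → ℤ)
    (hg : g 0 * g 3 ≠ g 1 * g 2) : Few 1 θ (VecB g B) := by
  classical
  intro t ht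
  obtain ⟨C, hC⟩ := h t ht
  set K : ℕ := (g 0).natAbs + (g 1).natAbs + (g 2).natAbs + (g 3).natAbs + 1 with hK
  refine ⟨|C| * (K : ℝ) ^ t, fun N hN => ?_⟩
  have hKN : 1 ≤ K * N := Nat.one_le_iff_ne_zero.2 (by positivity)
  have h1 := hC (K * N) hKN
  have hfin : {r : ℚ | r.num.natAbs ≤ K * N ∧ r.den ≤ K * N ∧ B r}.Finite :=
    (fin_rat (K * N)).subset fun r hr => ⟨hr.1, hr.2.1⟩
  have h2 : cnt 1 (VecB g B) N ≤
      {r : ℚ | r.num.natAbs ≤ K * N ∧ r.den ≤ K * N ∧ B r}.ncard := by
    unfold cnt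
    rw [← Set.ncard_coe_finset]
    refine Set.ncard_le_ncard_of_injOn (fun x => mob g ((x 1 : ℚ) / (x 0 : ℚ))) ?_ ?_ hfin
    · intro x hx
      rw [Finset.mem_coe, Finset.mem_filter, mem_box] at hx
      obtain ⟨hb, hx0, hgcd, hne, hB⟩ := hx
      have e : mob g ((x 1 : ℚ) / (x 0 : ℚ)) =
          ((g 0 * x 1 + g 1 * x 0 : ℤ) : ℚ) / ((g 2 * x 1 + g 3 * x 0 : ℤ) : ℚ) := by
        have hx0' : (x 0 : ℚ) ≠ 0 := by exact_mod_cast (show x 0 ≠ 0 by omega)
        unfold mob
        push_cast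
        have hne' : (g 2 : ℚ) * x 1 + g 3 * x 0 ≠ 0 := by exact_mod_cast hne
        have hne2 : (g 2 : ℚ) * (x 1 / x 0) + g 3 ≠ 0 := by
          intro h0
          apply hne'
          have : ((g 2 : ℚ) * (x 1 / x 0) + g 3) * x 0 = 0 := by rw [h0, zero_mul]
          rw [← this]
          field_simp
        rw [div_eq_div_iff hne2 hne']
        field_simp
      have hbound : ∀ i j : Fin 4, (g i).natAbs + (g j).natAbs ≤ K →
          (g i * x 1 + g j * x 0).natAbs ≤ K * N := by
        intro i j hij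
        have h3 : (x 1).natAbs ≤ N := by
          have : ((x 1).natAbs : ℤ) ≤ N := by
            rw [Int.natCast_natAbs]
            exact hb 1
          omega
        have h4 : (x 0).natAbs ≤ N := by
          have : ((x 0).natAbs : ℤ) ≤ N := by
            rw [Int.natCast_natAbs]
            exact hb 0
          omega
        calc (g i * x 1 + g j * x 0).natAbs ≤ (g i * x 1).natAbs + (g j * x 0).natAbs :=
              Int.natAbs_add_le _ _
          _ = (g i).natAbs * (x 1).natAbs + (g j).natAbs * (x 0).natAbs := by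
              rw [Int.natAbs_mul, Int.natAbs_mul]
          _ ≤ (g i).natAbs * N + (g j).natAbs * N :=
              add_le_add (Nat.mul_le_mul_left _ h3) (Nat.mul_le_mul_left _ h4)
          _ = ((g i).natAbs + (g j).natAbs) * N := by ring
          _ ≤ K * N := Nat.mul_le_mul_right _ hij
      refine ⟨?_, ?_, hB⟩
      · show (mob g ((x 1 : ℚ) / (x 0 : ℚ))).num.natAbs ≤ K * N
        rw [e]
        by_cases hz : g 0 * x 1 + g 1 * x 0 = 0
        · rw [hz]
          simp
        · refine le_trans ?_ (hbound 0 1 (by omega))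
          refine Nat.le_of_dvd (Int.natAbs_pos.2 hz) (Int.natAbs_dvd_natAbs.2 ?_)
          rw [← Rat.divInt_eq_div]
          exact Rat.num_dvd _ hne
      · show (mob g ((x 1 : ℚ) / (x 0 : ℚ))).den ≤ K * N
        rw [e]
        refine le_trans ?_ (hbound 2 3 (by omega))
        refine Nat.le_of_dvd (Int.natAbs_pos.2 hne) ?_
        have := Rat.den_dvd (g 0 * x 1 + g 1 * x 0) (g 2 * x 1 + g 3 * x 0)
        exact_mod_cast Int.natCast_dvd.1 this
    · intro x hx y hy hxy
      rw [Finset.mem_coe, Finset.mem_filter, mem_box] at hx hy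
      obtain ⟨-, hx0, hgx, hnx, -⟩ := hx
      obtain ⟨-, hy0, hgy, hny, -⟩ := hy
      have hx0' : (x 0 : ℚ) ≠ 0 := by exact_mod_cast (show x 0 ≠ 0 by omega)
      have hy0' : (y 0 : ℚ) ≠ 0 := by exact_mod_cast (show y 0 ≠ 0 by omega)
      have hne2 : ∀ z : Fin (1 + 1) → ℤ, (z 0 : ℚ) ≠ 0 → g 2 * z 1 + g 3 * z 0 ≠ 0 →
          (g 2 : ℚ) * (z 1 / z 0) + g 3 ≠ 0 := by
        intro z hz0 hz h0
        apply hz
        have h3 : ((g 2 : ℚ) * (z 1 / z 0) + g 3) * z 0 = 0 := by rw [h0, zero_mul]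
        have h4 : (g 2 : ℚ) * z 1 + g 3 * z 0 = 0 := by
          rw [← h3]
          field_simp
        exact_mod_cast h4
      have h3 : mob g ((x 1 : ℚ) / (x 0 : ℚ)) = mob g ((y 1 : ℚ) / (y 0 : ℚ)) := hxy
      unfold mob at h3
      rw [div_eq_div_iff (hne2 x hx0' hnx) (hne2 y hy0' hny)] at h3
      have h4 : ((g 0 : ℚ) * g 3 - g 1 * g 2) * ((x 1 : ℚ) / x 0 - y 1 / y 0) = 0 := by
        linear_combination h3
      have h5 : ((g 0 : ℚ) * g 3 - g 1 * g 2) ≠ 0 := by
        have : g 0 * g 3 - g 1 * g 2 ≠ 0 := sub_ne_zero.2 hg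
        exact_mod_cast this
      have h6 : (x 1 : ℚ) / x 0 = y 1 / y 0 := by
        rcases mul_eq_zero.1 h4 with h | h
        · exact absurd h h5
        · exact sub_eq_zero.1 h
      have hnum : ∀ z : Fin (1 + 1) → ℤ, 1 ≤ z 0 → Int.gcd (z 1) (z 0) = 1 →
          ((z 1 : ℚ) / z 0).num = z 1 ∧ (((z 1 : ℚ) / z 0).den : ℤ) = z 0 := fun z hz hg =>
        ⟨Rat.num_div_eq_of_coprime (by omega) hg, Rat.den_div_eq_of_coprime (by omega) hg⟩
      obtain ⟨a1, a2⟩ := hnum x hx0 hgx
      obtain ⟨b1, b2⟩ := hnum y hy0 hgy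
      rw [h6] at a1 a2
      funext j
      fin_cases j
      · exact a2.symm.trans b2
      · exact a1.symm.trans b1
  have h3 : (cnt 1 (VecB g B) N : ℝ) ≤ C * ((K * N : ℕ) : ℝ) ^ t := (Nat.cast_le.2 h2).trans h1
  refine h3.trans ?_
  push_cast
  rw [Real.mul_rpow (by positivity) (by positivity), ← mul_assoc]
  refine mul_le_mul_of_nonneg_right ?_ (by positivity)
  exact mul_le_mul_of_nonneg_right (le_abs_self C) (by positivity)

/-- The property `P` of rational numbers holds at the images `(a r + b) / (c r + d)` of the good rational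
approximations `r` of real numbers, with the exponent `θ` of the exceptions. -/
structure AtRationalApproximations (θ : ℝ) (P : ℚ → Prop) : Prop where
  /-- the real numbers `α` for which, for some integers `a, b, c, d` with `a d ≠ b c`, infinitely many
  rational numbers `r` of denominator `q` with `|α - r| ≤ q ^ (-τ)` have an image `(a r + b) / (c r + d)`
  without the property `P` form a set of Hausdorff dimension at most `θ / τ` -/
  line : ∀ τ : ℝ, 0 < τ → dimH {α : ℝ | ¬ ∀ a b c d : ℤ, a * d ≠ b * c →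
    {r : ℚ | |α - r| ≤ (r.den : ℝ) ^ (-τ) ∧ c * r + d ≠ 0 ∧ ¬ P ((a * r + b) / (c * r + d))}.Finite} ≤
      ENNReal.ofReal (θ / τ)
  /-- the irrational numbers for which infinitely many of the images of the convergents of the continued
  fraction fail to have the property `P` form a set of Hausdorff dimension at most `θ / 2` -/
  convergents : dimH {α : ℝ | Irrational α ∧ ¬ ∀ a b c d : ℤ, a * d ≠ b * c → ∀ᶠ n in atTop,
    P ((a * α.convergent n + b) / (c * α.convergent n + d))} ≤ ENNReal.ofReal (θ / 2)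
  /-- almost all real numbers -/
  almost_all_convergents : θ < 2 → ∀ᵐ α : ℝ, ∀ a b c d : ℤ, a * d ≠ b * c → ∀ᶠ n in atTop,
    P ((a * α.convergent n + b) / (c * α.convergent n + d))

theorem atRat_of {θ : ℝ} (hθ : 0 ≤ θ) {P B : ℚ → Prop} (h : RatFew θ B) (hB : ∀ r, ¬ P r → B r) :
    AtRationalApproximations θ P := by
  have hP : RatFew θ (fun r => ¬ P r) := h.mono hB
  have hall : ∀ g : {g : Fin 4 → ℤ // g 0 * g 3 ≠ g 1 * g 2}, Few 1 θ (VecB g.1 (fun r => ¬ P r)) :=
    fun g => few_vec hP g.1 g.2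
  have hden : ∀ r : ℚ, ((r.num : ℚ) / ((r.den : ℤ) : ℚ)) = r := by
    intro r
    have := Rat.num_div_den r
    rw [Int.cast_natCast]
    exact this
  have hdenR : ∀ r : ℚ, ((r.num : ℝ) / ((r.den : ℤ) : ℝ)) = (r : ℝ) := by
    intro r
    have h3 : (((r.num : ℚ) / ((r.den : ℤ) : ℚ) : ℚ) : ℝ) = (r : ℝ) := by rw [hden r]
    rw [← h3]
    push_cast
    rfl
  have hvec : ∀ (a b c d : ℤ) (r : ℚ), (c : ℚ) * r + d ≠ 0 → ¬ P ((a * r + b) / (c * r + d)) →
      VecB ![a, b, c, d] (fun r => ¬ P r) ![(r.den : ℤ), r.num] := by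
    intro a b c d r h1 h2
    refine ⟨?_, ?_, ?_⟩
    · have := r.reduced
      simpa [Int.gcd] using this
    · intro h3
      apply h1
      have h4 : (c : ℚ) * r.num + d * r.den = 0 := by
        have h5 : c * r.num + d * (r.den : ℤ) = 0 := by simpa using h3
        exact_mod_cast h5
      have h5 : (r.den : ℚ) ≠ 0 := by exact_mod_cast r.den_nz
      have h6 : (r : ℚ) = r.num / r.den := (Rat.num_div_den r).symm
      rw [h6]
      field_simp
      linarith
    · show ¬ P (mob ![a, b, c, d] _)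
      have e : mob ![a, b, c, d] (((![(r.den : ℤ), r.num] : Fin 2 → ℤ) 1 : ℚ) /
          ((![(r.den : ℤ), r.num] : Fin 2 → ℤ) 0 : ℚ)) = (a * r + b) / (c * r + d) := by
        unfold mob
        have e1 : (((![(r.den : ℤ), r.num] : Fin 2 → ℤ) 1 : ℚ) /
          ((![(r.den : ℤ), r.num] : Fin 2 → ℤ) 0 : ℚ)) = r := hden r
        rw [e1]
        simp
      rw [e]
      exact h2
  have hconv : dimH {α : ℝ | Irrational α ∧ ¬ ∀ a b c d : ℤ, a * d ≠ b * c → ∀ᶠ n in atTop,
      P ((a * α.convergent n + b) / (c * α.convergent n + d))} ≤ ENNReal.ofReal (θ / 2) := by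
    refine le_trans (dimH_mono ?_) (convergents_of_few hθ hall)
    rintro α ⟨hirr, hα⟩
    refine ⟨hirr, fun hcon => hα fun a b c d had => ?_⟩
    have h1 := hcon ⟨![a, b, c, d], by simpa using had⟩
    have h2 : {r : ℚ | (c : ℚ) * r + d = 0}.Finite := by
      by_cases hc : c = 0
      · subst hc
        have hd : d ≠ 0 := by
          rintro rfl
          simp at had
        refine Set.Finite.subset Set.finite_empty ?_
        intro r hr
        have : (d : ℚ) = 0 := by simpa using hr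
        exact hd (by exact_mod_cast this)
      · refine Set.Finite.subset (Set.finite_singleton (-(d : ℚ) / c)) ?_
        intro r hr
        have hr' : (c : ℚ) * r + d = 0 := hr
        have hc' : (c : ℚ) ≠ 0 := by exact_mod_cast hc
        rw [Set.mem_singleton_iff, eq_div_iff hc']
        linarith
    filter_upwards [h1, eventually_convergent hirr h2] with n hn hn2
    by_contra hP
    exact hn (hvec a b c d _ hn2 hP)
  refine ⟨?_, hconv, ?_⟩
  · intro τ hτ
    refine le_trans (dimH_mono ?_) (line_of_few hτ hθ hall)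
    intro α hα hcon
    refine hα fun a b c d had => ?_
    have h1 := hcon ⟨![a, b, c, d], by simpa using had⟩
    refine Set.Finite.of_finite_image (f := fun r : ℚ => ((r.num, (r.den : ℤ)) : ℤ × ℤ)) (h1.subset ?_) ?_
    · rintro _ ⟨r, ⟨hr1, hr2, hr3⟩, rfl⟩
      have hden1 : (1 : ℤ) ≤ (r.den : ℤ) := by exact_mod_cast r.den_pos
      refine ⟨⟨hden1, ?_⟩, hvec a b c d r hr2 hr3⟩
      show |α - ((r.num : ℤ) : ℝ) / (((r.den : ℤ)) : ℝ)| ≤ ((((r.den : ℤ)) : ℝ)) ^ (-τ)
      rw [hdenR r]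
      simpa using hr1
    · intro r _ r' _ hrr
      simp only [Prod.mk.injEq] at hrr
      exact Rat.ext hrr.1 (by exact_mod_cast hrr.2)
  · intro hs1
    have h1 := ae_of_dim (by linarith) hconv
    have h2 : ∀ᵐ α : ℝ, Irrational α := by
      have : volume (Set.range ((↑) : ℚ → ℝ)) = 0 := (Set.countable_range _).measure_zero _
      rw [ae_iff]
      refine measure_mono_null (fun a ha => ?_) this
      exact not_not.1 ha
    filter_upwards [h1, h2] with α hα hirr
    by_contra hcon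
    exact hα ⟨hirr, hcon⟩

end Pool.Agent.Q44.CF
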