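import Pool.Agent.Q44.Log

set_option autoImplicit false

/-! A property of positive integers whose exceptions up to `N` are at most `C N / (log N) ^ δ`, `0 < δ ≤ 1`, holds at
most of the rational approximations of almost all real points. -/

namespace Pool.Agent.Q44.CF

open MeasureTheory Filter Set ENNReal Topology Metric

/-- at most `C N / (log N) ^ U` of the positive integers up to `N ≥ 2` satisfy `B` -/
def LogFewU (U : ℝ) (B : ℕ → Prop) : Prop :=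
  ∃ C : ℝ, ∀ N : ℕ, 2 ≤ N → ∀ F : Finset ℕ, (∀ n ∈ F, 1 ≤ n ∧ n ≤ N ∧ B n) →
    (F.card : ℝ) ≤ C * (N : ℝ) / (Real.log N) ^ U

open Classical in
/-- sets of summable-like measure: most of them are avoided -/
theorem most_sets {X : Type*} [MeasurableSpace X] (μ : Measure X) (U : ℕ → Set X) (hU : ∀ k, MeasurableSet (U k))
    {C δ : ℝ} (hC : 0 ≤ C) (hδ1 : δ ≤ 1) (hμ : ∀ k : ℕ, μ (U k) ≤ ENNReal.ofReal (C * ((k : ℝ) + 1) ^ (-δ)))
    {ε : ℝ} (hε : 0 < ε) :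
    ∀ᵐ α ∂μ, ∀ᶠ K : ℕ in atTop, (((Finset.range K).filter fun k => α ∈ U k).card : ℝ) ≤ (K : ℝ) ^ (1 - δ + ε) := by
  obtain ⟨η, hη⟩ : ∃ η : ℝ, η = ε / 3 := ⟨_, rfl⟩
  have hη0 : 0 < η := by rw [hη]; positivity
  have hs : Summable fun k : ℕ => ((k : ℝ) + 1) ^ (-(1 + η)) := by
    have h1 : Summable fun n : ℕ => ((n : ℝ)) ^ (-(1 + η)) := Real.summable_nat_rpow.2 (by linarith)
    refine ((summable_nat_add_iff 1).2 h1).congr fun k => ?_
    push_cast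
    rfl
  obtain ⟨Z, hZ⟩ : ∃ Z : ℝ, Z = ∑' k : ℕ, ((k : ℝ) + 1) ^ (-(1 + η)) := ⟨_, rfl⟩
  have hZ0 : 0 ≤ Z := by rw [hZ]; exact tsum_nonneg fun k => by positivity
  -- the sum
  have hsum : ∀ K : ℕ, ∑ k ∈ Finset.range K, ((k : ℝ) + 1) ^ (-δ) ≤ Z * (K : ℝ) ^ (1 - δ + η) := by
    intro K
    calc ∑ k ∈ Finset.range K, ((k : ℝ) + 1) ^ (-δ)
        ≤ ∑ k ∈ Finset.range K, ((k : ℝ) + 1) ^ (-(1 + η)) * (K : ℝ) ^ (1 - δ + η) := by
          refine Finset.sum_le_sum fun k hk => ?_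
          have hk1 : (k : ℝ) + 1 ≤ K := by exact_mod_cast Finset.mem_range.1 hk
          have hk0 : (0 : ℝ) < (k : ℝ) + 1 := by positivity
          calc ((k : ℝ) + 1) ^ (-δ) = ((k : ℝ) + 1) ^ (-(1 + η)) * ((k : ℝ) + 1) ^ (1 - δ + η) := by
                rw [← Real.rpow_add hk0]
                congr 1
                ring
            _ ≤ _ := mul_le_mul_of_nonneg_left (Real.rpow_le_rpow hk0.le hk1 (by linarith)) (by positivity)
      _ = (∑ k ∈ Finset.range K, ((k : ℝ) + 1) ^ (-(1 + η))) * (K : ℝ) ^ (1 - δ + η) := by rw [Finset.sum_mul]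
      _ ≤ _ := by
          refine mul_le_mul_of_nonneg_right ?_ (by positivity)
          rw [hZ]
          exact hs.sum_le_tsum _ fun k _ => by positivity
  -- the integral
  set S : ℕ → X → ℝ≥0∞ := fun K α => ∑ k ∈ Finset.range K, (U k).indicator 1 α with hS
  have hSm : ∀ K, Measurable (S K) := fun K =>
    Finset.measurable_fun_sum _ fun k _ => measurable_one.indicator (hU k)
  have hint : ∀ K : ℕ, ∫⁻ α, S K α ∂μ ≤ ENNReal.ofReal (C * Z * (K : ℝ) ^ (1 - δ + η)) := by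
    intro K
    rw [hS]
    simp only
    rw [lintegral_finsetSum _ fun k _ => measurable_one.indicator (hU k)]
    calc ∑ k ∈ Finset.range K, ∫⁻ α, (U k).indicator 1 α ∂μ
        ≤ ∑ k ∈ Finset.range K, ENNReal.ofReal (C * ((k : ℝ) + 1) ^ (-δ)) := by
          refine Finset.sum_le_sum fun k _ => ?_
          rw [lintegral_indicator_one (hU k)]
          exact hμ k
      _ = ENNReal.ofReal (∑ k ∈ Finset.range K, C * ((k : ℝ) + 1) ^ (-δ)) :=
          (ENNReal.ofReal_sum_of_nonneg fun k _ => by positivity).symm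
      _ ≤ _ := by
          refine ENNReal.ofReal_le_ofReal ?_
          rw [← Finset.mul_sum, mul_assoc]
          exact mul_le_mul_of_nonneg_left (hsum K) hC
  have hSc : ∀ K α, S K α = ((((Finset.range K).filter fun k => α ∈ U k).card : ℕ) : ℝ≥0∞) := by
    intro K α
    rw [hS, Finset.card_filter]
    push_cast
    refine Finset.sum_congr rfl fun k _ => ?_
    by_cases h : α ∈ U k
    · rw [Set.indicator_of_mem h, if_pos h]; rfl
    · rw [Set.indicator_of_notMem h, if_neg h]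
  -- Markov
  have hmk : ∀ j : ℕ, μ {α | ENNReal.ofReal (((2 : ℝ) ^ j) ^ (1 - δ + 2 * η)) ≤ S (2 ^ j) α} ≤
      ENNReal.ofReal (C * Z * ((2 : ℝ) ^ (-η)) ^ j) := by
    intro j
    have h2 : (0 : ℝ) < (2 : ℝ) ^ j := by positivity
    have hp : 0 < ((2 : ℝ) ^ j) ^ (1 - δ + 2 * η) := by positivity
    refine (meas_ge_le_lintegral_div (hSm _).aemeasurable (by simpa using hp) ENNReal.ofReal_ne_top).trans ?_
    rw [ENNReal.div_le_iff (by simpa using hp) ENNReal.ofReal_ne_top, ← ENNReal.ofReal_mul (by positivity)]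
    refine (hint (2 ^ j)).trans (ENNReal.ofReal_le_ofReal (le_of_eq ?_))
    push_cast
    rw [mul_assoc (C * Z)]
    congr 1
    rw [← Real.rpow_natCast ((2 : ℝ) ^ (-η)), ← Real.rpow_natCast (2 : ℝ) j, ← Real.rpow_mul (by norm_num),
      ← Real.rpow_mul (by norm_num), ← Real.rpow_mul (by norm_num), ← Real.rpow_add (by norm_num)]
    congr 1
    ring
  have hbc : ∀ᵐ α ∂μ, ∀ᶠ j : ℕ in atTop,
      ¬ ENNReal.ofReal (((2 : ℝ) ^ j) ^ (1 - δ + 2 * η)) ≤ S (2 ^ j) α := by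
    refine ae_eventually_notMem (s := fun j : ℕ =>
      {α | ENNReal.ofReal (((2 : ℝ) ^ j) ^ (1 - δ + 2 * η)) ≤ S (2 ^ j) α}) ?_
    refine ne_top_of_le_ne_top ?_ (ENNReal.tsum_le_tsum hmk)
    have h3 : Summable fun j : ℕ => C * Z * ((2 : ℝ) ^ (-η)) ^ j := by
      refine (summable_geometric_of_lt_one (by positivity) ?_).mul_left _
      exact Real.rpow_lt_one_of_one_lt_of_neg (by norm_num) (by linarith)
    rw [← ENNReal.ofReal_tsum_of_nonneg (fun j => by positivity) h3]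
    exact ENNReal.ofReal_ne_top
  filter_upwards [hbc] with α hα
  obtain ⟨j₀, hj⟩ := eventually_atTop.1 hα
  have hlarge : ∀ᶠ K : ℕ in atTop, (2 : ℝ) ^ (1 - δ + 2 * η) ≤ (K : ℝ) ^ η :=
    ((tendsto_rpow_atTop hη0).comp tendsto_natCast_atTop_atTop).eventually_ge_atTop _
  filter_upwards [hlarge, eventually_ge_atTop (2 ^ j₀ + 1)] with K hK1 hK2
  have hKpos : 1 ≤ K := le_trans (Nat.le_add_left 1 _) hK2
  have hK0 : (0 : ℝ) < K := by exact_mod_cast hKpos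
  obtain ⟨j, hj1, hj2⟩ : ∃ j : ℕ, K ≤ 2 ^ j ∧ 2 ^ j ≤ 2 * K := by
    refine ⟨Nat.log 2 K + 1, (Nat.lt_pow_succ_log_self (by norm_num) K).le, ?_⟩
    rw [pow_succ, mul_comm]
    exact Nat.mul_le_mul_left _ (Nat.pow_log_le_self 2 (by omega))
  have hjj : j₀ ≤ j := by
    by_contra hcon
    push Not at hcon
    have : 2 ^ j ≤ 2 ^ j₀ := Nat.pow_le_pow_right (by norm_num) hcon.le
    omega
  have h4 := hj j hjj
  rw [not_le, hSc, ← ENNReal.ofReal_natCast, ENNReal.ofReal_lt_ofReal_iff (by positivity)] at h4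
  have h5 : (((Finset.range K).filter fun k => α ∈ U k).card : ℝ) ≤
      (((Finset.range (2 ^ j)).filter fun k => α ∈ U k).card : ℝ) :=
    Nat.cast_le.2 (Finset.card_le_card (Finset.filter_subset_filter _ (Finset.range_mono hj1)))
  calc (((Finset.range K).filter fun k => α ∈ U k).card : ℝ) ≤ ((2 : ℝ) ^ j) ^ (1 - δ + 2 * η) := h5.trans h4.le
    _ ≤ (2 * (K : ℝ)) ^ (1 - δ + 2 * η) :=
        Real.rpow_le_rpow (by positivity) (by exact_mod_cast hj2) (by linarith)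
    _ = 2 ^ (1 - δ + 2 * η) * (K : ℝ) ^ (1 - δ + 2 * η) := Real.mul_rpow (by norm_num) hK0.le
    _ ≤ (K : ℝ) ^ η * (K : ℝ) ^ (1 - δ + 2 * η) := mul_le_mul_of_nonneg_right hK1 (by positivity)
    _ = (K : ℝ) ^ (1 - δ + ε) := by
        rw [← Real.rpow_add hK0]
        congr 1
        rw [hη]
        ring

/-- some approximation of Dirichlet's quality with denominator in `[2 ^ k, 2 ^ (k + 1))` has the property `B` -/
def HitScale {d : ℕ} (B : (Fin (d + 1) → ℤ) → Prop) (α : Fin d → ℝ) (k : ℕ) : Prop :=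
  ∃ x : Fin (d + 1) → ℤ, (2 ^ k ≤ x 0 ∧ x 0 < 2 ^ (k + 1) ∧
    ∀ j : Fin d, |α j - (x j.succ : ℝ) / (x 0 : ℝ)| ≤ (x 0 : ℝ) ^ (-(1 + 1 / (d : ℝ)))) ∧ B x

open Classical in
/-- the sets of the points of a ball with such an approximation -/
noncomputable def scaleSet (d : ℕ) (B : (Fin (d + 1) → ℤ) → Prop) (K k : ℕ) : Set (Fin d → ℝ) :=
  ⋃ x ∈ (box d (K * 2 ^ (k + 1))).filter fun x => 1 ≤ x 0 ∧ B x,
    closedBall (fun j : Fin d => (x j.succ : ℝ) / (x 0 : ℝ)) (((2 : ℝ) ^ k) ^ (-(1 + 1 / (d : ℝ))))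

lemma scaleSet_meas (d : ℕ) (B : (Fin (d + 1) → ℤ) → Prop) (K k : ℕ) : MeasurableSet (scaleSet d B K k) :=
  Finset.measurableSet_biUnion _ fun _ _ => measurableSet_closedBall

lemma mem_scaleSet {d : ℕ} {B : (Fin (d + 1) → ℤ) → Prop} {M k : ℕ} {α : Fin d → ℝ} (hα : ∀ j, |α j| ≤ M)
    (h : HitScale B α k) : α ∈ scaleSet d B (M + 1) k := by
  classical
  obtain ⟨x, ⟨h1, h2, h3⟩, hB⟩ := h
  have hx1 : (1 : ℤ) ≤ x 0 := le_trans (one_le_pow₀ (by norm_num)) h1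
  have hx1' : (1 : ℝ) ≤ x 0 := by exact_mod_cast hx1
  have hx0 : (0 : ℝ) < x 0 := by linarith
  have hd0 : (0 : ℝ) ≤ 1 / (d : ℝ) := by positivity
  have h2k : ((2 : ℝ) ^ k) ≤ x 0 := by exact_mod_cast h1
  unfold scaleSet
  rw [mem_iUnion₂]
  refine ⟨x, ?_, ?_⟩
  · rw [Finset.mem_filter, mem_box]
    refine ⟨fun j => ?_, hx1, hB⟩
    have hx2 : (x 0 : ℝ) < 2 ^ (k + 1) := by exact_mod_cast h2
    have key : |(x j : ℝ)| ≤ ((M : ℝ) + 1) * 2 ^ (k + 1) := by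
      refine Fin.cases ?_ (fun i => ?_) j
      · rw [abs_of_pos hx0]
        have : (0 : ℝ) ≤ M := Nat.cast_nonneg M
        nlinarith
      · have h4 := h3 i
        have h5 : (x 0 : ℝ) ^ (-(1 + 1 / (d : ℝ))) ≤ 1 := Real.rpow_le_one_of_one_le_of_nonpos hx1' (by linarith)
        have h6 : |(x i.succ : ℝ) / (x 0 : ℝ)| ≤ (M : ℝ) + 1 := by
          calc |(x i.succ : ℝ) / (x 0 : ℝ)| = |α i - (α i - (x i.succ : ℝ) / (x 0 : ℝ))| := congrArg abs (by ring)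
            _ ≤ |α i| + |α i - (x i.succ : ℝ) / (x 0 : ℝ)| := abs_sub _ _
            _ ≤ M + 1 := add_le_add (hα i) (h4.trans h5)
        rw [abs_div, abs_of_pos hx0, div_le_iff₀ hx0] at h6
        refine h6.trans (mul_le_mul_of_nonneg_left hx2.le (by positivity))
    have h7 : ((|x j| : ℤ) : ℝ) ≤ (((M + 1) * 2 ^ (k + 1) : ℕ) : ℝ) := by
      rw [Int.cast_abs]
      push_cast
      exact key
    exact_mod_cast h7
  · rw [mem_closedBall, dist_pi_le_iff (by positivity)]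
    intro j
    rw [Real.dist_eq]
    refine (h3 j).trans ?_
    exact Real.rpow_le_rpow_of_nonpos (by positivity) h2k (by linarith)

lemma vol_scaleSet {d : ℕ} (B : (Fin (d + 1) → ℤ) → Prop) (K k : ℕ) (hd : 1 ≤ d) :
    volume (scaleSet d B K k) ≤ ENNReal.ofReal (2 ^ d * ((cnt d B (K * 2 ^ (k + 1)) : ℝ) / ((2 : ℝ) ^ k) ^ (d + 1))) := by
  classical
  have hd0 : (0 : ℝ) < d := by exact_mod_cast hd
  unfold scaleSet
  refine (measure_biUnion_finset_le _ _).trans ?_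
  have h1 : ∀ x : Fin (d + 1) → ℤ, volume (closedBall (fun j : Fin d => (x j.succ : ℝ) / (x 0 : ℝ))
      (((2 : ℝ) ^ k) ^ (-(1 + 1 / (d : ℝ))))) = ENNReal.ofReal (2 ^ d * (((2 : ℝ) ^ k) ^ (d + 1))⁻¹) := by
    intro x
    rw [Real.volume_pi_closedBall _ (by positivity), Fintype.card_fin, mul_pow]
    congr 2
    obtain ⟨a, ha⟩ : ∃ a : ℝ, a = (2 : ℝ) ^ k := ⟨_, rfl⟩
    have ha0 : 0 < a := by rw [ha]; positivity
    rw [← ha, ← Real.rpow_natCast a (d + 1), ← Real.rpow_neg ha0.le, ← Real.rpow_natCast, ← Real.rpow_mul ha0.le]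
    congr 1
    push_cast
    field_simp
  rw [Finset.sum_congr rfl fun x _ => h1 x, Finset.sum_const, nsmul_eq_mul, ← ENNReal.ofReal_natCast,
    ← ENNReal.ofReal_mul (by positivity)]
  refine ENNReal.ofReal_le_ofReal (le_of_eq ?_)
  unfold cnt
  rw [div_eq_mul_inv]
  ring

/-- the measure of the points with a bad approximation at the scale `k` -/
theorem vol_scale {d : ℕ} (hd : 1 ≤ d) {B : ℕ → Prop} {δ : ℝ} (h : LogFewU δ B) (hδ : 0 ≤ δ)
    (c : Fin (d + 1) → ℤ) (hc : c ≠ 0) (K : ℕ) (hK : 1 ≤ K) : ∃ C : ℝ, 0 ≤ C ∧ ∀ k : ℕ,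
    volume (scaleSet d (fun x => ∑ j, c j * x j ≠ 0 ∧ B (∑ j, c j * x j).natAbs) K k) ≤
      ENNReal.ofReal (C * ((k : ℝ) + 1) ^ (-δ)) := by
  obtain ⟨A₀, hA₀, hlin⟩ := cnt_lin (B := B) c hc
  obtain ⟨C, hC⟩ := h
  have hlog2' : 0 < Real.log 2 := Real.log_pos (by norm_num)
  refine ⟨2 ^ d * (|C| * A₀ * (2 * 3 ^ d) * (K * 2) ^ (d + 1) * (1 / Real.log 2 ^ δ)), by positivity, fun k => ?_⟩
  refine (vol_scaleSet _ K k hd).trans (ENNReal.ofReal_le_ofReal ?_)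
  rw [mul_assoc (2 ^ d : ℝ)]
  refine mul_le_mul_of_nonneg_left ?_ (by positivity)
  set N : ℕ := K * 2 ^ (k + 1) with hN
  have hN2 : 2 ^ (k + 1) ≤ N := Nat.le_mul_of_pos_left _ (by omega)
  have hN2' : 2 ≤ N := le_trans (by rw [pow_succ]; have := Nat.one_le_two_pow (n := k); omega) hN2
  have hAN : 2 ≤ A₀ * N := le_trans hN2' (Nat.le_mul_of_pos_left _ (by omega))
  have hlogN : ((k : ℝ) + 1) * Real.log 2 ≤ Real.log ((A₀ * N : ℕ) : ℝ) := by
    have h1 : ((2 : ℝ) ^ (k + 1)) ≤ ((A₀ * N : ℕ) : ℝ) := by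
      have : 2 ^ (k + 1) ≤ A₀ * N := hN2.trans (Nat.le_mul_of_pos_left _ (by omega))
      exact_mod_cast this
    have h2 := Real.log_le_log (by positivity) h1
    rw [Real.log_pow] at h2
    push_cast at h2 ⊢
    exact h2
  have hj1 : 0 < ((k : ℝ) + 1) * Real.log 2 := by positivity
  have hT : ∀ F : Finset ℕ, (∀ n ∈ F, 1 ≤ n ∧ n ≤ A₀ * N ∧ B n) →
      (F.card : ℝ) ≤ |C| * (A₀ * N) / (((k : ℝ) + 1) * Real.log 2) ^ δ := by
    intro F hF
    refine (hC _ hAN F hF).trans ?_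
    push_cast
    have h1 : C * ((A₀ : ℝ) * N) ≤ |C| * ((A₀ : ℝ) * N) :=
      mul_le_mul_of_nonneg_right (le_abs_self C) (by positivity)
    refine div_le_div₀ (by positivity) h1 (by positivity) ?_
    have h2 := hlogN
    push_cast at h2
    exact Real.rpow_le_rpow hj1.le h2 hδ
  have h1 := hlin N (by omega) _ hT
  have h2k : (0 : ℝ) < ((2 : ℝ) ^ k) ^ (d + 1) := by positivity
  rw [div_le_iff₀ h2k]
  refine h1.trans (le_of_eq ?_)
  rw [hN, Real.mul_rpow (by positivity) hlog2'.le, Real.rpow_neg (by positivity)]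
  push_cast
  have hk : ((k : ℝ) + 1) ^ δ ≠ 0 := by positivity
  have hl : Real.log 2 ^ δ ≠ 0 := by positivity
  field_simp
  ring

/-- most scales, for almost every point -/
theorem most_scales {d : ℕ} (hd : 1 ≤ d) {B : ℕ → Prop} {δ : ℝ} (h : LogFewU δ B) (hδ : 0 ≤ δ) (hδ1 : δ ≤ 1) :
    ∀ᵐ α : Fin d → ℝ, ∀ c : Fin (d + 1) → ℤ, c ≠ 0 → ∀ ε : ℝ, 0 < ε → ∀ᶠ K : ℕ in atTop,
      ({k : ℕ | k < K ∧ HitScale (fun x => ∑ j, c j * x j ≠ 0 ∧ B (∑ j, c j * x j).natAbs) α k}.ncard : ℝ) ≤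
        (K : ℝ) ^ (1 - δ + ε) := by
  classical
  have h1 : ∀ᵐ α : Fin d → ℝ, ∀ c : {c : Fin (d + 1) → ℤ // c ≠ 0}, ∀ (n M : ℕ), ∀ᶠ K : ℕ in atTop,
      (((Finset.range K).filter fun k => α ∈ scaleSet d
        (fun x => ∑ j, c.1 j * x j ≠ 0 ∧ B (∑ j, c.1 j * x j).natAbs) (M + 1) k).card : ℝ) ≤
        (K : ℝ) ^ (1 - δ + 1 / ((n : ℝ) + 1)) := by
    rw [ae_all_iff]
    intro c
    rw [ae_all_iff]
    intro n
    rw [ae_all_iff]
    intro M
    obtain ⟨C, hC, hC2⟩ := vol_scale hd h hδ c.1 c.2 (M + 1) (by omega)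
    exact most_sets volume _ (fun k => scaleSet_meas _ _ _ _) hC hδ1 hC2 (by positivity)
  filter_upwards [h1] with α hα c hc ε hε
  obtain ⟨n, hn⟩ := exists_nat_one_div_lt hε
  obtain ⟨M, hM⟩ : ∃ M : ℕ, ∀ j, |α j| ≤ M := by
    obtain ⟨M, hM⟩ := exists_nat_ge (∑ j, |α j|)
    exact ⟨M, fun j => (Finset.single_le_sum (fun i _ => abs_nonneg (α i)) (Finset.mem_univ j)).trans hM⟩
  filter_upwards [hα ⟨c, hc⟩ n M, eventually_ge_atTop 1] with K hK hK1
  have hK1' : (1 : ℝ) ≤ K := by exact_mod_cast hK1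
  refine le_trans ?_ (hK.trans (Real.rpow_le_rpow_of_exponent_le hK1' (by linarith)))
  rw [← Set.ncard_coe_finset]
  refine Nat.cast_le.2 (Set.ncard_le_ncard ?_ (Finset.finite_toSet _))
  rintro k ⟨hk1, hk2⟩
  rw [Finset.mem_coe, Finset.mem_filter, Finset.mem_range]
  exact ⟨hk1, mem_scaleSet hM hk2⟩

end Pool.Agent.Q44.CF
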