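import Pool.Agent.Q44.RatAppr
import Pool.Agent.W221.ABC.Main7

set_option autoImplicit false

/-! The abc-triples `(a, c - a, c)` with a small radical, as rational numbers `a / c`. -/

namespace Pool.Agent.Q44.CF

/-- the rational numbers `r = a / c`, `0 < r < 1`, for which the abc-triple `a + (c - a) = c` has a radical
at most `B c ^ lam` -/
def SmallRad (B lam : ℝ) (r : ℚ) : Prop :=
  0 < r ∧ r < 1 ∧ ((∏ p ∈ (r.num.natAbs * (r.den - r.num.natAbs) * r.den).primeFactors, p : ℕ) : ℝ) ≤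
    B * (r.den : ℝ) ^ lam

lemma num_lt {r : ℚ} (h0 : 0 < r) (h1 : r < 1) : 0 < r.num.natAbs ∧ r.num.natAbs < r.den := by
  have h2 : 0 < r.num := Rat.num_pos.2 h0
  have h3 : r.num < r.den := Rat.num_lt_denom_iff.2 h1
  omega

theorem ratFew_small (B lam : ℝ) (hlam : 0 < lam) :
    RatFew (Pool.Agent.W221.ABC7.Fx lam) (SmallRad B lam) := by
  intro t ht
  obtain ⟨C, hC⟩ := Pool.Agent.W221.ABC7.count_FxB B lam (t - Pool.Agent.W221.ABC7.Fx lam) hlam
    (by linarith)
  refine ⟨C, fun N hN => ?_⟩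
  have h1 := hC N hN
  rw [add_sub_cancel] at h1
  refine le_trans (Nat.cast_le.2 ?_) h1
  refine Set.ncard_le_ncard_of_injOn (fun r : ℚ => ((r.num.natAbs, r.den - r.num.natAbs, r.den) : ℕ × ℕ × ℕ))
    ?_ ?_ (Pool.Agent.W221.ABC7.excB_finite B lam N)
  · rintro r ⟨-, h3, h4, h5, h6⟩
    obtain ⟨h7, h8⟩ := num_lt h4 h5
    have hc : Nat.Coprime r.num.natAbs r.den := r.reduced
    refine ⟨h7, ?_, ?_, ?_, h3, h6⟩
    · show 0 < r.den - r.num.natAbs
      omega
    · show Nat.Coprime r.num.natAbs (r.den - r.num.natAbs)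
      exact (Nat.coprime_sub_self_right h8.le).2 hc
    · show r.num.natAbs + (r.den - r.num.natAbs) = r.den
      omega
  · rintro r ⟨-, -, h4, -, -⟩ r' ⟨-, -, h4', -, -⟩ h
    simp only [Prod.mk.injEq] at h
    have h5 : 0 < r.num := Rat.num_pos.2 h4
    have h6 : 0 < r'.num := Rat.num_pos.2 h4'
    refine Rat.ext ?_ h.2.2
    have := h.1
    omega

end Pool.Agent.Q44.CF
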