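import Pool.Agent.Q44.CF
import Pool.Agent.Results.MP_a95293_nt.FewExceptions

set_option autoImplicit false

/-! The `n`-term abc inequality at the integral parametrizations of the hyperplane by good simultaneous
rational approximations. -/

namespace Pool.Agent.Q44.CF

open Pool.Agent.Results.MP_a95293_nt.FewExceptions

/-- `y` is a positive multiple of an admissible tuple `z` with `rad (z_1 ⋯ z_n) ^ M < max |z_i|` -/
def Violates {n : ℕ} (M : ℝ) (y : Fin n → ℤ) : Prop :=
  ∃ (g : ℤ) (z : Fin n → ℤ), 0 < g ∧ (∀ i, y i = g * z i) ∧ Admissible z ∧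
    ∃ i, ((rad z : ℕ) : ℝ) ^ M < (|z i| : ℝ)

lemma cnt_le_ncard {β : Type*} {d N : ℕ} {B : (Fin (d + 1) → ℤ) → Prop} {T : Set β} (hT : T.Finite)
    (f : (Fin (d + 1) → ℤ) → β)
    (hmap : ∀ x : Fin (d + 1) → ℤ, (∀ j, |x j| ≤ N) → 1 ≤ x 0 → B x → f x ∈ T)
    (hinj : ∀ x y : Fin (d + 1) → ℤ, B x → B y → f x = f y → x = y) : cnt d B N ≤ T.ncard := by
  classical
  unfold cnt
  rw [← Set.ncard_coe_finset]
  refine Set.ncard_le_ncard_of_injOn f ?_ ?_ hT
  · intro x hx
    rw [Finset.mem_coe, Finset.mem_filter, mem_box] at hx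
    exact hmap x hx.1 hx.2.1 hx.2.2
  · intro x hx y hy hxy
    rw [Finset.mem_coe, Finset.mem_filter] at hx hy
    exact hinj x y hx.2.2 hy.2.2 hxy

theorem few_tuples (n : ℕ) (hn : 3 ≤ n) (M : ℝ) (hM : 0 < M) (d : ℕ) (L : Fin n → Fin (d + 1) → ℤ)
    (hL : ∀ x : Fin (d + 1) → ℤ, (∀ i, ∑ j, L i j * x j = 0) → x = 0) :
    Few d ((1 - 1 / (n.choose (n / 2) : ℝ)) / M)
      (fun x => Finset.univ.gcd x = 1 ∧ Violates M (fun i => ∑ j, L i j * x j)) := by
  classical
  intro t ht
  obtain ⟨C, hC⟩ := all_tuples n hn M (t - (1 - 1 / (n.choose (n / 2) : ℝ)) / M) hM (by linarith)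
  rw [add_sub_cancel] at hC
  set K : ℕ := (∑ i, ∑ j, (L i j).natAbs) + 1 with hK
  refine ⟨|C| * (K : ℝ) ^ t, fun N hN => ?_⟩
  have hKN : (1 : ℝ) ≤ ((K * N : ℕ) : ℝ) := by
    have : 1 ≤ K * N := Nat.one_le_iff_ne_zero.2 (by positivity)
    exact_mod_cast this
  obtain ⟨hfin, hcard⟩ := hC _ hKN
  set B : (Fin (d + 1) → ℤ) → Prop :=
    fun x => Finset.univ.gcd x = 1 ∧ Violates M (fun i => ∑ j, L i j * x j) with hB
  have hch : ∀ x, B x → ∃ (g : ℤ) (z : Fin n → ℤ), 0 < g ∧ (∀ i, ∑ j, L i j * x j = g * z i) ∧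
      Admissible z ∧ ∃ i, ((rad z : ℕ) : ℝ) ^ M < (|z i| : ℝ) := fun x hx => hx.2
  choose! G Z hG hGZ hadm hvio using hch
  have h2 : cnt d B N ≤ (exceptions n M ((K * N : ℕ) : ℝ)).ncard := by
    refine cnt_le_ncard hfin Z ?_ ?_
    · intro x hb _ hBx
      refine ⟨hadm x hBx, fun i => ?_, hvio x hBx⟩
      have h3 : |∑ j, L i j * x j| ≤ (K * N : ℕ) := by
        refine (Finset.abs_sum_le_sum_abs _ _).trans ?_
        have h4 : ∀ j, |L i j * x j| ≤ ((L i j).natAbs : ℤ) * N := by
          intro j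
          rw [abs_mul, Int.natCast_natAbs]
          exact mul_le_mul_of_nonneg_left (hb j) (abs_nonneg _)
        refine (Finset.sum_le_sum fun j _ => h4 j).trans ?_
        rw [← Finset.sum_mul]
        rw [Nat.cast_mul]
        refine mul_le_mul_of_nonneg_right ?_ (by positivity)
        have h5 : ∑ j, (L i j).natAbs ≤ K := by
          rw [hK]
          refine le_trans ?_ (Nat.le_succ _)
          exact Finset.single_le_sum (f := fun i => ∑ j, (L i j).natAbs) (fun _ _ => Nat.zero_le _)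
            (Finset.mem_univ i)
        exact_mod_cast h5
      have h6 : |Z x i| ≤ |∑ j, L i j * x j| := by
        rw [hGZ x hBx i, abs_mul]
        have : 1 ≤ |G x| := by
          have := hG x hBx
          rw [abs_of_pos this]
          omega
        nlinarith [abs_nonneg (Z x i)]
      have h7 := h6.trans h3
      exact_mod_cast h7
    · intro x y hBx hBy hxy
      have h3 : (fun j => G y * x j - G x * y j) = 0 := by
        refine hL _ fun i => ?_
        have e1 := hGZ x hBx i
        have e2 := hGZ y hBy i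
        have e3 : ∑ j, L i j * (G y * x j - G x * y j) =
            G y * ∑ j, L i j * x j - G x * ∑ j, L i j * y j := by
          rw [Finset.mul_sum, Finset.mul_sum, ← Finset.sum_sub_distrib]
          exact Finset.sum_congr rfl fun j _ => by ring
        rw [e3, e1, e2, hxy]
        ring
      have h4 : ∀ j, G y * x j = G x * y j := fun j => by
        have := congrFun h3 j
        simp only [Pi.zero_apply] at this
        linarith
      have h5 : G y = G x := by
        have e1 : Finset.univ.gcd (fun j => G y * x j) = G y := by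
          rw [Finset.gcd_mul_left, hBx.1, mul_one, Int.normalize_of_nonneg (hG y hBy).le]
        have e2 : Finset.univ.gcd (fun j => G x * y j) = G x := by
          rw [Finset.gcd_mul_left, hBy.1, mul_one, Int.normalize_of_nonneg (hG x hBx).le]
        rw [← e1, ← e2]
        congr 1
        funext j
        exact h4 j
      funext j
      have h6 := h4 j
      rw [h5] at h6
      exact mul_left_cancel₀ (hG x hBx).ne' h6
  refine ((Nat.cast_le (α := ℝ)).2 h2).trans (hcard.trans ?_)
  push_cast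
  rw [Real.mul_rpow (by positivity) (by positivity), ← mul_assoc]
  refine mul_le_mul_of_nonneg_right ?_ (by positivity)
  exact mul_le_mul_of_nonneg_right (le_abs_self C) (by positivity)

/-- all integral parametrizations, all `M` -/
theorem dim_tuples (n : ℕ) (hn : 3 ≤ n) (M : ℝ) (hM : 0 < M) (d : ℕ) (τ : ℝ) (hτ : 0 < τ) :
    dimH {α : Fin d → ℝ | ¬ ∀ L : Fin n → Fin (d + 1) → ℤ,
      (∀ x : Fin (d + 1) → ℤ, (∀ i, ∑ j, L i j * x j = 0) → x = 0) →
      {x : Fin (d + 1) → ℤ | Near α τ x ∧ Finset.univ.gcd x = 1 ∧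
        Violates M (fun i => ∑ j, L i j * x j)}.Finite} ≤
      ENNReal.ofReal ((1 - 1 / (n.choose (n / 2) : ℝ)) / M / τ) := by
  have hb : (1 : ℝ) ≤ (n.choose (n / 2) : ℝ) := by
    have : 0 < n.choose (n / 2) := Nat.choose_pos (Nat.div_le_self n 2)
    exact_mod_cast this
  have h0 : 0 ≤ (1 - 1 / (n.choose (n / 2) : ℝ)) / M := by
    have : 1 / (n.choose (n / 2) : ℝ) ≤ 1 := by
      rw [div_le_one (by linarith)]
      exact hb
    have h1 : 0 ≤ 1 - 1 / (n.choose (n / 2) : ℝ) := by linarith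
    positivity
  refine le_trans (dimH_mono ?_) (dim_of_few (ι := {L : Fin n → Fin (d + 1) → ℤ //
    ∀ x : Fin (d + 1) → ℤ, (∀ i, ∑ j, L i j * x j = 0) → x = 0}) (τ := τ) hτ h0
    (fun L => few_tuples n hn M hM d L.1 L.2))
  intro α hα hcon
  exact hα fun L hL => hcon ⟨L, hL⟩

end Pool.Agent.Q44.CF
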