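import Pool.Agent.Q44.LossLog

set_option autoImplicit false

/-! Exceptional twists with a saving of a small power of the logarithm, at most of the approximations of almost all real
points -/

namespace Pool.Agent.Q44.CF

/-- the integers of absolute value `n` -/
theorem fewU_of_twists {E : ℤ → Prop} {δ C : ℝ} (h : ∀ X : ℕ, 2 ≤ X →
    (({d : ℤ | d.natAbs ≤ X ∧ E d}.ncard : ℕ) : ℝ) ≤ C * X * (Real.log X) ^ (-δ)) :
    LogFewU δ (fun n => ∃ d : ℤ, d.natAbs = n ∧ E d) := by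
  classical
  refine ⟨C, fun X hX F hF => ?_⟩
  have hL : 0 < Real.log X := lt_of_lt_of_le (Real.log_pos (by norm_num)) (log2_le hX)
  have hfin : {d : ℤ | d.natAbs ≤ X ∧ E d}.Finite := by
    refine (Set.finite_Icc (-(X : ℤ)) X).subset ?_
    rintro d ⟨h1, -⟩
    rw [Set.mem_Icc]
    omega
  have h1 : (F.card : ℝ) ≤ ({d : ℤ | d.natAbs ≤ X ∧ E d}.ncard : ℝ) := by
    have hch : ∀ n : ℕ, ∃ d : ℤ, n ∈ F → d.natAbs = n ∧ E d := by
      intro n
      by_cases hn : n ∈ F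
      · obtain ⟨d, hd⟩ := (hF n hn).2.2
        exact ⟨d, fun _ => hd⟩
      · exact ⟨0, fun h => absurd h hn⟩
    choose f hf using hch
    rw [← Set.ncard_coe_finset]
    refine Nat.cast_le.2 (Set.ncard_le_ncard_of_injOn f (fun n hn => ?_) ?_ hfin)
    · have h2 := hf n (Finset.mem_coe.1 hn)
      exact ⟨by rw [h2.1]; exact (hF n (Finset.mem_coe.1 hn)).2.1, h2.2⟩
    · intro n hn m hm hnm
      rw [← (hf n (Finset.mem_coe.1 hn)).1, hnm, (hf m (Finset.mem_coe.1 hm)).1]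
  refine h1.trans ((h X hX).trans (le_of_eq ?_))
  rw [Real.rpow_neg hL.le, div_eq_mul_inv]

/-- twists by most of the approximations -/
theorem atMost_twists {E : ℤ → Prop} {δ C : ℝ} (hδ : 0 ≤ δ) (hδ1 : δ ≤ 1) (h : ∀ X : ℕ, 2 ≤ X →
    (({d : ℤ | d.natAbs ≤ X ∧ E d}.ncard : ℕ) : ℝ) ≤ C * X * (Real.log X) ^ (-δ)) :
    AtMostApproximations δ (fun n => ∀ d : ℤ, d.natAbs = n → ¬ E d) := by
  refine atMost_of hδ hδ1 (fewU_of_twists h) fun n hn => ?_
  push Not at hn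
  exact hn

end Pool.Agent.Q44.CF
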